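import Pool.Agent.Lib.MP_695920_nt.TT.Selmer
import Pool.Agent.Lib.MP_695920_nt.TT.DiscOmega

/-! TEAM QUARTIC, case II: a quartic field with a quadratic subfield has few classes of order two
(two steps of a quadratic extension: norm of the Selmer group and Hilbert 90). -/

set_option autoImplicit false

open NumberField Module IsDedekindDomain
open scoped nonZeroDivisors

namespace Pool.TT.Quartic

open Pool.TT.Sel

/-- (1) the classes of order two inside the Selmer group modulo squares -/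
theorem c2_cl_le (K : Type) [Field K] [NumberField K] :
    Nat.card {x : ClassGroup (𝓞 K) // x ^ 2 = 1} ≤ (Sq K).relIndex (Sel K ∅) := by
  classical
  have h1 : ∀ x : {x : ClassGroup (𝓞 K) // x ^ 2 = 1}, ∃ (I : (Ideal (𝓞 K))⁰) (r : 𝓞 K),
      ClassGroup.mk0 I = x.1 ∧ r ≠ 0 ∧ Ideal.span {r} = (I : Ideal (𝓞 K)) ^ 2 := by
    intro x
    obtain ⟨I, hI⟩ := ClassGroup.mk0_surjective x.1
    have h2 : ClassGroup.mk0 (I ^ 2) = 1 := by
      rw [map_pow, hI, x.2]
    rw [ClassGroup.mk0_eq_one_iff] at h2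
    obtain ⟨r, hr⟩ := h2
    rw [SubmonoidClass.coe_pow] at hr
    refine ⟨I, r, hI, ?_, hr.symm⟩
    rintro rfl
    have h3 : (I : Ideal (𝓞 K)) ≠ 0 := nonZeroDivisors.coe_ne_zero I
    have h4 : (I : Ideal (𝓞 K)) ^ 2 = 0 := by
      rw [hr]
      simp
    exact h3 (pow_eq_zero_iff (by norm_num) |>.1 h4)
  choose I r hI hr0 hrI using h1
  have hrK : ∀ x, algebraMap (𝓞 K) K (r x) ≠ 0 := by
    intro x
    rw [Ne, FaithfulSMul.algebraMap_eq_zero_iff]
    exact hr0 x
  have hval : ∀ x, Units.mk0 _ (hrK x) ∈ Sel K ∅ := by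
    intro x v _
    rw [val_eq v (hr0 x) (Units.val_mk0 _), hrI, Associates.mk_pow,
      Associates.count_pow _ (v.associates_irreducible)]
    · exact (Int.dvd_neg).2 (by push_cast; exact dvd_mul_right _ _)
    · rw [Associates.mk_ne_zero]
      exact nonZeroDivisors.coe_ne_zero _
  obtain ⟨h0, -⟩ := relIndex_Sel K ∅
  have hfin : Finite (Sel K ∅ ⧸ (Sq K).subgroupOf (Sel K ∅)) := by
    rw [Subgroup.relIndex, Subgroup.index] at h0
    exact Nat.finite_of_card_ne_zero h0
  have hinj : Function.Injective (fun x : {x : ClassGroup (𝓞 K) // x ^ 2 = 1} =>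
      (QuotientGroup.mk (⟨Units.mk0 _ (hrK x), hval x⟩ : Sel K ∅) :
        Sel K ∅ ⧸ (Sq K).subgroupOf (Sel K ∅))) := by
    intro x y hxy
    have h2 := QuotientGroup.eq.1 hxy
    rw [Subgroup.mem_subgroupOf] at h2
    obtain ⟨c, hc⟩ := h2
    have hc' : algebraMap (𝓞 K) K (r y) = algebraMap (𝓞 K) K (r x) * (c : K) ^ 2 := by
      have h3 := congrArg (fun u : Kˣ => (u : K)) hc
      simp only [powMonoidHom_apply, Subgroup.coe_mul, Subgroup.coe_inv, Units.val_mul,
        Units.val_inv_eq_inv_val, Units.val_mk0, Units.val_pow_eq_pow_val] at h3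
      rw [h3, mul_inv_cancel_left₀ (hrK x)]
    obtain ⟨a, b, hb, hab⟩ := IsFractionRing.div_surjective (A := 𝓞 K) (c : K)
    have hb0 : b ≠ 0 := nonZeroDivisors.ne_zero hb
    have hbK : algebraMap (𝓞 K) K b ≠ 0 := by
      rw [Ne, FaithfulSMul.algebraMap_eq_zero_iff]
      exact hb0
    have ha0 : a ≠ 0 := by
      rintro rfl
      rw [map_zero, zero_div] at hab
      exact c.ne_zero hab.symm
    have h5 : b ^ 2 * r y = a ^ 2 * r x := by
      apply FaithfulSMul.algebraMap_injective (𝓞 K) K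
      rw [map_mul, map_mul, map_pow, map_pow, hc', ← hab]
      field_simp
    have h6 : (Ideal.span {b} * (I y : Ideal (𝓞 K))) ^ 2 =
        (Ideal.span {a} * (I x : Ideal (𝓞 K))) ^ 2 := by
      rw [mul_pow, mul_pow, ← hrI, ← hrI, Ideal.span_singleton_pow, Ideal.span_singleton_pow,
        Ideal.span_singleton_mul_span_singleton, Ideal.span_singleton_mul_span_singleton, h5]
    have h7 : Ideal.span {b} * (I y : Ideal (𝓞 K)) = Ideal.span {a} * (I x : Ideal (𝓞 K)) :=
      pow_left_injective two_ne_zero h6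
    apply Subtype.ext
    rw [← hI x, ← hI y, ClassGroup.mk0_eq_mk0_iff]
    exact ⟨a, b, ha0, hb0, h7.symm⟩
  have h4 := Nat.card_le_card_of_injective _ hinj
  rw [Subgroup.relIndex, Subgroup.index]
  exact h4

/-- an element generating the square of an ideal is in the Selmer group -/
theorem c2_mem_Sel {K : Type} [Field K] [NumberField K] {r : 𝓞 K} (hr0 : r ≠ 0)
    {J : Ideal (𝓞 K)} (hJ : Ideal.span {r} = J ^ 2) {z : Kˣ}
    (hz : (z : K) = algebraMap (𝓞 K) K r) (v : HeightOneSpectrum (𝓞 K)) :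
    (2 : ℤ) ∣ Multiplicative.toAdd (v.valuationOfNeZero z) := by
  classical
  have hJ0 : J ≠ 0 := by
    rintro rfl
    rw [zero_pow two_ne_zero, Ideal.zero_eq_bot, Ideal.span_singleton_eq_bot] at hJ
    exact hr0 hJ
  rw [val_eq v hr0 hz, hJ, Associates.mk_pow,
    Associates.count_pow (Associates.mk_ne_zero.2 hJ0) (v.associates_irreducible)]
  exact (Int.dvd_neg).2 (by push_cast; exact dvd_mul_right _ _)

/-- the norm as a homomorphism of the groups of units -/
noncomputable def c2N (F K : Type) [Field F] [Field K] [Algebra F K] : Kˣ →* Fˣ :=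
  Units.map (Algebra.norm F : K →* F)

theorem c2N_val {F K : Type} [Field F] [Field K] [Algebra F K] (z : Kˣ) :
    ((c2N F K z : Fˣ) : F) = Algebra.norm F (z : K) := rfl

/-- (2) the norm of the Selmer group -/
theorem c2_norm_mem (F K : Type) [Field F] [NumberField F] [Field K] [NumberField K]
    [Algebra F K] {z : Kˣ} (hz : z ∈ Sel K ∅) : c2N F K z ∈ Sel F ∅ := by
  obtain ⟨r, s, I, hr0, hzr, hrI⟩ := elt_ideal z (fun v => hz v (Finset.notMem_empty v))
  intro v _
  have hrK : algebraMap (𝓞 K) K r ≠ 0 := by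
    rw [Ne, FaithfulSMul.algebraMap_eq_zero_iff]
    exact hr0
  have h1 : z = Units.mk0 _ hrK * s ^ 2 := by
    apply Units.ext
    rw [hzr]
    rfl
  rw [h1, map_mul, map_pow, map_mul, map_pow, toAdd_mul, toAdd_pow, nsmul_eq_mul]
  refine dvd_add ?_ (dvd_mul_right _ _)
  have h2 : ((c2N F K (Units.mk0 _ hrK) : Fˣ) : F) =
      algebraMap (𝓞 F) F (Algebra.intNorm (𝓞 F) (𝓞 K) r) := by
    rw [c2N_val, Units.val_mk0, Algebra.algebraMap_intNorm (K := F) (L := K)]
  refine c2_mem_Sel (r := Algebra.intNorm (𝓞 F) (𝓞 K) r) ?_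
    (J := Ideal.relNorm (𝓞 F) (I : Ideal (𝓞 K))) ?_ h2 v
  · intro h0
    rw [h0, map_zero] at h2
    exact (Units.ne_zero _) h2
  · rw [← Ideal.relNorm_singleton, hrI, map_pow]

/-- the quadratic equation -/
theorem c2_quad {F K : Type} [Field F] [Field K] [Algebra F K] (h : finrank F K = 2) (z : K) :
    z ^ 2 = algebraMap F K (Algebra.trace F K z) * z - algebraMap F K (Algebra.norm F z) := by
  have : FiniteDimensional F K := FiniteDimensional.of_finrank_pos (by rw [h]; norm_num)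
  let b := Module.finBasisOfFinrankEq F K h
  have h1 := Matrix.aeval_self_charpoly (Algebra.leftMulMatrix b z)
  rw [Matrix.charpoly_fin_two, ← Algebra.trace_eq_matrix_trace, ← Algebra.norm_eq_matrix_det] at h1
  have h2 : Polynomial.aeval z (Polynomial.X ^ 2 - Polynomial.C (Algebra.trace F K z) *
      Polynomial.X + Polynomial.C (Algebra.norm F z)) = 0 := by
    apply Algebra.leftMulMatrix_injective b
    rw [map_zero, ← Polynomial.aeval_algHom_apply]
    exact h1
  simp only [map_add, map_sub, map_mul, map_pow, Polynomial.aeval_X, Polynomial.aeval_C] at h2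
  linear_combination h2

/-- (3) Hilbert 90 for squares -/
theorem c2_kernel {F K : Type} [Field F] [Field K] [Algebra F K] (h : finrank F K = 2)
    (z : Kˣ) (hz : c2N F K z ∈ Sq F) :
    ∃ (q : Fˣ) (s : Kˣ), z = Units.map (algebraMap F K : F →* K) q * s ^ 2 := by
  obtain ⟨c, hc⟩ := hz
  have hc' : (c : F) ^ 2 = Algebra.norm F (z : K) := by
    rw [← c2N_val, ← hc]
    rfl
  have h1 := c2_quad h (z : K)
  rw [← hc', map_pow] at h1
  set t : F := Algebra.trace F K (z : K) + 2 * c with ht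
  have h2 : ((z : K) + algebraMap F K c) ^ 2 = algebraMap F K t * z := by
    rw [ht, map_add, map_mul, map_ofNat]
    linear_combination h1
  by_cases ht0 : t = 0
  · refine ⟨-c, 1, ?_⟩
    rw [ht0, map_zero, zero_mul] at h2
    have h3 : (z : K) + algebraMap F K c = 0 := by
      rwa [sq_eq_zero_iff] at h2
    apply Units.ext
    rw [one_pow, mul_one]
    simp only [Units.coe_map, MonoidHom.coe_coe, Units.val_neg, map_neg]
    exact eq_neg_of_add_eq_zero_left h3
  · have htK : algebraMap F K t ≠ 0 := by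
      rw [Ne, FaithfulSMul.algebraMap_eq_zero_iff]
      exact ht0
    have hzc : (z : K) + algebraMap F K c ≠ 0 := by
      intro h4
      rw [h4, zero_pow two_ne_zero] at h2
      exact mul_ne_zero htK z.ne_zero h2.symm
    refine ⟨Units.mk0 t ht0, Units.mk0 _ hzc * (Units.mk0 _ htK)⁻¹, ?_⟩
    apply Units.ext
    simp only [Units.val_mul, Units.coe_map, MonoidHom.coe_coe, Units.val_mk0,
      Units.val_pow_eq_pow_val, Units.val_inv_eq_inv_val]
    rw [mul_pow, h2]
    field_simp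

/-- a prime over a prime not dividing the discriminant is unramified: equal valuations -/
theorem c2_val_eq (F K : Type) [Field F] [NumberField F] [Field K] [NumberField K]
    [Algebra F K] (v : HeightOneSpectrum (𝓞 F)) (w : HeightOneSpectrum (𝓞 K))
    [w.asIdeal.LiesOver v.asIdeal] (hv : ((discr K : ℤ) : 𝓞 F) ∉ v.asIdeal) (x : F) :
    w.valuation K (algebraMap F K x) = v.valuation F x := by
  have hvp := v.isPrime
  have hwp := w.isPrime
  have h1 : ((Ideal.absNorm v.asIdeal : ℕ) : 𝓞 F) ∈ v.asIdeal := Ideal.absNorm_mem _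
  have h2 : Ideal.absNorm v.asIdeal ≠ 0 := by
    rw [Ne, Ideal.absNorm_eq_zero_iff]
    exact v.ne_bot
  rw [← Nat.prod_primeFactorsList h2] at h1
  obtain ⟨p, hp, hpv⟩ := exists_prime_factor_mem v.asIdeal _ h1
  have hpp := Nat.prime_of_mem_primeFactorsList hp
  have hpZ : Prime (p : ℤ) := Nat.prime_iff_prime_int.1 hpp
  have hpd : ¬ (p : ℤ) ∣ discr K := by
    rintro ⟨c, hc⟩
    apply hv
    rw [hc, Int.cast_mul, Int.cast_natCast]
    exact Ideal.mul_mem_right _ _ hpv
  have hpw : ((p : ℤ) : 𝓞 K) ∈ w.asIdeal := by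
    have h3 : v.asIdeal = w.asIdeal.under (𝓞 F) := Ideal.LiesOver.over
    rw [h3, Ideal.mem_comap] at hpv
    simpa using hpv
  have hun : Algebra.IsUnramifiedAt ℤ w.asIdeal :=
    (NumberField.not_dvd_discr_iff_forall_mem K (𝓞 K) hpZ).1 hpd w.asIdeal w.isPrime hpw
  have hun' : Algebra.IsUnramifiedAt (𝓞 F) w.asIdeal :=
    Algebra.IsUnramifiedAt.of_restrictScalars ℤ w.asIdeal
  have he : v.asIdeal.ramificationIdx' w.asIdeal = 1 := by
    rw [Ideal.ramificationIdx'_eq_ramificationIdx v.asIdeal w.asIdeal v.ne_bot]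
    exact Ideal.ramificationIdx_eq_one w.asIdeal (𝓞 F)
  have h4 := HeightOneSpectrum.valuation_liesOver K v w x
  rw [he, pow_one] at h4
  exact h4.symm

/-- (4) descent of the even exponents -/
theorem c2_descend (F K : Type) [Field F] [NumberField F] [Field K] [NumberField K]
    [Algebra F K] (S : Finset (HeightOneSpectrum (𝓞 F)))
    (hS : ∀ v : HeightOneSpectrum (𝓞 F), ((discr K : ℤ) : 𝓞 F) ∈ v.asIdeal → v ∈ S)
    (q : Fˣ) (hq : Units.map (algebraMap F K : F →* K) q ∈ Sel K ∅) : q ∈ Sel F S := by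
  intro v hv
  have hv' : ((discr K : ℤ) : 𝓞 F) ∉ v.asIdeal := fun h => hv (hS v h)
  have hvm := v.isMaximal
  obtain ⟨P, hPm, hPv⟩ := Ideal.exists_maximal_ideal_liesOver_of_isIntegral (S := 𝓞 K) v.asIdeal
  have hP0 : P ≠ ⊥ := by
    rintro rfl
    have h1 : v.asIdeal = (⊥ : Ideal (𝓞 K)).under (𝓞 F) := Ideal.LiesOver.over
    rw [Ideal.under_bot] at h1
    exact v.ne_bot h1
  let w : HeightOneSpectrum (𝓞 K) := ⟨P, hPm.isPrime, hP0⟩
  have hwv : w.asIdeal.LiesOver v.asIdeal := hPv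
  have h2 := c2_val_eq F K v w hv' (q : F)
  have h3 := hq w (Finset.notMem_empty w)
  have h4 := w.valuationOfNeZero_eq (K := K) (Units.map (algebraMap F K : F →* K) q)
  have h5 := v.valuationOfNeZero_eq (K := F) q
  have h6 : w.valuationOfNeZero (Units.map (algebraMap F K : F →* K) q) =
      v.valuationOfNeZero q := by
    rw [← WithZero.coe_inj, h4, h5, ← h2]
    rfl
  rw [← h6]
  exact h3

/-- (5) the Selmer group of a quadratic extension -/
theorem c2_index (F K : Type) [Field F] [NumberField F] [Field K] [NumberField K]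
    [Algebra F K] (h : finrank F K = 2) (S : Finset (HeightOneSpectrum (𝓞 F)))
    (hS : ∀ v : HeightOneSpectrum (𝓞 F), ((discr K : ℤ) : 𝓞 F) ∈ v.asIdeal → v ∈ S) :
    (Sq K).relIndex (Sel K ∅) ≤ (Sq F).relIndex (Sel F ∅) * (Sq F).relIndex (Sel F S) := by
  classical
  have hfin : ∀ T : Finset (HeightOneSpectrum (𝓞 F)),
      Finite (Sel F T ⧸ (Sq F).subgroupOf (Sel F T)) := by
    intro T
    have h0 := (relIndex_Sel F T).1
    rw [Subgroup.relIndex, Subgroup.index] at h0
    exact Nat.finite_of_card_ne_zero h0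
  have hf0 := hfin ∅
  have hfS := hfin S
  set M : Subgroup Kˣ := Sel K ∅ ⊓ (Sq F).comap (c2N F K) with hM
  have hMS : M ≤ Sel K ∅ := inf_le_left
  have hSq : Sq K ≤ M := by
    rintro _ ⟨s, rfl⟩
    refine Subgroup.mem_inf.2 ⟨?_, ?_⟩
    · intro v _
      rw [powMonoidHom_apply, map_pow, toAdd_pow, nsmul_eq_mul]
      exact dvd_mul_right _ _
    · rw [Subgroup.mem_comap, powMonoidHom_apply, map_pow]
      exact ⟨c2N F K s, rfl⟩
  have h1 := index_le (H := M) (L := Sel K ∅)
    (β := Sel F ∅ ⧸ (Sq F).subgroupOf (Sel F ∅))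
    (fun z => QuotientGroup.mk (⟨c2N F K z.1, c2_norm_mem F K z.2⟩ : Sel F ∅)) (by
      intro x y hxy
      have h2 := QuotientGroup.eq.1 hxy
      rw [Subgroup.mem_subgroupOf] at h2
      refine Subgroup.mem_inf.2 ⟨(Sel K ∅).mul_mem ((Sel K ∅).inv_mem x.2) y.2, ?_⟩
      rw [Subgroup.mem_comap, map_mul, map_inv]
      exact h2)
  have h3 : ∀ z : M, ∃ (q : Fˣ) (s : Kˣ), q ∈ Sel F S ∧
      (z : Kˣ) = Units.map (algebraMap F K : F →* K) q * s ^ 2 := by
    intro z
    obtain ⟨hz1, hz2⟩ := Subgroup.mem_inf.1 z.2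
    obtain ⟨q, s, hq⟩ := c2_kernel h z.1 hz2
    refine ⟨q, s, c2_descend F K S hS q ?_, hq⟩
    have h4 : Units.map (algebraMap F K : F →* K) q = z.1 * (s⁻¹) ^ 2 := by
      rw [hq, inv_pow, mul_inv_cancel_right]
    rw [h4]
    refine (Sel K ∅).mul_mem hz1 (hMS (hSq ⟨s⁻¹, rfl⟩))
  choose q s hqS hqs using h3
  have h5 := index_le (H := Sq K) (L := M)
    (β := Sel F S ⧸ (Sq F).subgroupOf (Sel F S))
    (fun z => QuotientGroup.mk (⟨q z, hqS z⟩ : Sel F S)) (by
      intro x y hxy
      have h2 := QuotientGroup.eq.1 hxy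
      rw [Subgroup.mem_subgroupOf] at h2
      obtain ⟨c, hc⟩ := h2
      have hc' : c ^ 2 = (q x)⁻¹ * q y := hc
      refine ⟨Units.map (algebraMap F K : F →* K) c * ((s x)⁻¹ * s y), ?_⟩
      rw [hqs x, hqs y, powMonoidHom_apply, mul_pow, ← map_pow, hc', map_mul, map_inv, mul_inv,
        mul_pow, inv_pow]
      simp only [mul_comm, mul_left_comm, mul_assoc])
  have e1 : (Sq K).relIndex (Sel K ∅) = (Sq K).relIndex M * M.relIndex (Sel K ∅) :=
    (Subgroup.relIndex_mul_relIndex _ _ _ hSq hMS).symm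
  rw [e1, mul_comm]
  exact Nat.mul_le_mul h1.2 h5.2

/-- one quadratic step -/
theorem c2_step (F K : Type) [Field F] [NumberField F] [Field K] [NumberField K]
    [Algebra F K] (h : finrank F K = 2) :
    Nat.card {x : ClassGroup (𝓞 K) // x ^ 2 = 1} ≤
      Nat.card {x : ClassGroup (𝓞 F) // x ^ 2 = 1} ^ 2 *
        2 ^ (finrank ℚ F * (2 + (discr K).natAbs.primeFactors.card)) := by
  obtain ⟨S, hS1, hS2⟩ := primes_above_aux F (discr K) (NumberField.discr_ne_zero K)
  have h1 := c2_cl_le K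
  have h2 := c2_index F K h S hS2
  have h3 := (relIndex_Sel F ∅).2
  have h4 := (relIndex_Sel F S).2
  refine (h1.trans h2).trans ((Nat.mul_le_mul h3 h4).trans ?_)
  rw [Finset.card_empty]
  have h5 : 2 ^ (finrank ℚ F + 0) * 2 ^ (finrank ℚ F + S.card) ≤
      2 ^ (finrank ℚ F * (2 + (discr K).natAbs.primeFactors.card)) := by
    rw [← pow_add]
    apply Nat.pow_le_pow_right (by norm_num)
    linarith
  calc _ = Nat.card {x : ClassGroup (𝓞 F) // x ^ 2 = 1} ^ 2 *
        (2 ^ (finrank ℚ F + 0) * 2 ^ (finrank ℚ F + S.card)) := by ring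
    _ ≤ _ := Nat.mul_le_mul le_rfl h5

/-- the rational field has one class -/
theorem c2_rat : Nat.card {x : ClassGroup (𝓞 ℚ) // x ^ 2 = 1} = 1 := by
  have h1 : Fintype.card (ClassGroup (𝓞 ℚ)) = 1 := Rat.classNumber_eq
  have h2 : Subsingleton (ClassGroup (𝓞 ℚ)) := by
    rw [← Fintype.card_le_one_iff_subsingleton]
    exact h1.le
  rw [Nat.card_eq_one_iff_unique]
  exact ⟨inferInstance, ⟨⟨1, one_pow 2⟩⟩⟩

/-- quadratic fields: at most two to the power two plus the number of ramified primes -/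
theorem c2_quadratic (F : Type) [Field F] [NumberField F] (h : finrank ℚ F = 2) :
    Nat.card {x : ClassGroup (𝓞 F) // x ^ 2 = 1} ≤
      2 ^ (2 + (discr F).natAbs.primeFactors.card) := by
  have h1 := c2_step ℚ F h
  rwa [c2_rat, Module.finrank_self, one_pow, one_mul, one_mul] at h1

/-- quartic fields with a quadratic subfield -/
theorem c2_quartic (K : Type) [Field K] [NumberField K] (F : IntermediateField ℚ K)
    (hK : finrank ℚ K = 4) (hF : finrank ℚ F = 2) :
    Nat.card {x : ClassGroup (𝓞 K) // x ^ 2 = 1} ≤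
      2 ^ (8 + 4 * (discr K).natAbs.primeFactors.card) := by
  have h0 : finrank F K = 2 := by
    have h := Module.finrank_mul_finrank ℚ F K
    rw [hK, hF] at h
    omega
  have h1 := c2_step F K h0
  have h2 := c2_quadratic F hF
  have h3 : (discr F).natAbs.primeFactors.card ≤ (discr K).natAbs.primeFactors.card := by
    apply Finset.card_le_card
    apply Nat.primeFactors_mono
    · exact Int.natAbs_dvd_natAbs.2 (NumberField.discr_dvd_discr F K)
    · exact Int.natAbs_ne_zero.2 (NumberField.discr_ne_zero K)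
  rw [hF] at h1
  refine h1.trans ?_
  calc _ ≤ (2 ^ (2 + (discr F).natAbs.primeFactors.card)) ^ 2 *
        2 ^ (2 * (2 + (discr K).natAbs.primeFactors.card)) :=
        Nat.mul_le_mul (Nat.pow_le_pow_left h2 2) le_rfl
    _ = 2 ^ (2 * (2 + (discr F).natAbs.primeFactors.card) +
        2 * (2 + (discr K).natAbs.primeFactors.card)) := by
        rw [← pow_mul, ← pow_add, mul_comm (2 + (discr F).natAbs.primeFactors.card) 2]
    _ ≤ _ := Nat.pow_le_pow_right (by norm_num) (by omega)

/-- CASE II: a quartic field with a quadratic subfield has at most `C D^ε` classes of order two -/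
theorem case_two (ε : ℝ) (hε : 0 < ε) : ∃ C : ℝ, 0 < C ∧
    ∀ (K : Type) [Field K] [NumberField K] (F : IntermediateField ℚ K),
      finrank ℚ K = 4 → finrank ℚ F = 2 →
      (Nat.card {x : ClassGroup (𝓞 K) // x ^ 2 = 1} : ℝ) ≤
        C * |(discr K : ℝ)| ^ ε := by
  obtain ⟨C, hC, h⟩ := exp_omega_le (4 * Real.log 2) hε
  refine ⟨2 ^ 8 * C, by positivity, ?_⟩
  intro K _ _ F hK hF
  have h1 := c2_quartic K F hK hF
  have h2 := h (discr K).natAbs (Int.natAbs_ne_zero.2 (NumberField.discr_ne_zero K))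
  have h3 : (((discr K).natAbs : ℕ) : ℝ) = |(discr K : ℝ)| := by
    rw [Nat.cast_natAbs, Int.cast_abs]
  rw [h3] at h2
  set w : ℕ := (discr K).natAbs.primeFactors.card with hw
  have h4 : (2 : ℝ) ^ (8 + 4 * w) = 2 ^ 8 * Real.exp (4 * Real.log 2 * (w : ℝ)) := by
    have h5 : 4 * Real.log 2 * (w : ℝ) = Real.log 2 * ((4 * w : ℕ) : ℝ) := by
      push_cast
      ring
    rw [h5, ← Real.rpow_def_of_pos (by norm_num : (0 : ℝ) < 2), Real.rpow_natCast, pow_add]
  calc (Nat.card {x : ClassGroup (𝓞 K) // x ^ 2 = 1} : ℝ) ≤ (2 : ℝ) ^ (8 + 4 * w) := by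
        exact_mod_cast h1
    _ = 2 ^ 8 * Real.exp (4 * Real.log 2 * (w : ℝ)) := h4
    _ ≤ 2 ^ 8 * (C * |(discr K : ℝ)| ^ ε) := mul_le_mul_of_nonneg_left h2 (by positivity)
    _ = _ := by ring

end Pool.TT.Quartic
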