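import Pool.Agent.Lib.MP_695920_nt.TT.Selmer
import Pool.Agent.Lib.MP_695920_nt.TT.Even.ECl2

set_option autoImplicit false

/-!
TEAM QUARTIC, (v): the count of the positive classes of `K` by the classes of order two of `R`,
given a map `A` with values in a Selmer group of `R` and with fibres in `ℚˣ (Kˣ)²`.
-/

open NumberField Module IsDedekindDomain nonZeroDivisors

namespace Pool.TT.Quartic

/-- at an unramified prime, `p` is not divisible by the square of a prime ideal -/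
theorem sq_not_dvd {K : Type} [Field K] [NumberField K] {p : ℕ} (hp : p.Prime)
    (hD : ¬ (p : ℤ) ∣ discr K) (P : Ideal (𝓞 K)) [P.IsPrime] (hP : (p : 𝓞 K) ∈ P) :
    ¬ P ^ 2 ∣ Ideal.span {(p : 𝓞 K)} := by
  have hpZ : Prime (p : ℤ) := Nat.prime_iff_prime_int.mp hp
  have hPZ : ((p : ℤ) : 𝓞 K) ∈ P := by exact_mod_cast hP
  have h1 := (not_dvd_discr_iff_forall_mem K (𝓞 K) hpZ).mp hD P inferInstance hPZ
  have hne : P ≠ ⊥ := by
    rintro rfl
    rw [Ideal.mem_bot, Nat.cast_eq_zero] at hP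
    exact hp.ne_zero hP
  have hlo : P.LiesOver (Ideal.span {(p : ℤ)}) :=
    (Ideal.liesOver_span_iff (Ideal.IsPrime.ne_top ‹_›) hpZ).mpr hPZ
  have h2 : P.ramificationIdx ℤ = 1 := Ideal.ramificationIdx_eq_one P ℤ
  have hp0 : Ideal.span {(p : ℤ)} ≠ ⊥ := by
    rw [Ne, Ideal.span_singleton_eq_bot]
    exact hpZ.ne_zero
  have h3 := Ideal.ramificationIdx'_eq_ramificationIdx (Ideal.span {(p : ℤ)}) P hp0
  rw [h2] at h3
  have hmap : Ideal.map (algebraMap ℤ (𝓞 K)) (Ideal.span {(p : ℤ)}) = Ideal.span {(p : 𝓞 K)} := by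
    rw [Ideal.map_span, Set.image_singleton]
    simp
  have h4 := Ideal.ramificationIdx'_ne_one_iff (p := Ideal.span {(p : ℤ)}) (P := P) (by
      rw [hmap, Ideal.span_singleton_le_iff_mem]
      exact hP)
  intro h5
  rw [Ideal.dvd_iff_le, ← hmap] at h5
  exact h4.mpr h5 h3

/-- a square-free positive integer which is the square of an ideal has only ramified primes -/
theorem ramified_of_sq {K : Type} [Field K] [NumberField K] {a : ℕ} (ha : Squarefree a)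
    {M : Ideal (𝓞 K)} (hM : Ideal.span {(a : 𝓞 K)} = M ^ 2) {p : ℕ} (hp : p.Prime) (hpa : p ∣ a) :
    (p : ℤ) ∣ discr K := by
  by_contra hD
  obtain ⟨a', rfl⟩ := hpa
  have hcop : p.Coprime a' := Nat.coprime_of_squarefree_mul ha
  -- a prime above `p`
  have hne : Ideal.span {(p : 𝓞 K)} ≠ ⊤ := by
    intro h
    rw [Ideal.span_singleton_eq_top] at h
    have h1 := h.map (Algebra.norm ℤ : 𝓞 K →* ℤ)
    have h2 : (p : 𝓞 K) = algebraMap ℤ (𝓞 K) (p : ℤ) := by simp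
    rw [h2, Algebra.norm_algebraMap] at h1
    have h3 : finrank ℤ (𝓞 K) ≠ 0 := by
      rw [RingOfIntegers.rank]
      exact finrank_pos.ne'
    exact (Nat.prime_iff_prime_int.mp hp).not_isUnit ((isUnit_pow_iff h3).mp h1)
  obtain ⟨P, hPm, hP⟩ := Ideal.exists_le_maximal _ hne
  have hPp := hPm.isPrime
  have hpP : (p : 𝓞 K) ∈ P := hP (Ideal.mem_span_singleton_self _)
  have hP0 : P ≠ ⊥ := by
    rintro rfl
    rw [Ideal.mem_bot, Nat.cast_eq_zero] at hpP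
    exact hp.ne_zero hpP
  have hPr : Prime P := Ideal.prime_of_isPrime hP0 hPp
  apply sq_not_dvd hp hD P hpP
  have h1 : P ∣ M ^ 2 := by
    rw [← hM, Ideal.dvd_span_singleton, Nat.cast_mul]
    exact Ideal.mul_mem_right _ _ hpP
  have h2 : P ^ 2 ∣ M ^ 2 := pow_dvd_pow_of_dvd (hPr.dvd_of_dvd_pow h1) 2
  rw [← hM, Nat.cast_mul, ← Ideal.span_singleton_mul_span_singleton] at h2
  refine hPr.pow_dvd_of_dvd_mul_right 2 ?_ h2
  rw [Ideal.dvd_span_singleton]
  intro h3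
  apply hPp.ne_top
  rw [Ideal.eq_top_iff_one]
  have h4 := (Nat.isCoprime_iff_coprime).mpr hcop
  obtain ⟨x, y, hxy⟩ := h4
  have h5 : (x : 𝓞 K) * (p : 𝓞 K) + (y : 𝓞 K) * (a' : 𝓞 K) = 1 := by exact_mod_cast congrArg (fun z : ℤ => (z : 𝓞 K)) hxy
  rw [← h5]
  exact P.add_mem (Ideal.mul_mem_left _ _ hpP) (Ideal.mul_mem_left _ _ h3)

/-- a rational number up to squares -/
theorem exists_sqfree {q : ℚ} (hq : q ≠ 0) :
    ∃ (a : ℕ) (e : ℤ) (r : ℚ), Squarefree a ∧ (e = 1 ∨ e = -1) ∧ r ≠ 0 ∧ q = e * a * r ^ 2 := by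
  have hN : q.num * q.den ≠ 0 := mul_ne_zero (Rat.num_ne_zero.mpr hq) (by exact_mod_cast q.den_ne_zero)
  obtain ⟨a, b, hab, ha⟩ := Nat.sq_mul_squarefree (q.num * q.den).natAbs
  have hd : (q.den : ℚ) ≠ 0 := by exact_mod_cast q.den_ne_zero
  have hb : (b : ℚ) ≠ 0 := by
    intro h
    have hb0 : b = 0 := by exact_mod_cast h
    rw [hb0, zero_pow two_ne_zero, zero_mul] at hab
    exact hN (Int.natAbs_eq_zero.mp hab.symm)
  have hq1 : q * (q.den : ℚ) = q.num := Rat.mul_den_eq_num q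
  have hab' : ((b : ℚ) ^ 2 * a) = (((q.num * q.den).natAbs : ℕ) : ℚ) := by
    rw [← hab]
    push_cast
    ring
  rcases Int.natAbs_eq (q.num * q.den) with h | h
  · refine ⟨a, 1, b / q.den, ha, Or.inl rfl, div_ne_zero hb hd, ?_⟩
    have h1 := congrArg (Int.cast : ℤ → ℚ) h
    rw [Int.cast_natCast] at h1
    rw [← hab'] at h1
    push_cast at h1
    rw [← hq1] at h1
    field_simp
    push_cast
    linear_combination h1
  · refine ⟨a, -1, b / q.den, ha, Or.inr rfl, div_ne_zero hb hd, ?_⟩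
    have h1 := congrArg (Int.cast : ℤ → ℚ) h
    rw [Int.cast_neg, Int.cast_natCast] at h1
    rw [← hab'] at h1
    push_cast at h1
    rw [← hq1] at h1
    field_simp
    push_cast
    linear_combination h1

theorem int_of_sq {K : Type} [Field K] [NumberField K] {t : K} {x : 𝓞 K} (h : t ^ 2 = x) :
    ∃ t' : 𝓞 K, (t' : K) = t := by
  have h1 : IsIntegral ℤ (t ^ 2) := by
    rw [h]
    exact RingOfIntegers.isIntegral_coe x
  exact ⟨⟨t, (h1.of_pow (by norm_num : 0 < 2))⟩, rfl⟩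

/-- two classes in the same fibre -/
theorem fibre_data {K : Type} [Field K] [NumberField K] {I J : (Ideal (𝓞 K))⁰} {b b' : 𝓞 K}
    (hI : (I : Ideal (𝓞 K)) ^ 2 = Ideal.span {b}) (hJ : (J : Ideal (𝓞 K)) ^ 2 = Ideal.span {b'})
    {t : K} {q : ℚ} (ht : t ≠ 0) (hq : q ≠ 0) (h : t ^ 2 = q * ((b : K) * (b' : K))) :
    ∃ (a : ℕ) (e : ℤ) (s : 𝓞 K), Squarefree a ∧ (∀ p : ℕ, p.Prime → p ∣ a → (p : ℤ) ∣ discr K) ∧
      (e = 1 ∨ e = -1) ∧ s ≠ 0 ∧ s ^ 2 = e * a * (b * b') := by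
  obtain ⟨a, e, r, ha, he, hr, hqa⟩ := exists_sqfree hq
  have hrK : (r : K) ≠ 0 := by exact_mod_cast hr
  have h1 : (t / r) ^ 2 = ((e * a * (b * b') : 𝓞 K) : K) := by
    have h2 : (q : K) = (e : K) * a * (r : K) ^ 2 := by
      rw [hqa]
      push_cast
      ring
    rw [div_pow, h, h2]
    rcases he with rfl | rfl <;> push_cast <;> field_simp
  obtain ⟨s, hs⟩ := int_of_sq h1
  have hs2 : s ^ 2 = e * a * (b * b') := by
    rw [← hs] at h1
    exact_mod_cast h1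
  have hs0 : s ≠ 0 := by
    rintro rfl
    exact div_ne_zero ht hrK (by rw [← hs]; exact map_zero (algebraMap (𝓞 K) K))
  have heu : IsUnit (e : 𝓞 K) := by
    rcases he with rfl | rfl <;> simp
  have hid : Ideal.span {s} ^ 2 = Ideal.span {(a : 𝓞 K)} * ((I : Ideal (𝓞 K)) * J) ^ 2 := by
    rw [mul_pow, hI, hJ, Ideal.span_singleton_pow, hs2, Ideal.span_singleton_mul_span_singleton,
      Ideal.span_singleton_mul_span_singleton, mul_assoc,
      Ideal.span_singleton_mul_left_unit heu]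
  have hdvd : (I : Ideal (𝓞 K)) * J ∣ Ideal.span {s} := by
    have : ((I : Ideal (𝓞 K)) * J) ^ 2 ∣ Ideal.span {s} ^ 2 := by
      rw [hid]
      exact dvd_mul_left _ _
    exact (UniqueFactorizationMonoid.pow_dvd_pow_iff_dvd two_ne_zero).mp this
  obtain ⟨M, hM⟩ := hdvd
  have hIJ : ((I : Ideal (𝓞 K)) * J) ≠ 0 :=
    mul_ne_zero (nonZeroDivisors.ne_zero I.2) (nonZeroDivisors.ne_zero J.2)
  have hMa : Ideal.span {(a : 𝓞 K)} = M ^ 2 := by
    rw [hM, mul_pow, mul_comm] at hid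
    exact (mul_right_cancel₀ (pow_ne_zero 2 hIJ) hid).symm
  exact ⟨a, e, s, ha, fun p hp hpa => ramified_of_sq ha hMa hp hpa, he, hs0, hs2⟩

/-- the squares of ideals -/
theorem class_eq_of_data {K : Type} [Field K] [NumberField K] {I J : (Ideal (𝓞 K))⁰}
    {b b' b₀ : 𝓞 K}
    (hI : (I : Ideal (𝓞 K)) ^ 2 = Ideal.span {b}) (hJ : (J : Ideal (𝓞 K)) ^ 2 = Ideal.span {b'})
    (hb₀ : b₀ ≠ 0) {a : ℕ} (ha : a ≠ 0) {e e' : ℤ} (he : e = 1 ∨ e = -1) (he' : e' = 1 ∨ e' = -1)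
    {s s' : 𝓞 K} (hs : s ^ 2 = e * a * (b * b₀)) (hs' : s' ^ 2 = e' * a * (b' * b₀)) :
    ClassGroup.mk0 I = ClassGroup.mk0 J := by
  have haK : ((a : 𝓞 K) : K) ≠ 0 := by
    have : (a : 𝓞 K) ≠ 0 := by exact_mod_cast ha
    exact_mod_cast this
  have hbK : (b₀ : K) ≠ 0 := by exact_mod_cast hb₀
  have h1 : ((s * s' : 𝓞 K) / ((a : 𝓞 K) * b₀ : K)) ^ 2 = ((e * e' * (b * b') : 𝓞 K) : K) := by
    rw [div_pow]
    rw [div_eq_iff (pow_ne_zero 2 (mul_ne_zero haK hbK))]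
    have h2 : ((s * s' : 𝓞 K) : K) ^ 2 = ((s ^ 2 * s' ^ 2 : 𝓞 K) : K) := by
      push_cast
      ring
    rw [h2, hs, hs']
    push_cast
    ring
  obtain ⟨r, hr⟩ := int_of_sq h1
  rw [← hr] at h1
  have h3 : r ^ 2 = e * e' * (b * b') := by exact_mod_cast h1
  have heu : IsUnit ((e : 𝓞 K) * (e' : 𝓞 K)) := by
    rcases he with rfl | rfl <;> rcases he' with rfl | rfl <;> simp
  have h4 : Ideal.span {r} ^ 2 = ((I : Ideal (𝓞 K)) * J) ^ 2 := by
    rw [mul_pow, hI, hJ, Ideal.span_singleton_pow, h3, Ideal.span_singleton_mul_span_singleton,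
      Ideal.span_singleton_mul_left_unit heu]
  have h5 := ideal_eq_of_sq_eq h4
  have h6 : ClassGroup.mk0 (I * J) = 1 := by
    have hmem : (I : Ideal (𝓞 K)) * J ∈ (Ideal (𝓞 K))⁰ := mul_mem I.2 J.2
    have h7 : (⟨(I : Ideal (𝓞 K)) * J, hmem⟩ : (Ideal (𝓞 K))⁰) = I * J := rfl
    rw [← h7, ClassGroup.mk0_eq_one_iff hmem, ← h5]
    exact ⟨⟨r, rfl⟩⟩
  have h8 : ClassGroup.mk0 J ^ 2 = 1 := by
    have hmem : (J : Ideal (𝓞 K)) ^ 2 ∈ (Ideal (𝓞 K))⁰ := pow_mem J.2 2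
    have h7 : (⟨(J : Ideal (𝓞 K)) ^ 2, hmem⟩ : (Ideal (𝓞 K))⁰) = J ^ 2 := rfl
    rw [← map_pow, ← h7, ClassGroup.mk0_eq_one_iff hmem, hJ]
    exact ⟨⟨b', rfl⟩⟩
  rw [map_mul] at h6
  rw [sq] at h8
  exact mul_right_cancel (h6.trans h8.symm)

/-- a positive class has a generator of square norm -/
theorem posClass_data {K : Type} [Field K] [NumberField K] {c : ClassGroup (𝓞 K)}
    (h : PosClass K c) : ∃ (I : (Ideal (𝓞 K))⁰) (b : 𝓞 K) (y : ℤ), ClassGroup.mk0 I = c ∧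
      (I : Ideal (𝓞 K)) ^ 2 = Ideal.span {b} ∧ b ≠ 0 ∧ 0 < y ∧ Algebra.norm ℤ b = y ^ 2 := by
  obtain ⟨I, b, hc, hb0, hI, -, y, hy, hyb⟩ := h.exists_box
  exact ⟨I, b, y, hc, hI, hb0, hy, hyb.symm⟩

open Sel in
/-- (v): the count of positive classes -/
theorem card_posClass_le {K R : Type} [Field K] [NumberField K] [Field R] [NumberField R]
    (A : K → ℚ → R) (S : Finset (HeightOneSpectrum (𝓞 R)))
    (h0 : ∀ (b : K) (m : ℚ), b ≠ 0 → 0 < m → Algebra.norm ℚ b = m ^ 2 → A b m ≠ 0)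
    (hev : ∀ (b : 𝓞 K) (I : (Ideal (𝓞 K))⁰) (m : ℤ), b ≠ 0 →
      (I : Ideal (𝓞 K)) ^ 2 = Ideal.span {b} → 0 < m → Algebra.norm ℤ b = m ^ 2 →
      ∀ v : HeightOneSpectrum (𝓞 R), v ∉ S → IsSquare (v.valuation R (A b m)))
    (hfib : ∀ (b b' : K) (m m' : ℚ), b ≠ 0 → b' ≠ 0 → 0 < m → 0 < m' →
      Algebra.norm ℚ b = m ^ 2 → Algebra.norm ℚ b' = m' ^ 2 → IsSquare (A b m * A b' m') →
      ∃ (t : K) (q : ℚ), t ≠ 0 ∧ q ≠ 0 ∧ t ^ 2 = q * (b * b')) :
    Nat.card {c : ClassGroup (𝓞 K) // PosClass K c} ≤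
      (Nat.card {x : ClassGroup (𝓞 R) // x ^ 2 = 1} * 2 ^ (finrank ℚ R + S.card)) *
        2 ^ (discr K).natAbs.primeFactors.card := by
  classical
  choose I b y hc hI hb0 hy hN using
    fun c : {c : ClassGroup (𝓞 K) // PosClass K c} => posClass_data c.2
  have hbK : ∀ c, ((b c : 𝓞 K) : K) ≠ 0 := fun c => by exact_mod_cast hb0 c
  have hyQ : ∀ c, (0 : ℚ) < (y c : ℚ) := fun c => by exact_mod_cast hy c
  have hNQ : ∀ c, Algebra.norm ℚ ((b c : 𝓞 K) : K) = (y c : ℚ) ^ 2 := fun c => by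
    rw [← Algebra.coe_norm_int, hN c]
    push_cast
    rfl
  have hA0 : ∀ c, A (b c) (y c) ≠ 0 := fun c => h0 _ _ (hbK c) (hyQ c) (hNQ c)
  let α : {c : ClassGroup (𝓞 K) // PosClass K c} → Rˣ := fun c => Units.mk0 _ (hA0 c)
  have hmem : ∀ c, α c ∈ Sel R S := by
    intro c v hv
    obtain ⟨x, hx⟩ := hev (b c) (I c) (y c) (hb0 c) (hI c) (hy c) (hN c) v hv
    have hx' : v.valuation R ((α c : Rˣ) : R) = x * x := hx
    rw [← v.valuationOfNeZero_eq (K := R) (α c)] at hx'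
    have hx0 : x ≠ 0 := by
      rintro rfl
      rw [mul_zero] at hx'
      exact WithZero.coe_ne_zero hx'
    obtain ⟨w, rfl⟩ := WithZero.ne_zero_iff_exists.1 hx0
    rw [← WithZero.coe_mul, WithZero.coe_inj] at hx'
    rw [hx', toAdd_mul]
    exact ⟨Multiplicative.toAdd w, by ring⟩
  obtain ⟨hr0, hr1⟩ := relIndex_Sel R S
  have hfin : Finite (Sel R S ⧸ (Sq R).subgroupOf (Sel R S)) := by
    rw [Subgroup.relIndex, Subgroup.index] at hr0
    exact Nat.finite_of_card_ne_zero hr0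
  let f : {c : ClassGroup (𝓞 K) // PosClass K c} → Sel R S ⧸ (Sq R).subgroupOf (Sel R S) :=
    fun c => QuotientGroup.mk (⟨α c, hmem c⟩ : Sel R S)
  have hf : ∀ c c', f c = f c' → IsSquare (A (b c) (y c) * A (b c') (y c')) := by
    intro c c' hcc
    have h2 := QuotientGroup.eq.1 hcc
    rw [Subgroup.mem_subgroupOf] at h2
    obtain ⟨z, hz⟩ := h2
    have h3 : z ^ 2 = (α c)⁻¹ * α c' := hz
    have h4 : α c * α c' = (z * α c) * (z * α c) := by
      calc α c * α c' = ((α c)⁻¹ * α c') * (α c) ^ 2 := by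
            rw [pow_two, mul_comm (α c)⁻¹ (α c'), mul_assoc, inv_mul_cancel_left, mul_comm]
        _ = z ^ 2 * (α c) ^ 2 := by rw [h3]
        _ = _ := by rw [← mul_pow, pow_two]
    exact ⟨((z * α c : Rˣ) : R), congrArg Units.val h4⟩
  by_cases hne : Nonempty {c : ClassGroup (𝓞 K) // PosClass K c}
  swap
  · rw [not_nonempty_iff] at hne
    rw [Nat.card_of_isEmpty]
    exact Nat.zero_le _
  let rep := Function.invFun f
  have hrep : ∀ c, f c = f (rep (f c)) := fun c => (Function.invFun_eq ⟨c, rfl⟩).symm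
  have hdat : ∀ c : {c : ClassGroup (𝓞 K) // PosClass K c}, ∃ (a : ℕ) (e : ℤ) (s : 𝓞 K),
      Squarefree a ∧ (∀ p : ℕ, p.Prime → p ∣ a → (p : ℤ) ∣ discr K) ∧
      (e = 1 ∨ e = -1) ∧ s ≠ 0 ∧ s ^ 2 = e * a * (b c * b (rep (f c))) := by
    intro c
    obtain ⟨t, q, ht, hq, htq⟩ := hfib (b c) (b (rep (f c))) (y c) (y (rep (f c))) (hbK _) (hbK _)
      (hyQ _) (hyQ _) (hNQ _) (hNQ _) (hf _ _ (hrep c))
    exact fibre_data (hI c) (hI _) ht hq htq
  choose a e s hsf hram he hs0 hs using hdat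
  have hsub : ∀ c, (a c).primeFactors ∈ (discr K).natAbs.primeFactors.powerset := by
    intro c
    rw [Finset.mem_powerset]
    intro p hp
    rw [Nat.mem_primeFactors] at hp ⊢
    exact ⟨hp.1, Int.natCast_dvd.mp (hram c p hp.1 hp.2.1),
      Int.natAbs_ne_zero.mpr (discr_ne_zero K)⟩
  let g : {c : ClassGroup (𝓞 K) // PosClass K c} →
      (Sel R S ⧸ (Sq R).subgroupOf (Sel R S)) × (discr K).natAbs.primeFactors.powerset :=
    fun c => (f c, ⟨_, hsub c⟩)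
  have hg : Function.Injective g := by
    intro c c' hcc
    have h1 : f c = f c' := congrArg Prod.fst hcc
    have h2 : (a c).primeFactors = (a c').primeFactors := by
      have := congrArg Prod.snd hcc
      exact congrArg Subtype.val this
    have h3 : a c = a c' := by
      rw [← Nat.prod_primeFactors_of_squarefree (hsf c),
        ← Nat.prod_primeFactors_of_squarefree (hsf c'), h2]
    have h4 := hs c
    have h5 := hs c'
    rw [← h3, ← h1] at h5
    have h6 := class_eq_of_data (hI c) (hI c') (hb0 _) (hsf c).ne_zero (he c) (he c') h4 h5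
    rw [hc, hc] at h6
    exact Subtype.ext h6
  have h7 := Nat.card_le_card_of_injective g hg
  rw [Nat.card_prod] at h7
  refine h7.trans (Nat.mul_le_mul hr1 ?_)
  rw [Nat.card_eq_fintype_card, Fintype.card_coe, Finset.card_powerset]

end Pool.TT.Quartic
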