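import Pool.Agent.Lib.MP_695920_nt.TT.Quartic.QDescend

/-!
The fibre of the map from the Selmer group of a quartic field to the one of its cubic resolvent.
`c i = i b`, `c' i = i b'` for the four embeddings `i`, `c i * c j * c k * c l = m ^ 2`,
`A i j = c i * c j + c k * c l + 2 m` (`k, l` the two other embeddings).
If `A i j * A' i j = ρ i j ^ 2` with `ρ` equivariant on the three pairings, then `b * b'` is a
rational number times a square.
-/

namespace Pool.TT.Quartic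

section algebra

variable {ι L : Type} [Field L]

/-- `sqrt (B i * B j)` -/
def qU (c c' : ι → L) (m m' : L) (ρ : ι → ι → L) (i j : ι) : L :=
  (c i * c j + m) * (c' i * c' j + m') / ρ i j

variable {c c' : ι → L} {m m' : L} {ρ : ι → ι → L}

theorem qU_symm (hs : ∀ i j, ρ i j = ρ j i) (i j : ι) :
    qU c c' m m' ρ i j = qU c c' m m' ρ j i := by
  unfold qU
  rw [hs i j, mul_comm (c i), mul_comm (c' i)]

theorem qU_sq {i j k l : ι} (h : c i * c j * (c k * c l) = m ^ 2)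
    (h' : c' i * c' j * (c' k * c' l) = m' ^ 2)
    (hρ : ρ i j ^ 2 = (c i * c j + c k * c l + 2 * m) * (c' i * c' j + c' k * c' l + 2 * m'))
    (h0 : ρ i j ≠ 0) : qU c c' m m' ρ i j ^ 2 = c i * c' i * (c j * c' j) := by
  unfold qU
  rw [div_pow, div_eq_iff (pow_ne_zero 2 h0), hρ]
  have e1 : (c i * c j + m) ^ 2 = c i * c j * (c i * c j + c k * c l + 2 * m) := by
    linear_combination -h
  have e2 : (c' i * c' j + m') ^ 2 = c' i * c' j * (c' i * c' j + c' k * c' l + 2 * m') := by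
    linear_combination -h'
  rw [mul_pow, e1, e2]
  ring

theorem qU_mul {i j k l : ι} (h : c i * c j * (c k * c l) = m ^ 2)
    (h' : c' i * c' j * (c' k * c' l) = m' ^ 2) (hkl : ρ k l = ρ i j)
    (hρ : ρ i j ^ 2 = (c i * c j + c k * c l + 2 * m) * (c' i * c' j + c' k * c' l + 2 * m'))
    (h0 : ρ i j ≠ 0) : qU c c' m m' ρ i j * qU c c' m m' ρ k l = m * m' := by
  unfold qU
  rw [hkl, div_mul_div_comm, div_eq_iff (mul_ne_zero h0 h0), ← sq, hρ]
  have e1 : (c i * c j + m) * (c k * c l + m) = m * (c i * c j + c k * c l + 2 * m) := by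
    linear_combination h
  have e2 : (c' i * c' j + m') * (c' k * c' l + m') =
      m' * (c' i * c' j + c' k * c' l + 2 * m') := by
    linear_combination h'
  linear_combination (c' i * c' j + m') * (c' k * c' l + m') * e1 +
    m * (c i * c j + c k * c l + 2 * m) * e2

/-- the sign -/
theorem sign_aux {U : ι → ι → L} {B : ι → L} {M : L} (hM : M ≠ 0) (hB : ∀ i, B i ≠ 0)
    (hs : ∀ i j, U i j = U j i) {i j k l : ι}
    (hsq : ∀ x y, x ≠ y → U x y ^ 2 = B x * B y)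
    (hij : i ≠ j) (hik : i ≠ k) (hil : i ≠ l) (hjk : j ≠ k) (hjl : j ≠ l)
    (h1 : U i l * U j k = M) (h2 : U i k * U j l = M) (hP : B i * B j * (B k * B l) = M ^ 2) :
    U i j * U i k * U i l / (B i * M) = U j i * U j k * U j l / (B j * M) := by
  rw [div_eq_div_iff (mul_ne_zero (hB i) hM) (mul_ne_zero (hB j) hM), hs j i]
  have g1 := hsq i k hik
  have g2 := hsq i l hil
  have hU1 : U i l ≠ 0 := fun h => hM (by rw [← h1, h, zero_mul])
  have hU2 : U i k ≠ 0 := fun h => hM (by rw [← h2, h, zero_mul])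
  -- multiply by `U i k * U i l`
  apply mul_left_cancel₀ (mul_ne_zero hU1 hU2)
  have e1 : U i l * U i k * (U i j * U i k * U i l * (B j * M)) =
      U i j * (U i k ^ 2 * U i l ^ 2) * (B j * M) := by ring
  have e2 : U i l * U i k * (U i j * U j k * U j l * (B i * M)) =
      U i j * ((U i l * U j k) * (U i k * U j l)) * (B i * M) := by ring
  rw [e1, e2, h1, h2, g1, g2]
  linear_combination U i j * M * B i * hP

end algebra

section four

variable {ι : Type} [Fintype ι] [DecidableEq ι]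

/-- four distinct elements are all elements -/
theorem four_univ (hcard : Fintype.card ι = 4) {i j k l : ι} (h1 : i ≠ j) (h2 : i ≠ k)
    (h3 : i ≠ l) (h4 : j ≠ k) (h5 : j ≠ l) (h6 : k ≠ l) :
    ({i, j, k, l} : Finset ι) = Finset.univ := by
  apply Finset.eq_univ_of_card
  rw [Finset.card_insert_of_notMem, Finset.card_insert_of_notMem,
    Finset.card_insert_of_notMem, Finset.card_singleton, hcard]
  · simp [h6]
  · simp [h4, h5]
  · simp [h1, h2, h3]

theorem four_prod (hcard : Fintype.card ι = 4) {i j k l : ι} (h1 : i ≠ j) (h2 : i ≠ k)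
    (h3 : i ≠ l) (h4 : j ≠ k) (h5 : j ≠ l) (h6 : k ≠ l) {M : Type} [CommMonoid M] (f : ι → M) :
    ∏ x, f x = f i * f j * (f k * f l) := by
  rw [← four_univ hcard h1 h2 h3 h4 h5 h6, Finset.prod_insert, Finset.prod_insert,
    Finset.prod_insert, Finset.prod_singleton]
  · simp only [mul_assoc]
  · simp [h6]
  · simp [h4, h5]
  · simp [h1, h2, h3]

theorem four_erase (hcard : Fintype.card ι = 4) {i j k l : ι} (h1 : i ≠ j) (h2 : i ≠ k)
    (h3 : i ≠ l) (h4 : j ≠ k) (h5 : j ≠ l) (h6 : k ≠ l) {M : Type} [CommMonoid M] (f : ι → M) :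
    ∏ x ∈ Finset.univ.erase i, f x = f j * f k * f l := by
  have e : Finset.univ.erase i = ({j, k, l} : Finset ι) := by
    rw [← four_univ hcard h1 h2 h3 h4 h5 h6, Finset.erase_insert]
    simp [h1, h2, h3]
  rw [e, Finset.prod_insert, Finset.prod_insert, Finset.prod_singleton]
  · simp only [mul_assoc]
  · simp [h6]
  · simp [h4, h5]

/-- the fourth element -/
theorem four_fourth (hcard : Fintype.card ι = 4) (i j k : ι) :
    ∃ l, i ≠ l ∧ j ≠ l ∧ k ≠ l := by
  by_contra hcon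
  push Not at hcon
  have hsub : (Finset.univ : Finset ι) ⊆ {i, j, k} := by
    intro l _
    by_cases e1 : i = l
    · simp [e1]
    · by_cases e2 : j = l
      · simp [e2]
      · simp [hcon l e1 e2]
  have hle := Finset.card_le_card hsub
  have e3 : ({i, j, k} : Finset ι).card ≤ 3 := Finset.card_le_three
  rw [Finset.card_univ, hcard] at hle
  omega

/-- two further elements -/
theorem four_two (hcard : Fintype.card ι = 4) {i j : ι} (h1 : i ≠ j) :
    ∃ k l, i ≠ k ∧ i ≠ l ∧ j ≠ k ∧ j ≠ l ∧ k ≠ l := by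
  obtain ⟨k, h2, h3, -⟩ := four_fourth hcard i j j
  obtain ⟨l, h4, h5, h6⟩ := four_fourth hcard i j k
  exact ⟨k, l, h2, h4, h3, h5, h6⟩

end four

section fibre

variable {K L : Type} [Field K] [Field L] [Algebra ℚ K] [Algebra ℚ L]
  [FiniteDimensional ℚ K] [FiniteDimensional ℚ L] [IsGalois ℚ L]

/-- THE FIBRE -/
theorem fibre_core (hcard : Fintype.card (K →ₐ[ℚ] L) = 4)
    (b b' : K) (hb : b ≠ 0) (hb' : b' ≠ 0) (m m' : ℚ) (hm : m ≠ 0) (hm' : m' ≠ 0)
    (hN : ∏ i : K →ₐ[ℚ] L, i b = algebraMap ℚ L m ^ 2)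
    (hN' : ∏ i : K →ₐ[ℚ] L, i b' = algebraMap ℚ L m' ^ 2)
    (ρ : (K →ₐ[ℚ] L) → (K →ₐ[ℚ] L) → L) (hs : ∀ i j, ρ i j = ρ j i)
    (hc : ∀ i j k l : K →ₐ[ℚ] L, i ≠ j → i ≠ k → i ≠ l → j ≠ k → j ≠ l → k ≠ l →
      ρ i j = ρ k l)
    (hg : ∀ (g : L ≃ₐ[ℚ] L) (i j : K →ₐ[ℚ] L), i ≠ j →
      g (ρ i j) = ρ ((g : L →ₐ[ℚ] L).comp i) ((g : L →ₐ[ℚ] L).comp j))
    (h0 : ∀ i j : K →ₐ[ℚ] L, i ≠ j → ρ i j ≠ 0)
    (hρ : ∀ i j k l : K →ₐ[ℚ] L, i ≠ j → i ≠ k → i ≠ l → j ≠ k → j ≠ l → k ≠ l →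
      ρ i j ^ 2 = (i b * j b + k b * l b + 2 * algebraMap ℚ L m) *
        (i b' * j b' + k b' * l b' + 2 * algebraMap ℚ L m')) :
    ∃ (t : K) (q : ℚ), t ≠ 0 ∧ q ≠ 0 ∧ t ^ 2 = algebraMap ℚ K q * (b * b') := by
  classical
  set mL : L := algebraMap ℚ L m with hmL
  set mL' : L := algebraMap ℚ L m' with hmL'
  have hmL0 : mL ≠ 0 := by
    rw [hmL]
    exact (map_ne_zero _).2 hm
  have hmL0' : mL' ≠ 0 := by
    rw [hmL']
    exact (map_ne_zero _).2 hm'
  set U : (K →ₐ[ℚ] L) → (K →ₐ[ℚ] L) → L :=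
    qU (fun i => i b) (fun i => i b') mL mL' ρ with hU
  set B : (K →ₐ[ℚ] L) → L := fun i => i b * i b' with hBdef
  have hB : ∀ i, B i ≠ 0 := fun i => mul_ne_zero ((map_ne_zero i).2 hb) ((map_ne_zero i).2 hb')
  set M : L := mL * mL' with hM
  have hM0 : M ≠ 0 := mul_ne_zero hmL0 hmL0'
  -- the norm, for every enumeration
  have hNall : ∀ i j k l : K →ₐ[ℚ] L, i ≠ j → i ≠ k → i ≠ l → j ≠ k → j ≠ l → k ≠ l →
      i b * j b * (k b * l b) = mL ^ 2 ∧ i b' * j b' * (k b' * l b') = mL' ^ 2 := by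
    intro i j k l h1 h2 h3 h4 h5 h6
    rw [← hN, ← hN', four_prod hcard h1 h2 h3 h4 h5 h6 (fun i : K →ₐ[ℚ] L => i b),
      four_prod hcard h1 h2 h3 h4 h5 h6 (fun i : K →ₐ[ℚ] L => i b')]
    exact ⟨rfl, rfl⟩
  have hUs : ∀ i j, U i j = U j i := qU_symm hs
  have hUsq : ∀ i j, i ≠ j → U i j ^ 2 = B i * B j := by
    intro i j h1
    obtain ⟨k, l, h2, h3, h4, h5, h6⟩ := four_two hcard h1
    have hn := hNall i j k l h1 h2 h3 h4 h5 h6
    exact qU_sq (c := fun i : K →ₐ[ℚ] L => i b) (c' := fun i : K →ₐ[ℚ] L => i b') hn.1 hn.2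
      (hρ i j k l h1 h2 h3 h4 h5 h6) (h0 i j h1)
  have hUM : ∀ i j k l, i ≠ j → i ≠ k → i ≠ l → j ≠ k → j ≠ l → k ≠ l →
      U i j * U k l = M := by
    intro i j k l h1 h2 h3 h4 h5 h6
    have hn := hNall i j k l h1 h2 h3 h4 h5 h6
    exact qU_mul (c := fun i : K →ₐ[ℚ] L => i b) (c' := fun i : K →ₐ[ℚ] L => i b') hn.1 hn.2
      (hc i j k l h1 h2 h3 h4 h5 h6).symm (hρ i j k l h1 h2 h3 h4 h5 h6) (h0 i j h1)
  have hBM : ∀ i j k l, i ≠ j → i ≠ k → i ≠ l → j ≠ k → j ≠ l → k ≠ l →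
      B i * B j * (B k * B l) = M ^ 2 := by
    intro i j k l h1 h2 h3 h4 h5 h6
    have hn := hNall i j k l h1 h2 h3 h4 h5 h6
    rw [hM, mul_pow, ← hn.1, ← hn.2]
    simp only [hBdef]
    ring
  -- the sign
  set H : (K →ₐ[ℚ] L) → L := fun i => (∏ x ∈ Finset.univ.erase i, U i x) / (B i * M) with hH
  have hHe : ∀ i j k l, i ≠ j → i ≠ k → i ≠ l → j ≠ k → j ≠ l → k ≠ l →
      H i = U i j * U i k * U i l / (B i * M) := by
    intro i j k l h1 h2 h3 h4 h5 h6
    simp only [hH]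
    rw [four_erase hcard h1 h2 h3 h4 h5 h6 (fun x => U i x)]
  have hHc : ∀ i j, i ≠ j → H i = H j := by
    intro i j h1
    obtain ⟨k, l, h2, h3, h4, h5, h6⟩ := four_two hcard h1
    rw [hHe i j k l h1 h2 h3 h4 h5 h6, hHe j i k l (Ne.symm h1) h4 h5 h2 h3 h6]
    refine sign_aux hM0 hB hUs hUsq h1 h2 h3 h4 h5 ?_ ?_ (hBM i j k l h1 h2 h3 h4 h5 h6)
    · exact hUM i l j k h3 h1 h2 (Ne.symm h5) (Ne.symm h6) h4
    · exact hUM i k j l h2 h1 h3 (Ne.symm h4) h6 h5
  obtain ⟨i0⟩ : Nonempty (K →ₐ[ℚ] L) := by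
    rw [← Fintype.card_pos_iff, hcard]
    norm_num
  have hHi : ∀ i, H i = H i0 := by
    intro i
    by_cases h : i = i0
    · rw [h]
    · exact hHc i i0 h
  have hH2 : H i0 ^ 2 = 1 := by
    obtain ⟨j, h1, -, -⟩ := four_fourth hcard i0 i0 i0
    obtain ⟨k, l, h2, h3, h4, h5, h6⟩ := four_two hcard h1
    rw [hHe i0 j k l h1 h2 h3 h4 h5 h6, div_pow, div_eq_one_iff_eq
      (pow_ne_zero 2 (mul_ne_zero (hB _) hM0)), mul_pow, mul_pow, hUsq _ _ h1, hUsq _ _ h2,
      hUsq _ _ h3, mul_pow, ← hBM i0 j k l h1 h2 h3 h4 h5 h6]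
    ring
  have hHpm : H i0 = 1 ∨ H i0 = -1 := by
    have h1 : (H i0 - 1) * (H i0 + 1) = 0 := by linear_combination hH2
    rcases mul_eq_zero.1 h1 with h | h
    · exact Or.inl (sub_eq_zero.1 h)
    · exact Or.inr (eq_neg_of_add_eq_zero_left h)
  have hUU : ∀ i j k, i ≠ j → i ≠ k → j ≠ k → U i j * U i k = H i0 * B i * U j k := by
    intro i j k h1 h2 h4
    obtain ⟨l, h3, h5, h6⟩ := four_fourth hcard i j k
    have e1 := hUM i l j k h3 h1 h2 (Ne.symm h5) (Ne.symm h6) h4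
    rw [← hHi i, hHe i j k l h1 h2 h3 h4 h5 h6, div_mul_eq_mul_div, div_mul_eq_mul_div,
      eq_div_iff (mul_ne_zero (hB i) hM0)]
    linear_combination (-(U i j * U i k * B i)) * e1
  have hU0 : ∀ g : L ≃ₐ[ℚ] L, ∀ i j : K →ₐ[ℚ] L, i ≠ j →
      g (U i j) = U ((g : L →ₐ[ℚ] L).comp i) ((g : L →ₐ[ℚ] L).comp j) := by
    intro g i j h1
    simp only [hU, qU]
    rw [map_div₀, hg g i j h1, map_mul, map_add, map_add, map_mul, map_mul, hmL, hmL',
      AlgEquiv.commutes, AlgEquiv.commutes]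
    rfl
  have hginj : ∀ g : L ≃ₐ[ℚ] L, ∀ i j : K →ₐ[ℚ] L,
      (g : L →ₐ[ℚ] L).comp i = (g : L →ₐ[ℚ] L).comp j ↔ i = j := by
    intro g i j
    constructor
    · intro h
      ext y
      have := congrArg (fun f : K →ₐ[ℚ] L => f y) h
      simpa using this
    · rintro rfl
      rfl
  have hgH : ∀ g : L ≃ₐ[ℚ] L, g (H i0) = H i0 := by
    intro g
    rcases hHpm with h | h
    · rw [h, map_one]
    · rw [h, map_neg, map_one]
  refine descend (b * b') (mul_ne_zero hb hb') i0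
    (fun i j => if i = j then B i else H i0 * U i j) ?_ ?_ ?_
  · intro i
    simp [hBdef]
  · intro i j k
    have hBi : i (b * b') = B i := by simp [hBdef]
    rw [hBi]
    by_cases h1 : i = j
    · subst h1
      by_cases h2 : i = k
      · subst h2
        simp
      · simp [h2]
    · by_cases h2 : i = k
      · subst h2
        have h3 : ¬ j = i := fun h => h1 h.symm
        simp only [h1, if_false, if_true, h3]
        rw [hUs i j]
        ring
      · by_cases h4 : j = k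
        · subst h4
          simp only [h1, if_false, if_true]
          have := hUsq i j h1
          linear_combination H i0 ^ 2 * this + B i * B j * hH2
        · simp only [h1, h2, h4, if_false]
          have := hUU i j k h1 h2 h4
          linear_combination H i0 ^ 2 * this + H i0 * B i * U j k * hH2
  · intro g i j
    by_cases h1 : i = j
    · subst h1
      simp [hBdef]
    · have h2 : ¬ (g : L →ₐ[ℚ] L).comp i = (g : L →ₐ[ℚ] L).comp j := by
        rwa [hginj]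
      simp only [h1, h2, if_false]
      rw [map_mul, hgH, hU0 g i j h1]

end fibre

end Pool.TT.Quartic
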