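import Pool.Agent.Lib.MP_695920_nt.TT.Quartic.Even
import Pool.Agent.Lib.MP_695920_nt.TT.Quartic.QFibre

/-! TEAM QUARTIC, (iv): the fibres. -/

set_option autoImplicit false

namespace Pool.TTQ

open Equiv NumberField Module IsDedekindDomain

variable {K L : Type} [Field K] [NumberField K] [Field L] [NumberField L]

/-- the value at the pairing `{a b | c d}` -/
theorem al_pairIdx {A : Type*} [CommRing A] (x : Fin 4 → A) (m : A) {a b c d : Fin 4}
    (h1 : a ≠ b) (h2 : a ≠ c) (h3 : a ≠ d) (h4 : b ≠ c) (h5 : b ≠ d) (h6 : c ≠ d) :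
    al x m (pairIdx a b) = x a * x b + x c * x d + 2 * m := by
  have hinj : Function.Injective (![a, b, c, d] : Fin 4 → Fin 4) := by
    intro i j h
    fin_cases i <;> fin_cases j <;> simp_all
  let π : Perm (Fin 4) :=
    Equiv.ofBijective ![a, b, c, d] (Finite.injective_iff_bijective.1 hinj)
  have h := al_perm x m π 0
  have hp : part π 0 = pairIdx a b := rfl
  rw [hp] at h
  rw [← h]
  rfl

/-- Proof: the square root `r ∈ Res e` has conjugates `ρ_P`, `P` a pairing, `σ ρ_P = ρ_{σ P}`,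
`ρ_P ^ 2 = al b m P * al b' m' P`; `fibre_core`. -/
theorem fibre [IsGalois ℚ L] (e : Fin 4 ≃ (K →ₐ[ℚ] L)) (hK : finrank ℚ K = 4)
    (htr : Trans e) {b b' : K} (hb : b ≠ 0) (hb' : b' ≠ 0) {m m' : ℚ} (hm0 : 0 < m)
    (hm0' : 0 < m') (hm : Algebra.norm ℚ b = m ^ 2) (hm' : Algebra.norm ℚ b' = m' ^ 2)
    (h : IsSquare (alR e b m * alR e b' m')) :
    ∃ (q : ℚ) (k : K), q ≠ 0 ∧ k ≠ 0 ∧ b * b' = algebraMap ℚ K q * k ^ 2 := by
  classical
  have hne := fun P => al_ne_zero e hK htr hm0 hm P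
  have hne' := fun P => al_ne_zero e hK htr hm0' hm' P
  obtain ⟨r, hr⟩ := h
  choose τ hτ using htr
  have hr' : al (cj e b) (algebraMap ℚ L m) 0 * al (cj e b') (algebraMap ℚ L m') 0 =
      (r : L) * r := congrArg (fun x : Res e => (x : L)) hr
  have hfix : ∀ σ ∈ H e, σ (r : L) = r := (mem_Res e _).1 r.2
  have hequiv : ∀ (σ : L ≃ₐ[ℚ] L) (P : Fin 3),
      σ (τ P (r : L)) = τ (part (permHom e σ) P) (r : L) := by
    intro σ P
    have hmem : (τ (part (permHom e σ) P))⁻¹ * (σ * τ P) ∈ H e := by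
      have h1 : part (permHom e (τ (part (permHom e σ) P))⁻¹)
          (part (permHom e (τ (part (permHom e σ) P))) 0) = 0 := by
        rw [← part_mul, ← map_mul, inv_mul_cancel, map_one, part_one]
      rw [hτ] at h1
      rw [mem_H, map_mul, part_mul, map_mul, part_mul, hτ]
      exact h1
    have h1 := hfix _ hmem
    have h2 := congrArg (τ (part (permHom e σ) P)) h1
    rw [← h2]
    simp
  have hsq : ∀ P : Fin 3, (τ P (r : L)) ^ 2 =
      al (cj e b) (algebraMap ℚ L m) P * al (cj e b') (algebraMap ℚ L m') P := by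
    intro P
    rw [sq, ← map_mul, ← hr', map_mul, al_map, al_map, hτ]
  have hcard : Fintype.card (K →ₐ[ℚ] L) = 4 := by
    rw [← Fintype.card_congr e, Fintype.card_fin]
  have hN : ∏ i : K →ₐ[ℚ] L, i b = algebraMap ℚ L m ^ 2 := by
    rw [← Equiv.prod_comp e, ← map_pow, ← hm, ← prod_cj e hK]
    rfl
  have hN' : ∏ i : K →ₐ[ℚ] L, i b' = algebraMap ℚ L m' ^ 2 := by
    rw [← Equiv.prod_comp e, ← map_pow, ← hm', ← prod_cj e hK]
    rfl
  have hsym : ∀ (σ : L ≃ₐ[ℚ] L) (i : K →ₐ[ℚ] L),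
      e.symm ((σ : L →ₐ[ℚ] L).comp i) = permHom e σ (e.symm i) := by
    intro σ i
    rw [Equiv.symm_apply_eq]
    ext x
    rw [permHom_apply, Equiv.apply_symm_apply]
    rfl
  obtain ⟨t, q, ht, hq, htq⟩ := Pool.TT.Quartic.fibre_core hcard b b' hb hb' m m' hm0.ne'
    hm0'.ne' hN hN' (fun i j => τ (pairIdx (e.symm i) (e.symm j)) (r : L))
    (by
      intro i j
      rw [pairIdx_comm (e.symm i) (e.symm j)])
    (by
      intro i j k l h1 h2 h3 h4 h5 h6
      rw [pairIdx_compl (e.symm i) (e.symm j) (e.symm k) (e.symm l)]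
      exact ⟨e.symm.injective.ne h1, e.symm.injective.ne h2, e.symm.injective.ne h3,
        e.symm.injective.ne h4, e.symm.injective.ne h5, e.symm.injective.ne h6⟩)
    (by
      intro g i j hij
      rw [hequiv, part_pairIdx _ _ _ (e.symm.injective.ne hij), hsym, hsym])
    (by
      intro i j hij h0
      have h1 := hsq (pairIdx (e.symm i) (e.symm j))
      rw [h0] at h1
      have h2 : al (cj e b) (algebraMap ℚ L m) (pairIdx (e.symm i) (e.symm j)) *
          al (cj e b') (algebraMap ℚ L m') (pairIdx (e.symm i) (e.symm j)) = 0 := by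
        rw [← h1]
        ring
      exact mul_ne_zero (hne _) (hne' _) h2)
    (by
      intro i j k l h1 h2 h3 h4 h5 h6
      have g1 := e.symm.injective.ne h1
      have g2 := e.symm.injective.ne h2
      have g3 := e.symm.injective.ne h3
      have g4 := e.symm.injective.ne h4
      have g5 := e.symm.injective.ne h5
      have g6 := e.symm.injective.ne h6
      rw [hsq, al_pairIdx _ _ g1 g2 g3 g4 g5 g6, al_pairIdx _ _ g1 g2 g3 g4 g5 g6]
      unfold cj
      simp only [Equiv.apply_symm_apply])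
  refine ⟨q⁻¹, t, inv_ne_zero hq, ht, ?_⟩
  rw [htq, map_inv₀, ← mul_assoc, inv_mul_cancel₀ ((map_ne_zero (algebraMap ℚ K)).2 hq), one_mul]

/-- Proof: `fibre` with `b' = 1`, `m' = 1`, `al 1 1 = 4`. -/
theorem fibre_one [IsGalois ℚ L] (e : Fin 4 ≃ (K →ₐ[ℚ] L)) (hK : finrank ℚ K = 4)
    (htr : Trans e) {b : K} (hb : b ≠ 0) {m : ℚ} (hm0 : 0 < m)
    (hm : Algebra.norm ℚ b = m ^ 2) (h : IsSquare (alR e b m)) :
    ∃ (q : ℚ) (k : K), q ≠ 0 ∧ k ≠ 0 ∧ b = algebraMap ℚ K q * k ^ 2 := by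
  have h1 : alR e (1 : K) 1 = 2 * 2 := by
    apply Subtype.ext
    change al (cj e (1 : K)) (algebraMap ℚ L 1) 0 = ((2 * 2 : Res e) : L)
    have h2 : cj e (1 : K) = fun _ => 1 := by
      funext i
      exact map_one (e i)
    rw [h2]
    unfold al
    rw [map_one]
    have h3 : ((2 * 2 : Res e) : L) = 2 * 2 := rfl
    rw [h3]
    norm_num
  obtain ⟨q, k, hq, hk, hqk⟩ := fibre e hK htr hb one_ne_zero hm0 one_pos hm (by simp)
    (h.mul ⟨2, h1⟩)
  rw [mul_one] at hqk
  exact ⟨q, k, hq, hk, hqk⟩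

end Pool.TTQ
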