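import Pool.Agent.Lib.MP_695920_nt.TT.Selmer
import Pool.Agent.Lib.MP_695920_nt.TT.DiscOmega
import Pool.Agent.Lib.MP_695920_nt.TT.Quartic.Fibre
import Pool.Agent.Lib.MP_695920_nt.TT.Quartic.CountAbs

/-! TEAM QUARTIC, case I: the count. -/

set_option autoImplicit false

namespace Pool.TTQ

open Equiv NumberField Module IsDedekindDomain Pool.TT nonZeroDivisors

variable {K L : Type} [Field K] [NumberField K] [Field L] [NumberField L]

/-- Proof: for every `c` with `PosClass K c` choose `I, b`; `m = N(I)`. The map `c ↦ alR e b m` modulo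
squares has its values in `Sel (Res e) S`, `S` the primes above `2 disc K` (`even_al`,
`primes_above_aux`), at most `#Cl(Res)[2] 2 ^ (3 + #S)` values (`relIndex_Sel` or `selmer_card_aux`), and
its fibres have at most `2 ^ ω` elements (`fibre`, `card_classQ`). -/
theorem card_posClass_le [IsGalois ℚ L] (e : Fin 4 ≃ (K →ₐ[ℚ] L)) (hK : finrank ℚ K = 4)
    (htr : Trans e) :
    Nat.card {c : ClassGroup (𝓞 K) // PosClass K c} ≤
      2 ^ (discr K).natAbs.primeFactors.card *
      (Nat.card {c : ClassGroup (𝓞 (Res e)) // c ^ 2 = 1} *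
        2 ^ (3 + 3 * (2 * discr K).natAbs.primeFactors.card)) := by
  have hne : (2 * discr K : ℤ) ≠ 0 := mul_ne_zero two_ne_zero (discr_ne_zero K)
  obtain ⟨S, hS, hSv⟩ := primes_above_aux (Res e) (2 * discr K) hne
  have hal0 : ∀ (b : K) (m : ℚ), 0 < m → Algebra.norm ℚ b = m ^ 2 → alR e b m ≠ 0 := by
    intro b m hm hN h
    exact al_ne_zero e hK htr hm hN 0 (congrArg Subtype.val h)
  have hb0 : ∀ (b : 𝓞 K), b ≠ 0 → (b : K) ≠ 0 := fun b hb => by exact_mod_cast hb
  have hmain := Pool.TT.Quartic.card_posClass_le (K := K) (R := Res e) (fun b m => alR e b m) S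
    (fun b m _ hm hN => hal0 b m hm hN) (by
      intro b I m hb hI hm hN v hv
      have hmQ : (0 : ℚ) < (m : ℚ) := by exact_mod_cast hm
      have hNQ : Algebra.norm ℚ (b : K) = (m : ℚ) ^ 2 := by
        rw [← Algebra.coe_norm_int, hN]
        push_cast
        rfl
      refine even_al e hK (hb0 b hb) hNQ ?_ (hal0 _ _ hmQ hNQ) v (fun h => hv (hSv v h))
      intro w
      have h1 : w.valuation K (algebraMap (𝓞 K) K b) = w.intValuation b :=
        w.valuation_of_algebraMap b
      have h2 : (b : K) = algebraMap (𝓞 K) K b := rfl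
      rw [h2, h1, w.intValuation_if_neg hb]
      have h3 : (Associates.mk w.asIdeal).count (Associates.mk (Ideal.span {b})).factors =
          2 * (Associates.mk w.asIdeal).count (Associates.mk (I : Ideal (𝓞 K))).factors := by
        rw [← hI, Associates.mk_pow, Associates.count_pow]
        · exact Associates.mk_ne_zero.mpr (nonZeroDivisors.ne_zero I.2)
        · exact w.associates_irreducible
      rw [h3]
      refine ⟨WithZero.exp (-((Associates.mk w.asIdeal).count
        (Associates.mk (I : Ideal (𝓞 K))).factors : ℤ)), ?_⟩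
      rw [← WithZero.exp_add]
      congr 1
      push_cast
      ring) (by
      intro b b' m m' hb hb' hm hm' hN hN' h
      obtain ⟨q, k, hq, hk, hqk⟩ := fibre e hK htr hb hb' hm hm' hN hN' h
      refine ⟨q * k, q, mul_ne_zero (by exact_mod_cast hq) hk, hq, ?_⟩
      rw [hqk, eq_ratCast]
      ring)
  rw [mul_comm]
  refine hmain.trans (Nat.mul_le_mul_right _ (Nat.mul_le_mul_left _ ?_))
  rw [finrank_Res e htr] at hS ⊢
  exact Nat.pow_le_pow_right (by norm_num) (by omega)

/-- case I -/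
theorem case_one {ε : ℝ} (hε : 0 < ε) : ∃ C : ℝ, 0 < C ∧
    ∀ (K L : Type) [Field K] [NumberField K] [Field L] [NumberField L] [IsGalois ℚ L]
      (e : Fin 4 ≃ (K →ₐ[ℚ] L)), finrank ℚ K = 4 → Trans e →
      (Nat.card {c : ClassGroup (𝓞 K) // c ^ 2 = 1} : ℝ) ≤
        C * |(discr K : ℝ)| ^ ε * (Nat.card {c : ClassGroup (𝓞 (Res e)) // c ^ 2 = 1} : ℝ) := by
  obtain ⟨C, hC, h⟩ := exp_omega_le (Real.log 16) hε
  refine ⟨2 * 64 * C, by positivity, fun K L _ _ _ _ _ e hK htr => ?_⟩
  have h1 := card_le_two_mul_posClass (K := K)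
  have h2 := card_posClass_le e hK htr
  have hD : (discr K).natAbs ≠ 0 := Int.natAbs_ne_zero.mpr (discr_ne_zero K)
  set w := (discr K).natAbs.primeFactors.card with hw
  have hw2 : (2 * discr K).natAbs.primeFactors.card ≤ 1 + w := by
    rw [Int.natAbs_mul, Nat.primeFactors_mul (by norm_num) hD]
    refine (Finset.card_union_le _ _).trans ?_
    gcongr
    have : (2 : ℤ).natAbs = 2 := rfl
    rw [this, Nat.Prime.primeFactors Nat.prime_two, Finset.card_singleton]
  have h3 := h (discr K).natAbs hD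
  have h4 : Real.exp (Real.log 16 * (w : ℝ)) = (16 : ℝ) ^ w := by
    rw [mul_comm, Real.exp_nat_mul, Real.exp_log (by norm_num)]
  have h5 : (((discr K).natAbs : ℕ) : ℝ) = |(discr K : ℝ)| := by
    rw [Nat.cast_natAbs, Int.cast_abs]
  rw [← hw, h4, h5] at h3
  have h6 : Nat.card {c : ClassGroup (𝓞 K) // c ^ 2 = 1} ≤
      2 * (64 * 16 ^ w * Nat.card {c : ClassGroup (𝓞 (Res e)) // c ^ 2 = 1}) := by
    refine h1.trans (Nat.mul_le_mul_left 2 (h2.trans ?_))
    have h7 : 2 ^ (3 + 3 * (2 * discr K).natAbs.primeFactors.card) ≤ 2 ^ (3 + 3 * (1 + w)) :=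
      Nat.pow_le_pow_right (by norm_num) (by omega)
    calc 2 ^ w * (Nat.card {c : ClassGroup (𝓞 (Res e)) // c ^ 2 = 1} *
          2 ^ (3 + 3 * (2 * discr K).natAbs.primeFactors.card))
        ≤ 2 ^ w * (Nat.card {c : ClassGroup (𝓞 (Res e)) // c ^ 2 = 1} * 2 ^ (3 + 3 * (1 + w))) :=
          Nat.mul_le_mul_left _ (Nat.mul_le_mul_left _ h7)
      _ = 64 * 16 ^ w * Nat.card {c : ClassGroup (𝓞 (Res e)) // c ^ 2 = 1} := by
          have h8 : (16 : ℕ) ^ w = 2 ^ w * 2 ^ (3 * w) := by
            rw [← pow_add, show w + 3 * w = 4 * w by ring, pow_mul]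
            norm_num
          have h9 : (2 : ℕ) ^ (3 + 3 * (1 + w)) = 64 * 2 ^ (3 * w) := by
            rw [show 3 + 3 * (1 + w) = 6 + 3 * w by ring, pow_add]
            norm_num
          rw [h8, h9]
          ring
  have h7 : (Nat.card {c : ClassGroup (𝓞 K) // c ^ 2 = 1} : ℝ) ≤
      2 * (64 * 16 ^ w * (Nat.card {c : ClassGroup (𝓞 (Res e)) // c ^ 2 = 1} : ℝ)) := by
    exact_mod_cast h6
  refine h7.trans ?_
  have h8 : (0 : ℝ) ≤ (Nat.card {c : ClassGroup (𝓞 (Res e)) // c ^ 2 = 1} : ℝ) := Nat.cast_nonneg _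
  have h9 := mul_le_mul_of_nonneg_right h3 h8
  nlinarith [h9]

end Pool.TTQ
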