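import Pool.Agent.Lib.MP_695920_nt.TT.Quartic.Part

/-!
TEAM QUARTIC, definitions.

`K` a quartic field, `L` a Galois number field, `e : Fin 4 ≃ (K →ₐ[ℚ] L)` the embeddings,
`permHom e : Gal(L/ℚ) → S_4`, `H e` the stabiliser of the pairing `{01|23}`, `Res e` its fixed
field (the cubic resolvent field).
-/

set_option autoImplicit false

namespace Pool.TTQ

open Equiv NumberField Module

variable {K L : Type} [Field K] [NumberField K] [Field L] [NumberField L]

/-- the permutation of the embeddings defined by `σ` -/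
noncomputable def permHom (e : Fin 4 ≃ (K →ₐ[ℚ] L)) : (L ≃ₐ[ℚ] L) →* Perm (Fin 4) where
  toFun σ :=
    { toFun := fun i => e.symm ((σ : L →ₐ[ℚ] L).comp (e i))
      invFun := fun i => e.symm (((σ⁻¹ : L ≃ₐ[ℚ] L) : L →ₐ[ℚ] L).comp (e i))
      left_inv := fun i => by
        beta_reduce
        rw [Equiv.apply_symm_apply, Equiv.symm_apply_eq]
        ext x
        simp
      right_inv := fun i => by
        beta_reduce
        rw [Equiv.apply_symm_apply, Equiv.symm_apply_eq]
        ext x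
        simp }
  map_one' := by
    ext i
    simp only [Equiv.coe_fn_mk, Perm.coe_one, id]
    congr 1
    rw [Equiv.symm_apply_eq]
    ext x
    simp
  map_mul' σ τ := by
    ext i
    simp only [Equiv.coe_fn_mk, Perm.coe_mul, Function.comp]
    congr 1
    rw [Equiv.symm_apply_eq, Equiv.apply_symm_apply]
    ext x
    simp

theorem permHom_apply (e : Fin 4 ≃ (K →ₐ[ℚ] L)) (σ : L ≃ₐ[ℚ] L) (i : Fin 4) (x : K) :
    e (permHom e σ i) x = σ (e i x) := by
  change e (e.symm ((σ : L →ₐ[ℚ] L).comp (e i))) x = _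
  rw [Equiv.apply_symm_apply]
  rfl

/-- the conjugates -/
def cj (e : Fin 4 ≃ (K →ₐ[ℚ] L)) (x : K) : Fin 4 → L := fun i => e i x

theorem cj_perm (e : Fin 4 ≃ (K →ₐ[ℚ] L)) (σ : L ≃ₐ[ℚ] L) (x : K) (i : Fin 4) :
    cj e x (permHom e σ i) = σ (cj e x i) := permHom_apply e σ i x

/-- the stabiliser of the pairing `{01|23}` -/
noncomputable def H (e : Fin 4 ≃ (K →ₐ[ℚ] L)) : Subgroup (L ≃ₐ[ℚ] L) where
  carrier := {σ | part (permHom e σ) 0 = 0}
  one_mem' := by simp [part_one]
  mul_mem' := fun {σ τ} hσ hτ => by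
    simp only [Set.mem_ofPred_eq] at hσ hτ ⊢
    rw [map_mul, part_mul, hτ, hσ]
  inv_mem' := fun {σ} hσ => by
    simp only [Set.mem_ofPred_eq] at hσ ⊢
    have h : part (permHom e (σ⁻¹ * σ)) 0 = 0 := by simp [part_one]
    rw [map_mul, part_mul, hσ] at h
    exact h

theorem mem_H (e : Fin 4 ≃ (K →ₐ[ℚ] L)) (σ : L ≃ₐ[ℚ] L) :
    σ ∈ H e ↔ part (permHom e σ) 0 = 0 := Iff.rfl

/-- the resolvent field -/
noncomputable def Res (e : Fin 4 ≃ (K →ₐ[ℚ] L)) : IntermediateField ℚ L :=
  IntermediateField.fixedField (H e)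

theorem mem_Res (e : Fin 4 ≃ (K →ₐ[ℚ] L)) (x : L) : x ∈ Res e ↔ ∀ σ ∈ H e, σ x = x := by
  unfold Res
  rw [IntermediateField.mem_fixedField_iff]

/-- transitivity on the pairings -/
def Trans (e : Fin 4 ≃ (K →ₐ[ℚ] L)) : Prop :=
  ∀ P : Fin 3, ∃ σ : L ≃ₐ[ℚ] L, part (permHom e σ) 0 = P

/-- `x_0 x_1 + x_2 x_3 + 2 m` and its conjugates -/
theorem al_map (e : Fin 4 ≃ (K →ₐ[ℚ] L)) (σ : L ≃ₐ[ℚ] L) (x : K) (m : ℚ) (P : Fin 3) :
    σ (al (cj e x) (algebraMap ℚ L m) P) =
      al (cj e x) (algebraMap ℚ L m) (part (permHom e σ) P) := by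
  rw [← al_perm]
  unfold al
  simp only [map_add, map_mul, cj_perm, map_ofNat, AlgEquiv.commutes]

theorem al_mem (e : Fin 4 ≃ (K →ₐ[ℚ] L)) (x : K) (m : ℚ) :
    al (cj e x) (algebraMap ℚ L m) 0 ∈ Res e := by
  rw [mem_Res]
  intro σ hσ
  rw [al_map, (mem_H e σ).1 hσ]

/-- the four embeddings, in an algebraic closure -/
theorem exists_closure_equiv (e : Fin 4 ≃ (K →ₐ[ℚ] L)) (hK : finrank ℚ K = 4) :
    ∃ f : Fin 4 ≃ (K →ₐ[ℚ] AlgebraicClosure L), ∀ i x,
      f i x = algebraMap L (AlgebraicClosure L) (e i x) := by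
  classical
  let ι : L →ₐ[ℚ] AlgebraicClosure L := IsScalarTower.toAlgHom ℚ L (AlgebraicClosure L)
  have hinj : Function.Injective (fun i : Fin 4 => ι.comp (e i)) := by
    intro i j hij
    apply e.injective
    ext x
    have h := congrArg (fun g : K →ₐ[ℚ] AlgebraicClosure L => g x) hij
    exact (algebraMap L (AlgebraicClosure L)).injective h
  have hcard : Fintype.card (Fin 4) = Fintype.card (K →ₐ[ℚ] AlgebraicClosure L) := by
    rw [AlgHom.card, hK, Fintype.card_fin]
  have hbij := (Fintype.bijective_iff_injective_and_card _).2 ⟨hinj, hcard⟩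
  exact ⟨Equiv.ofBijective _ hbij, fun i x => rfl⟩

/-- the norm of `x` is the product of the conjugates -/
theorem prod_cj (e : Fin 4 ≃ (K →ₐ[ℚ] L)) (hK : finrank ℚ K = 4) (x : K) :
    ∏ i, cj e x i = algebraMap ℚ L (Algebra.norm ℚ x) := by
  obtain ⟨f, hf⟩ := exists_closure_equiv e hK
  apply (algebraMap L (AlgebraicClosure L)).injective
  rw [map_prod, ← IsScalarTower.algebraMap_apply ℚ L (AlgebraicClosure L),
    Algebra.norm_eq_prod_embeddings ℚ (AlgebraicClosure L) x, ← Equiv.prod_comp f]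
  exact Finset.prod_congr rfl fun i _ => (hf i x).symm

/-- the trace of `x` is the sum of the conjugates -/
theorem sum_cj (e : Fin 4 ≃ (K →ₐ[ℚ] L)) (hK : finrank ℚ K = 4) (x : K) :
    ∑ i, cj e x i = algebraMap ℚ L (Algebra.trace ℚ K x) := by
  obtain ⟨f, hf⟩ := exists_closure_equiv e hK
  apply (algebraMap L (AlgebraicClosure L)).injective
  rw [map_sum, ← IsScalarTower.algebraMap_apply ℚ L (AlgebraicClosure L),
    trace_eq_sum_embeddings (AlgebraicClosure L), ← Equiv.sum_comp f]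
  exact Finset.sum_congr rfl fun i _ => (hf i x).symm

/-- the values do not vanish for positive `m` -/
theorem al_ne_zero (e : Fin 4 ≃ (K →ₐ[ℚ] L)) (hK : finrank ℚ K = 4) (htr : Trans e) {x : K}
    {m : ℚ} (hm : 0 < m) (hx : Algebra.norm ℚ x = m ^ 2) (P : Fin 3) :
    al (cj e x) (algebraMap ℚ L m) P ≠ 0 := by
  intro h0
  obtain ⟨σ, hσ⟩ := htr P
  have h0' : al (cj e x) (algebraMap ℚ L m) 0 = 0 := by
    apply (map_eq_zero σ).1
    rw [al_map, hσ]
    exact h0
  have hall : ∀ P : Fin 3, al (cj e x) (algebraMap ℚ L m) P = 0 := by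
    intro P
    obtain ⟨σ, hσ⟩ := htr P
    rw [← hσ, ← al_map, h0', map_zero]
  have hN := prod_cj e hK x
  rw [hx, map_pow] at hN
  have hmL : algebraMap ℚ L m ≠ 0 := (map_ne_zero (algebraMap ℚ L)).2 hm.ne'
  have hu : ∀ P : Fin 3, cj e x 0 * cj e x (pb P) = -algebraMap ℚ L m ∧
      cj e x (pc P) * cj e x (pd P) = -algebraMap ℚ L m := by
    intro P
    have h1 := prod_four (cj e x) P
    have h2 := hall P
    rw [hN] at h1
    unfold al at h2
    have h3 : (cj e x 0 * cj e x (pb P) - cj e x (pc P) * cj e x (pd P)) ^ 2 = 0 := by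
      linear_combination (cj e x 0 * cj e x (pb P) + cj e x (pc P) * cj e x (pd P) -
        2 * algebraMap ℚ L m) * h2 - 4 * h1
    have h4 := pow_eq_zero_iff (two_ne_zero) |>.1 h3
    have h5 : (2 : L) ≠ 0 := two_ne_zero
    constructor
    · apply mul_left_cancel₀ h5
      linear_combination h2 + h4
    · apply mul_left_cancel₀ h5
      linear_combination h2 - h4
  have h01 : cj e x 0 * cj e x 1 = -algebraMap ℚ L m := (hu 0).1
  have h02 : cj e x 0 * cj e x 2 = -algebraMap ℚ L m := (hu 1).1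
  have h03 : cj e x 0 * cj e x 3 = -algebraMap ℚ L m := (hu 2).1
  have h12 : cj e x 1 * cj e x 2 = -algebraMap ℚ L m := (hu 2).2
  have hx0 : cj e x 0 ≠ 0 := by
    intro h
    rw [h, zero_mul] at h01
    exact hmL (neg_eq_zero.1 h01.symm)
  have hx1 : cj e x 1 ≠ 0 := by
    intro h
    rw [h, mul_zero] at h01
    exact hmL (neg_eq_zero.1 h01.symm)
  have e21 : cj e x 2 = cj e x 1 := mul_left_cancel₀ hx0 (h02.trans h01.symm)
  have e31 : cj e x 3 = cj e x 1 := mul_left_cancel₀ hx0 (h03.trans h01.symm)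
  have e20 : cj e x 2 = cj e x 0 := by
    apply mul_left_cancel₀ hx1
    rw [h12, mul_comm, h01]
  have e10 : cj e x 1 = cj e x 0 := by rw [← e21, e20]
  have hT := sum_cj e hK x
  rw [Fin.sum_univ_four, e31, e20, e10] at hT
  have hsq : (Algebra.trace ℚ K x / 4) ^ 2 = -m := by
    apply (algebraMap ℚ L).injective
    rw [map_pow, map_div₀, ← hT, map_neg, ← h01, e10, map_ofNat]
    ring
  have := sq_nonneg (Algebra.trace ℚ K x / 4)
  linarith

/-- the resolvent field is cubic -/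
theorem finrank_Res [IsGalois ℚ L] (e : Fin 4 ≃ (K →ₐ[ℚ] L)) (htr : Trans e) :
    finrank ℚ (Res e) = 3 := by
  classical
  have hfix : (Res e).fixingSubgroup = H e := by
    unfold Res
    exact IntermediateField.fixingSubgroup_fixedField (H e)
  rw [IntermediateField.finrank_eq_fixingSubgroup_index, hfix]
  have hrel : ∀ σ τ : L ≃ₐ[ℚ] L, σ⁻¹ * τ ∈ H e ↔
      part (permHom e σ) 0 = part (permHom e τ) 0 := by
    intro σ τ
    rw [mem_H, map_mul, part_mul]
    have h1 : ∀ P : Fin 3, part (permHom e σ⁻¹) (part (permHom e σ) P) = P := by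
      intro P
      rw [← part_mul, ← map_mul, inv_mul_cancel, map_one, part_one]
    have h2 : ∀ P : Fin 3, part (permHom e σ) (part (permHom e σ⁻¹) P) = P := by
      intro P
      rw [← part_mul, ← map_mul, mul_inv_cancel, map_one, part_one]
    constructor
    · intro h
      rw [← h2 (part (permHom e τ) 0), h]
    · intro h
      rw [← h, h1]
  let f : (L ≃ₐ[ℚ] L) ⧸ H e → Fin 3 := Quotient.lift (fun σ => part (permHom e σ) 0)
    (fun σ τ h => (hrel σ τ).1 (QuotientGroup.leftRel_apply.1 h))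
  have hf : Function.Bijective f := by
    constructor
    · intro a b
      induction a using QuotientGroup.induction_on with
      | H σ =>
        induction b using QuotientGroup.induction_on with
        | H τ =>
          intro h
          exact QuotientGroup.eq.2 ((hrel σ τ).2 h)
    · intro P
      obtain ⟨σ, hσ⟩ := htr P
      exact ⟨(σ : (L ≃ₐ[ℚ] L) ⧸ H e), hσ⟩
  rw [Subgroup.index, Nat.card_congr (Equiv.ofBijective f hf), Nat.card_eq_fintype_card,
    Fintype.card_fin]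

/-- every quartic field has such data -/
theorem exists_data (K : Type) [Field K] [NumberField K] (hK : finrank ℚ K = 4) :
    ∃ (L : Type) (_ : Field L) (_ : NumberField L) (_ : IsGalois ℚ L),
      Nonempty (Fin 4 ≃ (K →ₐ[ℚ] L)) := by
  classical
  let Ω := AlgebraicClosure K
  haveI : Algebra.IsAlgebraic ℚ Ω := Algebra.IsAlgebraic.trans ℚ K Ω
  haveI hne : Nonempty (K →ₐ[ℚ] Ω) := ⟨IsScalarTower.toAlgHom ℚ K Ω⟩
  haveI hnΩ : Normal ℚ Ω := normal_iff.2 fun x =>
    ⟨Algebra.IsIntegral.isIntegral x, IsAlgClosed.splits _⟩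
  let L := IntermediateField.normalClosure ℚ K Ω
  haveI hn : Normal ℚ L := normalClosure.normal ℚ K Ω
  haveI hg : IsGalois ℚ L := ⟨⟩
  haveI : FiniteDimensional ℚ L := normalClosure.is_finiteDimensional ℚ K Ω
  haveI hc : IsNormalClosure ℚ K L := isNormalClosure_normalClosure ℚ K Ω
  refine ⟨L, inferInstance, ⟨⟩, hg, ?_⟩
  have hcard : Fintype.card (K →ₐ[ℚ] L) = finrank ℚ K :=
    AlgHom.card_of_splits _ _ _ fun x => hc.splits x
  rw [hK] at hcard
  exact ⟨(Fintype.equivFinOfCardEq hcard).symm⟩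

end Pool.TTQ
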