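import Mathlib

set_option autoImplicit false

/-!
TEAM QUARTIC: the discriminant of the cubic resolvent field divides the discriminant of the quartic
field. `1 ∧ x ∧ y ∧ xy = ± 1 ∧ A(x) ∧ A(y)` for `A(x) = x₀ x₁ + x₂ x₃`, and for every prime `p` there
are integers `x`, `y` with `1, x, y, xy` independent modulo `p` (`hindep`, proved in `Indep.lean`).
-/

open NumberField Module

namespace Pool.TT.Quartic

/-- the discriminant of a family of integers through the embeddings -/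
private theorem dr_discr {K L : Type} [Field K] [NumberField K] [Field L] [NumberField L] {n : ℕ}
    (hn : finrank ℚ K = n) (φ : Fin n → (K →ₐ[ℚ] L)) (hφ : Function.Injective φ)
    (b : Fin n → 𝓞 K) :
    ((Algebra.discr ℤ b : ℤ) : L) = (Matrix.of fun i j => φ j (b i : K)).det ^ 2 := by
  classical
  let E := AlgebraicClosure L
  let ι : L →ₐ[ℚ] E := IsScalarTower.toAlgHom ℚ L E
  have hcard : Fintype.card (Fin n) = Fintype.card (K →ₐ[ℚ] E) := by
    rw [AlgHom.card, hn, Fintype.card_fin]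
  have hinj : Function.Injective fun j : Fin n => ι.comp (φ j) := by
    intro i j h
    apply hφ
    apply AlgHom.ext
    intro x
    exact ι.toRingHom.injective (DFunLike.congr_fun h x)
  let e : Fin n ≃ (K →ₐ[ℚ] E) := Equiv.ofBijective _
    ((Fintype.bijective_iff_injective_and_card _).mpr ⟨hinj, hcard⟩)
  have h1 := Algebra.discr_eq_det_embeddingsMatrixReindex_pow_two ℚ E (fun i => (b i : K)) e
  have h2 : (Algebra.discr ℚ fun i => (b i : K)) = Int.castRingHom ℚ (Algebra.discr ℤ b) := by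
    rw [Algebra.discr_def, Algebra.discr_def, RingHom.map_det]
    congr 1
    ext i j
    rw [RingHom.mapMatrix_apply, Matrix.map_apply, Algebra.traceMatrix_apply,
      Algebra.traceMatrix_apply, Algebra.traceForm_apply, Algebra.traceForm_apply, eq_intCast,
      Algebra.coe_trace_int]
    rfl
  apply ι.toRingHom.injective
  rw [h2] at h1
  have h3 : ι.toRingHom ((Algebra.discr ℤ b : ℤ) : L) =
      algebraMap ℚ E (Int.castRingHom ℚ (Algebra.discr ℤ b)) := by
    rw [map_intCast, eq_intCast, map_intCast]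
  rw [h3, h1, map_pow, RingHom.map_det]
  rfl

/-- the index -/
private theorem dr_index {K : Type} [Field K] [NumberField K] {n : ℕ}
    (hn : finrank ℚ K = n) (b : Fin n → 𝓞 K) :
    ∃ M : Matrix (Fin n) (Fin n) ℤ, Algebra.discr ℤ b = M.det ^ 2 * discr K ∧
      ∀ (p : ℕ), p.Prime → (p : ℤ) ∣ M.det → ∃ v : Fin n → ℤ, (∃ i, ¬ (p : ℤ) ∣ v i) ∧
        (p : 𝓞 K) ∣ ∑ i, (v i : 𝓞 K) * b i := by
  classical
  have hc : Fintype.card (Free.ChooseBasisIndex ℤ (𝓞 K)) = n := by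
    rw [← finrank_eq_card_chooseBasisIndex, RingOfIntegers.rank, hn]
  let B : Basis (Fin n) ℤ (𝓞 K) := (RingOfIntegers.basis K).reindex (Fintype.equivFinOfCardEq hc)
  let M : Matrix (Fin n) (Fin n) ℤ := Matrix.of fun i j => B.repr (b i) j
  have hM : (M.map (algebraMap ℤ (𝓞 K))).mulVec B = b := by
    ext1 i
    rw [Matrix.mulVec, dotProduct]
    conv_rhs => rw [← B.sum_repr (b i)]
    refine Finset.sum_congr rfl fun j _ => ?_
    rw [zsmul_eq_mul]
    rfl
  refine ⟨M, ?_, ?_⟩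
  · have h1 := Algebra.discr_of_matrix_mulVec (A := ℤ) (B) M
    rw [hM, NumberField.discr_eq_discr K B] at h1
    exact h1
  · intro p hp hdvd
    have : Fact p.Prime := ⟨hp⟩
    have h1 : (M.map (Int.castRingHom (ZMod p))).det = 0 := by
      rw [← RingHom.mapMatrix_apply, ← RingHom.map_det]
      exact (ZMod.intCast_zmod_eq_zero_iff_dvd _ _).mpr hdvd
    obtain ⟨w, hw0, hw⟩ := Matrix.exists_vecMul_eq_zero_iff.mpr h1
    refine ⟨fun i => (w i).valMinAbs, ?_, ?_⟩
    · by_contra hcon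
      push Not at hcon
      apply hw0
      ext1 i
      have h2 := (ZMod.intCast_zmod_eq_zero_iff_dvd _ _).mpr (hcon i)
      rwa [ZMod.coe_valMinAbs] at h2
    · have h2 : ∀ j, (p : ℤ) ∣ ∑ i, (w i).valMinAbs * M i j := by
        intro j
        rw [← ZMod.intCast_zmod_eq_zero_iff_dvd]
        push_cast
        have h3 := congrFun hw j
        rw [Matrix.vecMul, dotProduct] at h3
        simpa [ZMod.coe_valMinAbs] using h3
      choose c hc using h2
      refine ⟨∑ j, (c j : 𝓞 K) * B j, ?_⟩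
      have h3 : ∀ i, b i = ∑ j, (M i j : 𝓞 K) * B j := by
        intro i
        conv_lhs => rw [← hM]
        rfl
      simp_rw [h3, Finset.mul_sum]
      rw [Finset.sum_comm]
      refine Finset.sum_congr rfl fun j _ => ?_
      have h4 := congrArg (fun z : ℤ => (z : 𝓞 K)) (hc j)
      simp only [Int.cast_sum, Int.cast_mul, Int.cast_natCast] at h4
      rw [← mul_assoc, ← h4, Finset.sum_mul]
      refine Finset.sum_congr rfl fun i _ => ?_
      ring

private theorem dr_det {S : Type} [CommRing S] (x y : Fin 4 → S) :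
    (Matrix.of fun (i : Fin 4) (j : Fin 4) => (![1, x j, y j, x j * y j] : Fin 4 → S) i).det =
      -(Matrix.of fun (i : Fin 3) (j : Fin 3) =>
        (![1, (![x 0 * x 1 + x 2 * x 3, x 0 * x 2 + x 1 * x 3, x 0 * x 3 + x 1 * x 2] :
          Fin 3 → S) j, (![y 0 * y 1 + y 2 * y 3, y 0 * y 2 + y 1 * y 3, y 0 * y 3 + y 1 * y 2] :
          Fin 3 → S) j] : Fin 3 → S) i).det := by
  simp [Matrix.det_succ_row_zero, Fin.sum_univ_succ, Fin.succAbove]
  ring

private theorem dr_dvd {d D : ℤ} (hd : d ≠ 0)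
    (h : ∀ p : ℕ, p.Prime → ∃ i : ℤ, ¬ (p : ℤ) ∣ i ∧ d ∣ i ^ 2 * D) : d ∣ D := by
  have hg : Int.gcd d D ≠ 0 := fun h0 => hd (Int.gcd_eq_zero_iff.mp h0).1
  have hgz : ((Int.gcd d D : ℕ) : ℤ) ≠ 0 := by exact_mod_cast hg
  obtain ⟨d', hd'⟩ := Int.gcd_dvd_left d D
  obtain ⟨D', hD'⟩ := Int.gcd_dvd_right d D
  have hcop : IsCoprime d' D' := by
    rw [Int.isCoprime_iff_gcd_eq_one]
    have h1 : Int.gcd (((Int.gcd d D : ℕ) : ℤ) * d') (((Int.gcd d D : ℕ) : ℤ) * D') =
        Int.gcd d D * Int.gcd d' D' := by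
      rw [Int.gcd_mul_left, Int.natAbs_natCast]
    rw [← hd', ← hD'] at h1
    exact Nat.eq_of_mul_eq_mul_left (Nat.pos_of_ne_zero hg) (by rw [← h1, mul_one])
  have hunit : d'.natAbs = 1 := by
    by_contra hne
    obtain ⟨p, hp, hpd⟩ := Nat.exists_prime_and_dvd hne
    obtain ⟨i, hi, hdi⟩ := h p hp
    have h1 : d' ∣ i ^ 2 * D' := by
      have h2 : ((Int.gcd d D : ℕ) : ℤ) * d' ∣ ((Int.gcd d D : ℕ) : ℤ) * (i ^ 2 * D') := by
        rw [← hd']
        refine hdi.trans (dvd_of_eq ?_)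
        conv_lhs => rw [hD']
        ring
      exact (mul_dvd_mul_iff_left hgz).mp h2
    have h3 : d' ∣ i ^ 2 := hcop.dvd_of_dvd_mul_right h1
    have h4 : (p : ℤ) ∣ d' := Int.natCast_dvd.mpr hpd
    exact hi ((Nat.prime_iff_prime_int.mp hp).dvd_of_dvd_pow (h4.trans h3))
  have h5 : d ∣ ((Int.gcd d D : ℕ) : ℤ) := by
    rcases Int.natAbs_eq d' with h6 | h6
    · rw [hunit] at h6
      refine dvd_of_eq ?_
      conv_lhs => rw [hd', h6]
      simp
    · rw [hunit] at h6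
      refine ⟨-1, ?_⟩
      conv_rhs => rw [hd', h6]
      simp
  exact h5.trans (Int.gcd_dvd_right _ _)

/-- The discriminant of the cubic resolvent field divides that of the quartic field. -/
theorem discr_resolvent_dvd {K R L : Type} [Field K] [NumberField K] [Field R] [NumberField R]
    [Field L] [NumberField L] (hK : finrank ℚ K = 4) (hR : finrank ℚ R = 3)
    (hindep : ∀ p : ℕ, p.Prime → ∃ x y : 𝓞 K, ∀ a b c d : ℤ,
      (p : 𝓞 K) ∣ (a : 𝓞 K) + b * x + c * y + d * (x * y) →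
        (p : ℤ) ∣ a ∧ (p : ℤ) ∣ b ∧ (p : ℤ) ∣ c ∧ (p : ℤ) ∣ d)
    (φ : Fin 4 → (K →ₐ[ℚ] L)) (hφ : Function.Injective φ)
    (ψ : Fin 3 → (R →ₐ[ℚ] L)) (hψ : Function.Injective ψ) (A : K → R)
    (h0 : ∀ x, ψ 0 (A x) = φ 0 x * φ 1 x + φ 2 x * φ 3 x)
    (h1 : ∀ x, ψ 1 (A x) = φ 0 x * φ 2 x + φ 1 x * φ 3 x)
    (h2 : ∀ x, ψ 2 (A x) = φ 0 x * φ 3 x + φ 1 x * φ 2 x) :
    discr R ∣ discr K := by
  classical
  apply dr_dvd (discr_ne_zero R)
  intro p hp
  obtain ⟨x, y, hxy⟩ := hindep p hp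
  have hint : ∀ z : 𝓞 K, IsIntegral ℤ (A z) := by
    intro z
    rw [← isIntegral_algHom_iff ((ψ 0).restrictScalars ℤ) (ψ 0).toRingHom.injective]
    have h3 : ∀ i, IsIntegral ℤ (φ i z) := fun i =>
      z.isIntegral_coe.map ((φ i).restrictScalars ℤ)
    change IsIntegral ℤ (ψ 0 (A z))
    rw [h0]
    exact ((h3 0).mul (h3 1)).add ((h3 2).mul (h3 3))
  let ax : 𝓞 R := ⟨A x, hint x⟩
  let ay : 𝓞 R := ⟨A y, hint y⟩
  obtain ⟨M, hM, hMp⟩ := dr_index hK ![1, x, y, x * y]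
  obtain ⟨N, hN, -⟩ := dr_index hR ![1, ax, ay]
  refine ⟨M.det, ?_, N.det ^ 2, ?_⟩
  · intro hdvd
    obtain ⟨v, ⟨i, hi⟩, hv⟩ := hMp p hp hdvd
    have h3 := hxy (v 0) (v 1) (v 2) (v 3) (by
      simpa [Fin.sum_univ_succ, add_assoc] using hv)
    apply hi
    fin_cases i
    · exact h3.1
    · exact h3.2.1
    · exact h3.2.2.1
    · exact h3.2.2.2
  · rw [← hM, mul_comm (discr R) (N.det ^ 2), ← hN]
    have h3 := dr_discr hK φ hφ ![1, x, y, x * y]
    have h4 := dr_discr hR ψ hψ ![1, ax, ay]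
    have h5 := dr_det (fun i => φ i x) (fun i => φ i y)
    have h6 : (Matrix.of fun i j => φ j ((![1, x, y, x * y] : Fin 4 → 𝓞 K) i : K)) =
        (Matrix.of fun (i : Fin 4) (j : Fin 4) =>
          (![1, φ j x, φ j y, φ j x * φ j y] : Fin 4 → L) i) := by
      ext i j
      fin_cases i <;> simp
    have h7 : (Matrix.of fun i j => ψ j ((![1, ax, ay] : Fin 3 → 𝓞 R) i : R)) =
        (Matrix.of fun (i : Fin 3) (j : Fin 3) =>
        (![1, (![φ 0 x * φ 1 x + φ 2 x * φ 3 x, φ 0 x * φ 2 x + φ 1 x * φ 3 x,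
          φ 0 x * φ 3 x + φ 1 x * φ 2 x] : Fin 3 → L) j,
          (![φ 0 y * φ 1 y + φ 2 y * φ 3 y, φ 0 y * φ 2 y + φ 1 y * φ 3 y,
          φ 0 y * φ 3 y + φ 1 y * φ 2 y] : Fin 3 → L) j] : Fin 3 → L) i) := by
      ext i j
      fin_cases i
      · simp
      · have h8 : ψ j (A x) = (![φ 0 x * φ 1 x + φ 2 x * φ 3 x, φ 0 x * φ 2 x + φ 1 x * φ 3 x,
          φ 0 x * φ 3 x + φ 1 x * φ 2 x] : Fin 3 → L) j := by
          fin_cases j
          · exact h0 x
          · exact h1 x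
          · exact h2 x
        exact h8
      · have h8 : ψ j (A y) = (![φ 0 y * φ 1 y + φ 2 y * φ 3 y, φ 0 y * φ 2 y + φ 1 y * φ 3 y,
          φ 0 y * φ 3 y + φ 1 y * φ 2 y] : Fin 3 → L) j := by
          fin_cases j
          · exact h0 y
          · exact h1 y
          · exact h2 y
        exact h8
    rw [h6, h5] at h3
    rw [h7] at h4
    rw [neg_sq] at h3
    have h8 : ((Algebra.discr ℤ (![1, x, y, x * y] : Fin 4 → 𝓞 K) : ℤ) : L) =
        ((Algebra.discr ℤ (![1, ax, ay] : Fin 3 → 𝓞 R) : ℤ) : L) := by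
      rw [h3, h4]
    exact Int.cast_injective h8

end Pool.TT.Quartic
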