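import Pool.Agent.Lib.MP_695920_nt.TT.Quartic.Indep

/-! TEAM QUARTIC, (vi): `1, x, y, xy` independent modulo `p`. -/

set_option autoImplicit false

namespace Pool.TTQ

open NumberField Module

/-- In the ring of integers of a quartic field there are, for every prime `p`, elements `x, y` such
that `1, x, y, x y` are linearly independent modulo `p`. Proof: `A = 𝓞 K / p` has dimension `4` over
`F_p`. If `A = A₁ × A₂` with `dim A_i = 2`, generated by `g_i`: `x = (1, 0)`, `y = (g₁, g₂)`. If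
`A = A₁ × F_p` with `A₁` local of dimension 3, `A₁ = F_p[g]`: `x = (g, 0)`, `y = (g, 1)`. If `A` is local
with residue degree `f` and `e f = 4`: `f = 4`: `y = x ^ 2`, `x` a generator of the residue field; `f = 2`:
`x` a lift of a generator, `y = π`; `f = 1`: `x = π`, `y = π ^ 2`. -/
theorem exists_indep (K : Type) [Field K] [NumberField K] (hK : finrank ℚ K = 4) (p : ℕ)
    (hp : p.Prime) : ∃ x y : 𝓞 K, ∀ a b c d : ℤ,
      (p : 𝓞 K) ∣ (a : 𝓞 K) + (b : 𝓞 K) * x + (c : 𝓞 K) * y + (d : 𝓞 K) * (x * y) →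
      (p : ℤ) ∣ a ∧ (p : ℤ) ∣ b ∧ (p : ℤ) ∣ c ∧ (p : ℤ) ∣ d := by
  exact Pool.TT.Quartic.exists_indep K hK p hp

end Pool.TTQ
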