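import Pool.Agent.Lib.MP_695920_nt.TT.Quartic.Defs
import Pool.Agent.Lib.MP_695920_nt.TT.Quartic.Mono
import Pool.Agent.Lib.MP_695920_nt.TT.Quartic.DiscR

/-! TEAM QUARTIC, (vi): the discriminant of the resolvent field. -/

set_option autoImplicit false

namespace Pool.TTQ

open Equiv NumberField Module

variable {K L : Type} [Field K] [NumberField K] [Field L] [NumberField L]

/-- Proof: let `p` be a prime and `x, y` as in `exists_indep`; `u = x_0 x_1 + x_2 x_3`,
`v = y_0 y_1 + y_2 y_3` are integers of `Res e`. By `det_three_four`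
`discr ℚ (1, u, v) = discr ℚ (1, x, y, xy)` (squares of the determinants of the conjugates; the
embeddings of `Res e` are the three pairings by `htr`). The left side is `n' ^ 2 disc (Res e)`, the
right side `n ^ 2 disc K` with `p ∤ n`. So `v_p (disc (Res e)) ≤ v_p (disc K)` for every `p`. -/
theorem discr_Res_dvd [IsGalois ℚ L] (e : Fin 4 ≃ (K →ₐ[ℚ] L)) (hK : finrank ℚ K = 4)
    (htr : Trans e) : discr (Res e) ∣ discr K := by
  choose σ hσ using htr
  let ψ : Fin 3 → (Res e →ₐ[ℚ] L) := fun P => (σ P : L →ₐ[ℚ] L).comp (Res e).val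
  let A : K → Res e := fun x => ⟨al (cj e x) (algebraMap ℚ L 0) 0, al_mem e x 0⟩
  have hA : ∀ P x, ψ P (A x) = al (cj e x) (algebraMap ℚ L 0) P := by
    intro P x
    change σ P (al (cj e x) (algebraMap ℚ L 0) 0) = _
    rw [al_map, hσ]
  have hψ : Function.Injective ψ := by
    intro P Q hPQ
    have h1 : (σ Q)⁻¹ * σ P ∈ H e := by
      rw [← IntermediateField.fixingSubgroup_fixedField (H e),
        IntermediateField.mem_fixingSubgroup_iff]
      intro x hx
      have h2 : σ P x = σ Q x := DFunLike.congr_fun hPQ (⟨x, hx⟩ : Res e)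
      rw [AlgEquiv.mul_apply, h2, ← AlgEquiv.mul_apply, inv_mul_cancel, AlgEquiv.one_apply]
    rw [mem_H] at h1
    have h2 : part (permHom e (σ Q * ((σ Q)⁻¹ * σ P))) 0 = part (permHom e (σ Q)) 0 := by
      rw [map_mul, part_mul, h1]
    rw [mul_inv_cancel_left, hσ, hσ] at h2
    exact h2
  refine Pool.TT.Quartic.discr_resolvent_dvd hK (finrank_Res e fun P => ⟨σ P, hσ P⟩)
    (fun p hp => exists_indep K hK p hp) (fun i => e i) e.injective ψ hψ A ?_ ?_ ?_ <;>
  · intro x
    rw [hA]
    simp [al, cj, pb, pc, pd]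

end Pool.TTQ
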