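import Pool.Agent.Lib.MP_695920_nt.TT.Selmer

/-!
TEAM QUARTIC, (iii): the element `A_P(b, m)` of the cubic resolvent field `R` has even valuations at
the primes which do not contain the discriminant of `K`.

`discr_mem_of_congr`: if two different embeddings agree modulo an ideal `P` of the integers of `L`,
then `P` contains the discriminant of `K` (orthogonality of the trace dual basis). Hence the inertia
groups at the other primes are trivial (`ramIdx_eq_one`), and `A_P(b, m) b_0 b_1 = (b_0 b_1 + m) ^ 2`.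
-/

set_option autoImplicit false

open NumberField Module IsDedekindDomain
open scoped nonZeroDivisors

namespace Pool.TT.Quartic

open Classical in
/-- orthogonality of the embeddings (adapted from Refl/CompDisc.lean) -/
private theorem er_ortho {K : Type} [Field K] [NumberField K] {E : Type} [Field E] [Algebra ℚ E]
    [IsAlgClosed E] {ι : Type} [Fintype ι] [DecidableEq ι] (b : Basis ι ℚ K) (φ ψ : K →ₐ[ℚ] E) :
    ∑ i, φ (b.traceDual i) * ψ (b i) = if φ = ψ then 1 else 0 := by
  let M : Matrix ι (K →ₐ[ℚ] E) E := fun i σ => σ (b i)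
  let N : Matrix (K →ₐ[ℚ] E) ι E := fun σ i => σ (b.traceDual i)
  have hcard : Fintype.card ι = Fintype.card (K →ₐ[ℚ] E) := by
    rw [AlgHom.card, Module.finrank_eq_card_basis b]
  have h1 : M * N = 1 := by
    ext i j
    rw [Matrix.mul_apply, Matrix.one_apply]
    have h := trace_eq_sum_embeddings (K := ℚ) (L := K) E (x := b i * b.traceDual j)
    rw [Module.Basis.trace_mul_traceDual] at h
    simp only [M, N]
    simp only [map_mul] at h
    rw [← h]
    split_ifs <;> simp
  have h2 : N * M = 1 := (Matrix.mul_eq_one_comm_of_card_eq ι (K →ₐ[ℚ] E) E hcard).1 h1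
  have h3 := congrFun (congrFun h2 φ) ψ
  rw [Matrix.mul_apply, Matrix.one_apply] at h3
  exact h3

/-- two embeddings which agree modulo `P`: then `P` contains the discriminant -/
theorem discr_mem_of_congr {K L : Type} [Field K] [NumberField K] [Field L] [NumberField L]
    {φ ψ : K →ₐ[ℚ] L} (hne : φ ≠ ψ) (P : Ideal (𝓞 L))
    (h : ∀ x : 𝓞 K, RingOfIntegers.mapRingHom (φ : K →+* L) x -
      RingOfIntegers.mapRingHom (ψ : K →+* L) x ∈ P) : ((discr K : ℤ) : 𝓞 L) ∈ P := by
  classical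
  let ι := Free.ChooseBasisIndex ℤ (𝓞 K)
  let b0 : Basis ι ℤ (𝓞 K) := RingOfIntegers.basis K
  let b : Basis ι ℚ K := integralBasis K
  have hb : ∀ i, b i = algebraMap (𝓞 K) K (b0 i) := fun i => integralBasis_apply K i
  have hdual : ∀ i, b.traceDual i ∈ Submodule.traceDual ℤ ℚ (1 : Submodule (𝓞 K) K) := by
    intro i
    have h1 := Submodule.traceDual_span_of_basis ℤ (1 : Submodule (𝓞 K) K) b
      (by
        ext x
        rw [mem_span_integralBasis]
        simp)
    have h2 : b.traceDual i ∈ Submodule.span ℤ (Set.range b.traceDual) :=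
      Submodule.subset_span ⟨i, rfl⟩
    rw [← h1] at h2
    exact h2
  have hint : ∀ i, ∃ c : 𝓞 K, algebraMap (𝓞 K) K c = ((discr K : ℤ) : K) * b.traceDual i := by
    intro i
    have h1 := isIntegral_discr_mul_of_mem_traceDual (A := ℤ) (K := ℚ) (1 : Submodule (𝓞 K) K)
      (b := b) (fun i => by rw [hb]; exact RingOfIntegers.isIntegral_coe _)
      (a := 1) (x := b.traceDual i) (Submodule.mem_one.2 ⟨1, map_one _⟩) (hdual i)
    have h2 : Algebra.discr ℚ b = ((discr K : ℤ) : ℚ) := (coe_discr K).symm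
    rw [h2, Algebra.smul_def, mul_one, map_intCast] at h1
    exact ⟨⟨_, h1⟩, rfl⟩
  choose c hc using hint
  let j : L →ₐ[ℚ] AlgebraicClosure L := (Algebra.ofId L (AlgebraicClosure L)).restrictScalars ℚ
  have hj : Function.Injective j := j.toRingHom.injective
  have e1 := er_ortho b (j.comp φ) (j.comp φ)
  have e2 := er_ortho b (j.comp φ) (j.comp ψ)
  rw [if_pos rfl] at e1
  rw [if_neg (fun he => hne (by
    ext x
    exact hj (congrArg (fun f : K →ₐ[ℚ] AlgebraicClosure L => f x) he)))] at e2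
  have key : ((discr K : ℤ) : 𝓞 L) = ∑ i, RingOfIntegers.mapRingHom (φ : K →+* L) (c i) *
      (RingOfIntegers.mapRingHom (φ : K →+* L) (b0 i) -
        RingOfIntegers.mapRingHom (ψ : K →+* L) (b0 i)) := by
    apply RingOfIntegers.ext
    apply hj
    have f1 : ∀ (f : K →ₐ[ℚ] L) (x : 𝓞 K),
        algebraMap (𝓞 L) L (RingOfIntegers.mapRingHom (f : K →+* L) x) = f x := fun _ _ => rfl
    simp only [map_sum, map_mul, map_sub, map_intCast, f1, hc, mul_assoc]
    rw [← Finset.mul_sum]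
    simp only [mul_sub, Finset.sum_sub_distrib]
    simp only [AlgHom.comp_apply, hb] at e1 e2
    rw [e1, e2, mul_one, mul_zero, sub_zero]
  rw [key]
  exact Ideal.sum_mem _ fun i _ => Ideal.mul_mem_left _ _ (h _)

/-- the inertia groups away from the discriminant are trivial -/
theorem ramIdx_eq_one {K R L : Type} [Field K] [NumberField K] [Field R] [NumberField R] [Field L]
    [NumberField L] [Algebra R L] [IsGalois ℚ L]
    (hL : ∀ σ : L ≃ₐ[ℚ] L, (∀ (f : K →ₐ[ℚ] L) (x : K), σ (f x) = f x) → σ = 1)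
    (v : HeightOneSpectrum (𝓞 R)) (w : HeightOneSpectrum (𝓞 L)) [w.asIdeal.LiesOver v.asIdeal]
    (hv : ((discr K : ℤ) : 𝓞 R) ∉ v.asIdeal) : v.asIdeal.ramificationIdx' w.asIdeal = 1 := by
  have hgal : IsGalois R L := IsGalois.tower_top_of_isGalois ℚ R L
  have hvp := v.isPrime
  have hwp := w.isPrime
  have hvm := v.isMaximal
  have hfin : Finite (𝓞 R ⧸ v.asIdeal) := Ring.HasFiniteQuotients.finiteQuotient v.ne_bot
  have h1 := Ideal.card_inertia_eq_ramificationIdxIn (G := Gal(L/R)) v.asIdeal w.asIdeal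
  rw [Ideal.ramificationIdxIn_eq_ramificationIdx v.asIdeal w.asIdeal Gal(L/R)] at h1
  rw [Ideal.ramificationIdx'_eq_ramificationIdx _ _ v.ne_bot, ← h1]
  have h2 : w.asIdeal.inertia Gal(L/R) = ⊥ := by
    rw [Subgroup.eq_bot_iff_forall]
    intro σ hσ
    rw [AddSubgroup.mem_inertia] at hσ
    have h3 : (σ.restrictScalars ℚ : L ≃ₐ[ℚ] L) = 1 := by
      apply hL
      intro f x
      by_contra hne
      have hne2 : ((σ.restrictScalars ℚ : L ≃ₐ[ℚ] L) : L →ₐ[ℚ] L).comp f ≠ f := by
        intro he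
        exact hne (congrArg (fun g : K →ₐ[ℚ] L => g x) he)
      have h4 := discr_mem_of_congr hne2 w.asIdeal (by
        intro y
        exact hσ (RingOfIntegers.mapRingHom (f : K →+* L) y))
      apply hv
      have h5 : v.asIdeal = w.asIdeal.under (𝓞 R) := Ideal.LiesOver.over
      rw [h5, Ideal.under, Ideal.mem_comap, map_intCast]
      exact h4
    ext x
    exact congrArg (fun g : L ≃ₐ[ℚ] L => g x) h3
  rw [h2]
  simp

/-- every valuation of the conjugates of `b` is a square -/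
theorem isSquare_conj {K L : Type} [Field K] [NumberField K] [Field L] [NumberField L] {b : K}
    (hb : ∀ v : HeightOneSpectrum (𝓞 K), IsSquare (v.valuation K b)) (f : K →ₐ[ℚ] L)
    (w : HeightOneSpectrum (𝓞 L)) : IsSquare (w.valuation L (f b)) := by
  let _ : Algebra K L := (f : K →+* L).toAlgebra
  have hwp := w.isPrime
  have hne : w.asIdeal.under (𝓞 K) ≠ ⊥ := by
    intro h
    exact w.ne_bot (Ideal.eq_bot_of_comap_eq_bot h)
  let v : HeightOneSpectrum (𝓞 K) := ⟨w.asIdeal.under (𝓞 K), inferInstance, hne⟩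
  have : w.asIdeal.LiesOver v.asIdeal := ⟨rfl⟩
  have h1 := HeightOneSpectrum.valuation_liesOver L v w b
  have h2 : algebraMap K L b = f b := rfl
  rw [← h2, ← h1]
  exact (hb v).pow _

/-- evenness descends from `L` to `R` away from the discriminant of `K` -/
theorem isSquare_descend {K R L : Type} [Field K] [NumberField K] [Field R] [NumberField R]
    [Field L] [NumberField L] [Algebra R L] [IsGalois ℚ L]
    (hL : ∀ σ : L ≃ₐ[ℚ] L, (∀ (f : K →ₐ[ℚ] L) (x : K), σ (f x) = f x) → σ = 1)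
    {α : R} (hα : ∀ w : HeightOneSpectrum (𝓞 L), IsSquare (w.valuation L (algebraMap R L α)))
    (v : HeightOneSpectrum (𝓞 R)) (hv : ((discr K : ℤ) : 𝓞 R) ∉ v.asIdeal) :
    IsSquare (v.valuation R α) := by
  have hvm := v.isMaximal
  obtain ⟨Q, hQM, hQo⟩ := Ideal.exists_maximal_ideal_liesOver_of_isIntegral (S := 𝓞 L) v.asIdeal
  have hQ0 : Q ≠ ⊥ := by
    rintro rfl
    apply v.ne_bot
    have h1 : v.asIdeal = (⊥ : Ideal (𝓞 L)).under (𝓞 R) := hQo.over
    rw [h1]
    exact Ideal.under_bot _ _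
  let w : HeightOneSpectrum (𝓞 L) := ⟨Q, hQM.isPrime, hQ0⟩
  have : w.asIdeal.LiesOver v.asIdeal := hQo
  have h1 := HeightOneSpectrum.valuation_liesOver L v w α
  rw [ramIdx_eq_one hL v w hv, pow_one] at h1
  rw [h1]
  exact hα w

/-- (iii) -/
theorem isSquare_alpha {K R L : Type} [Field K] [NumberField K] [Field R] [NumberField R]
    [Field L] [NumberField L] [Algebra R L] [IsGalois ℚ L] (φ : Fin 4 → (K →ₐ[ℚ] L))
    (hL : ∀ σ : L ≃ₐ[ℚ] L, (∀ i x, σ (φ i x) = φ i x) → σ = 1) {b : K}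
    (hb : ∀ v : HeightOneSpectrum (𝓞 K), IsSquare (v.valuation K b)) {m : L}
    (hm : φ 0 b * φ 1 b * (φ 2 b * φ 3 b) = m ^ 2) {α : R} (hα0 : α ≠ 0)
    (hα : algebraMap R L α = φ 0 b * φ 1 b + φ 2 b * φ 3 b + 2 * m)
    (v : HeightOneSpectrum (𝓞 R)) (hv : ((discr K : ℤ) : 𝓞 R) ∉ v.asIdeal) :
    IsSquare (v.valuation R α) := by
  refine isSquare_descend (K := K) (L := L) (fun σ hσ => hL σ fun i x => hσ (φ i) x) ?_ v hv
  intro w
  have h1 : algebraMap R L α * (φ 0 b * φ 1 b) = (φ 0 b * φ 1 b + m) ^ 2 := by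
    rw [hα]
    linear_combination hm
  by_cases hb0 : b = 0
  · exfalso
    subst hb0
    have hm0 : m = 0 := by
      have : m ^ 2 = 0 := by
        rw [← hm, map_zero]
        ring
      exact pow_eq_zero_iff (two_ne_zero) |>.1 this
    rw [hm0] at hα
    simp only [map_zero, mul_zero, add_zero] at hα
    exact hα0 ((map_eq_zero _).1 hα)
  · have hc0 : ∀ i, w.valuation L (φ i b) ≠ 0 := fun i =>
      (Valuation.ne_zero_iff _).2 ((map_ne_zero _).2 hb0)
    have h2 := congrArg (w.valuation L) h1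
    rw [map_mul, map_mul, map_pow] at h2
    rw [eq_div_of_mul_eq (mul_ne_zero (hc0 0) (hc0 1)) h2]
    exact (IsSquare.sq _).div ((isSquare_conj hb (φ 0) w).mul (isSquare_conj hb (φ 1) w))

open Sel in
/-- (iii), for the group `Sel` -/
theorem alpha_mem_Sel {K R L : Type} [Field K] [NumberField K] [Field R] [NumberField R]
    [Field L] [NumberField L] [Algebra R L] [IsGalois ℚ L] (φ : Fin 4 → (K →ₐ[ℚ] L))
    (hL : ∀ σ : L ≃ₐ[ℚ] L, (∀ i x, σ (φ i x) = φ i x) → σ = 1) {b : Kˣ} (hb : b ∈ Sel K ∅)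
    {m : L} (hm : φ 0 b * φ 1 b * (φ 2 b * φ 3 b) = m ^ 2) {α : Rˣ}
    (hα : algebraMap R L α = φ 0 b * φ 1 b + φ 2 b * φ 3 b + 2 * m)
    (S : Finset (HeightOneSpectrum (𝓞 R)))
    (hS : ∀ v : HeightOneSpectrum (𝓞 R), ((discr K : ℤ) : 𝓞 R) ∈ v.asIdeal → v ∈ S) :
    α ∈ Sel R S := by
  intro v hv
  have h1 := isSquare_alpha φ hL (b := (b : K)) (fun w => by
      obtain ⟨k, hk⟩ := hb w (Finset.notMem_empty w)
      rw [← w.valuationOfNeZero_eq (K := K) b]
      refine ⟨((Multiplicative.ofAdd k : Multiplicative ℤ) : WithZero (Multiplicative ℤ)), ?_⟩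
      rw [← WithZero.coe_mul, WithZero.coe_inj]
      apply Multiplicative.toAdd.injective
      rw [hk, toAdd_mul, toAdd_ofAdd, two_mul]) hm α.ne_zero hα v (fun h => hv (hS v h))
  obtain ⟨y, hy⟩ := h1
  rw [← v.valuationOfNeZero_eq (K := R) α] at hy
  have hy0 : y ≠ 0 := by
    rintro rfl
    rw [mul_zero] at hy
    exact WithZero.coe_ne_zero hy
  obtain ⟨z, rfl⟩ := WithZero.ne_zero_iff_exists.1 hy0
  rw [← WithZero.coe_mul, WithZero.coe_inj] at hy
  rw [hy, toAdd_mul]
  exact ⟨Multiplicative.toAdd z, by ring⟩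

end Pool.TT.Quartic
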