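import Pool.Agent.Lib.MP_695920_nt.TT.Quartic.Defs
import Pool.Agent.Lib.MP_695920_nt.TT.Quartic.EvenR

/-! TEAM QUARTIC, (iii): `x_0 x_1 + x_2 x_3 + 2 m` has even exponents outside `disc K`. -/

set_option autoImplicit false

namespace Pool.TTQ

open Equiv NumberField Module IsDedekindDomain

variable {K L : Type} [Field K] [NumberField K] [Field L] [NumberField L]

/-- the value as an element of the resolvent field -/
noncomputable def alR (e : Fin 4 ≃ (K →ₐ[ℚ] L)) (b : K) (m : ℚ) : Res e :=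
  ⟨al (cj e b) (algebraMap ℚ L m) 0, al_mem e b m⟩

/-- the Galois closure of `K` in `L` -/
noncomputable def Cl (e : Fin 4 ≃ (K →ₐ[ℚ] L)) : IntermediateField ℚ L :=
  IntermediateField.fixedField (permHom e).ker

theorem mem_ker_permHom (e : Fin 4 ≃ (K →ₐ[ℚ] L)) (σ : L ≃ₐ[ℚ] L) :
    σ ∈ (permHom e).ker ↔ ∀ i x, σ (e i x) = e i x := by
  rw [MonoidHom.mem_ker]
  constructor
  · intro h i x
    rw [← permHom_apply, h]
    rfl
  · intro h
    ext i
    have h1 : e (permHom e σ i) = e i := by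
      ext x
      rw [permHom_apply, h]
    rw [e.injective h1]
    rfl

theorem mem_Cl (e : Fin 4 ≃ (K →ₐ[ℚ] L)) (x : L) : x ∈ Cl e ↔ ∀ σ ∈ (permHom e).ker, σ x = x := by
  unfold Cl
  rw [IntermediateField.mem_fixedField_iff]

theorem emb_mem_Cl (e : Fin 4 ≃ (K →ₐ[ℚ] L)) (i : Fin 4) (x : K) : e i x ∈ Cl e := by
  rw [mem_Cl]
  intro σ hσ
  exact (mem_ker_permHom e σ).1 hσ i x

theorem Res_le_Cl (e : Fin 4 ≃ (K →ₐ[ℚ] L)) : Res e ≤ Cl e := by
  intro x hx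
  rw [mem_Cl]
  intro σ hσ
  rw [mem_Res] at hx
  refine hx σ ?_
  rw [mem_H, MonoidHom.mem_ker.1 hσ, part_one]

/-- the embeddings into the Galois closure -/
noncomputable def emb0 (e : Fin 4 ≃ (K →ₐ[ℚ] L)) (i : Fin 4) : K →ₐ[ℚ] Cl e :=
  (e i).codRestrict (Cl e).toSubalgebra (fun x => emb_mem_Cl e i x)

theorem emb0_val (e : Fin 4 ≃ (K →ₐ[ℚ] L)) (i : Fin 4) (x : K) :
    ((emb0 e i x : Cl e) : L) = e i x := rfl

instance [IsGalois ℚ L] (e : Fin 4 ≃ (K →ₐ[ℚ] L)) : IsGalois ℚ (Cl e) := by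
  have hn : (permHom e).ker.Normal := MonoidHom.normal_ker _
  exact IsGalois.of_fixedField_normal_subgroup (permHom e).ker

/-- `L` may be replaced by the Galois closure -/
theorem Cl_gen [IsGalois ℚ L] (e : Fin 4 ≃ (K →ₐ[ℚ] L)) (σ : Cl e ≃ₐ[ℚ] Cl e)
    (h : ∀ i x, σ (emb0 e i x) = emb0 e i x) : σ = 1 := by
  have h1 : σ.liftNormal L ∈ (permHom e).ker := by
    rw [mem_ker_permHom]
    intro i x
    have h2 := σ.liftNormal_commutes L (emb0 e i x)
    rw [h i x] at h2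
    exact h2
  ext y
  have h3 := (mem_Cl e (y : L)).1 y.2 _ h1
  have h4 := σ.liftNormal_commutes L y
  rw [AlgEquiv.one_apply]
  exact h4.symm.trans h3

/-- Parity. The element `alR e b m * (b_0 b_1)` is the square of `b_0 b_1 + m`, and the Galois
closure of `K` is unramified over the resolvent field outside the discriminant of `K`. -/
theorem even_al_disc [IsGalois ℚ L] (e : Fin 4 ≃ (K →ₐ[ℚ] L)) (hK : finrank ℚ K = 4) {b : K}
    {m : ℚ} (hm : Algebra.norm ℚ b = m ^ 2)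
    (hsq : ∀ v : HeightOneSpectrum (𝓞 K), IsSquare (v.valuation K b))
    (hal : alR e b m ≠ 0) (v : HeightOneSpectrum (𝓞 (Res e)))
    (hv : ((discr K : ℤ) : 𝓞 (Res e)) ∉ v.asIdeal) :
    IsSquare (v.valuation (Res e) (alR e b m)) := by
  let _ : Algebra (Res e) (Cl e) := (IntermediateField.inclusion (Res_le_Cl e)).toAlgebra
  have hn : emb0 e 0 b * emb0 e 1 b * (emb0 e 2 b * emb0 e 3 b) = (algebraMap ℚ (Cl e) m) ^ 2 := by
    apply Subtype.ext
    have h1 := prod_cj e hK b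
    rw [Fin.prod_univ_four, hm, map_pow] at h1
    change e 0 b * e 1 b * (e 2 b * e 3 b) = (algebraMap ℚ L m) ^ 2
    rw [← h1]
    unfold cj
    ring
  refine Pool.TT.Quartic.isSquare_alpha (L := Cl e) (emb0 e) (Cl_gen e) hsq hn hal ?_ v hv
  rfl

/-- the form of the skeleton -/
theorem even_al [IsGalois ℚ L] (e : Fin 4 ≃ (K →ₐ[ℚ] L)) (hK : finrank ℚ K = 4) {b : K}
    (_hb : b ≠ 0) {m : ℚ} (hm : Algebra.norm ℚ b = m ^ 2)
    (hsq : ∀ v : HeightOneSpectrum (𝓞 K), IsSquare (v.valuation K b))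
    (hal : alR e b m ≠ 0) (v : HeightOneSpectrum (𝓞 (Res e)))
    (hv : ((2 * discr K : ℤ) : 𝓞 (Res e)) ∉ v.asIdeal) :
    IsSquare (v.valuation (Res e) (alR e b m)) := by
  refine even_al_disc e hK hm hsq hal v (fun h => hv ?_)
  rw [Int.cast_mul]
  exact Ideal.mul_mem_left _ _ h

/-- the version for the group `Sel` -/
theorem even_al_Sel [IsGalois ℚ L] (e : Fin 4 ≃ (K →ₐ[ℚ] L)) (hK : finrank ℚ K = 4) {b : Kˣ}
    {m : ℚ} (hm : Algebra.norm ℚ (b : K) = m ^ 2) (hb : b ∈ Pool.TT.Sel.Sel K ∅)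
    {α : (Res e)ˣ} (hα : (α : Res e) = alR e b m)
    (S : Finset (HeightOneSpectrum (𝓞 (Res e))))
    (hS : ∀ v : HeightOneSpectrum (𝓞 (Res e)),
      ((discr K : ℤ) : 𝓞 (Res e)) ∈ v.asIdeal → v ∈ S) :
    α ∈ Pool.TT.Sel.Sel (Res e) S := by
  let _ : Algebra (Res e) (Cl e) := (IntermediateField.inclusion (Res_le_Cl e)).toAlgebra
  have hn : emb0 e 0 b * emb0 e 1 b * (emb0 e 2 b * emb0 e 3 b) = (algebraMap ℚ (Cl e) m) ^ 2 := by
    apply Subtype.ext
    have h1 := prod_cj e hK (b : K)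
    rw [Fin.prod_univ_four, hm, map_pow] at h1
    change e 0 b * e 1 b * (e 2 b * e 3 b) = (algebraMap ℚ L m) ^ 2
    rw [← h1]
    unfold cj
    ring
  refine Pool.TT.Quartic.alpha_mem_Sel (L := Cl e) (emb0 e) (Cl_gen e) hb hn ?_ S hS
  rw [hα]
  rfl

end Pool.TTQ
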