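import Pool.Agent.Lib.MP_695920_nt.TT.Quartic.CaseTwo

/-! TEAM QUARTIC, case II: quartic fields with a quadratic subfield. -/

set_option autoImplicit false

namespace Pool.TTQ

open NumberField Module IsDedekindDomain

/-- case II -/
theorem case_two {ε : ℝ} (hε : 0 < ε) : ∃ C : ℝ, 0 < C ∧
    ∀ (K : Type) [Field K] [NumberField K], finrank ℚ K = 4 →
      (∃ F : IntermediateField ℚ K, finrank ℚ F = 2) →
      (Nat.card {c : ClassGroup (𝓞 K) // c ^ 2 = 1} : ℝ) ≤ C * |(discr K : ℝ)| ^ ε := by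
  obtain ⟨C, hC, h⟩ := Pool.TT.Quartic.case_two ε hε
  refine ⟨C, hC, fun K _ _ hK hF => ?_⟩
  obtain ⟨F, hF⟩ := hF
  exact h K F hK hF

end Pool.TTQ
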