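import Mathlib

/-!
Descent of a square class from the Galois closure: a family `S i j` (`i`, `j` embeddings of `K`
into the Galois extension `L`) which behaves like `sqrt (B_i B_j)` makes `B` a rational number
times a square.
-/

namespace Pool.TT.Quartic

section descend

variable {K L : Type} [Field K] [Field L] [Algebra ℚ K] [Algebra ℚ L]
  [FiniteDimensional ℚ K] [FiniteDimensional ℚ L] [IsGalois ℚ L]

/-- an element fixed by all automorphisms which fix the embedding `i` is in the image of `i` -/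
theorem mem_range_of_fixed (i : K →ₐ[ℚ] L) (x : L)
    (h : ∀ g : L ≃ₐ[ℚ] L, (g : L →ₐ[ℚ] L).comp i = i → g x = x) : ∃ t : K, i t = x := by
  have hx : x ∈ IntermediateField.fixedField (i.fieldRange.fixingSubgroup) := by
    rw [IntermediateField.mem_fixedField_iff]
    intro g hg
    apply h
    ext y
    exact (IntermediateField.mem_fixingSubgroup_iff _ _).1 hg (i y) ⟨y, rfl⟩
  rw [IsGalois.fixedField_fixingSubgroup] at hx
  obtain ⟨t, ht⟩ := hx
  exact ⟨t, ht⟩

/-- the descent lemma -/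
theorem descend (B : K) (hB : B ≠ 0) (i0 : K →ₐ[ℚ] L)
    (S : (K →ₐ[ℚ] L) → (K →ₐ[ℚ] L) → L)
    (hd : ∀ i, S i i = i B) (hm : ∀ i j k, S i j * S i k = i B * S j k)
    (hg : ∀ (g : L ≃ₐ[ℚ] L) (i j : K →ₐ[ℚ] L),
      g (S i j) = S ((g : L →ₐ[ℚ] L).comp i) ((g : L →ₐ[ℚ] L).comp j)) :
    ∃ (t : K) (q : ℚ), t ≠ 0 ∧ q ≠ 0 ∧ t ^ 2 = algebraMap ℚ K q * B := by
  classical
  -- the action on the embeddings
  have hbij : ∀ g : L ≃ₐ[ℚ] L, Function.Bijective
      (fun j : K →ₐ[ℚ] L => (g : L →ₐ[ℚ] L).comp j) := by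
    intro g
    apply Finite.injective_iff_bijective.1
    intro j k hjk
    ext y
    have := congrArg (fun f : K →ₐ[ℚ] L => f y) hjk
    simpa using this
  -- a nonzero value
  have hex : ∃ γ : K, ∑ j : K →ₐ[ℚ] L, S i0 j * j γ ≠ 0 := by
    by_contra hc
    push Not at hc
    have hli := linearIndependent_toLinearMap ℚ K L
    have h0 := Fintype.linearIndependent_iff.1 hli (fun j => S i0 j) (by
      ext γ
      have := hc γ
      simpa [LinearMap.sum_apply] using this)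
    have h1 := h0 i0
    rw [hd] at h1
    exact hB ((map_eq_zero i0).1 h1)
  obtain ⟨γ, hγ⟩ := hex
  set T : L := ∑ j : K →ₐ[ℚ] L, S i0 j * j γ with hT
  set Q : L := ∑ j : K →ₐ[ℚ] L, ∑ k : K →ₐ[ℚ] L, S j k * (j γ * k γ) with hQ
  have hT2 : T ^ 2 = i0 B * Q := by
    rw [sq, hT, hQ, Finset.sum_mul_sum, Finset.mul_sum]
    refine Finset.sum_congr rfl fun j _ => ?_
    rw [Finset.mul_sum]
    refine Finset.sum_congr rfl fun k _ => ?_
    have := hm i0 j k
    calc S i0 j * j γ * (S i0 k * k γ) = (S i0 j * S i0 k) * (j γ * k γ) := by ring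
      _ = i0 B * (S j k * (j γ * k γ)) := by rw [this]; ring
  -- `T` is in the image of `i0`
  obtain ⟨t, ht⟩ := mem_range_of_fixed i0 T (by
    intro g hgi
    rw [hT, map_sum]
    have h1 : ∀ j : K →ₐ[ℚ] L, g (S i0 j * j γ) =
        (fun k : K →ₐ[ℚ] L => S i0 k * k γ) ((g : L →ₐ[ℚ] L).comp j) := by
      intro j
      rw [map_mul, hg, hgi]
      rfl
    rw [Finset.sum_congr rfl fun j _ => h1 j]
    exact (hbij g).sum_comp (fun k : K →ₐ[ℚ] L => S i0 k * k γ))
  -- `Q` is rational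
  have hQr : Q ∈ Set.range (algebraMap ℚ L) := by
    rw [IsGalois.mem_range_algebraMap_iff_fixed]
    intro g
    rw [hQ, map_sum]
    have h1 : ∀ j : K →ₐ[ℚ] L, g (∑ k : K →ₐ[ℚ] L, S j k * (j γ * k γ)) =
        (fun j' : K →ₐ[ℚ] L => ∑ k : K →ₐ[ℚ] L, S j' k * (j' γ * k γ))
          ((g : L →ₐ[ℚ] L).comp j) := by
      intro j
      rw [map_sum]
      have h2 : ∀ k : K →ₐ[ℚ] L, g (S j k * (j γ * k γ)) =
          (fun k' : K →ₐ[ℚ] L => S ((g : L →ₐ[ℚ] L).comp j) k' *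
            (((g : L →ₐ[ℚ] L).comp j) γ * k' γ)) ((g : L →ₐ[ℚ] L).comp k) := by
        intro k
        rw [map_mul, map_mul, hg]
        rfl
      rw [Finset.sum_congr rfl fun k _ => h2 k]
      exact (hbij g).sum_comp (fun k' : K →ₐ[ℚ] L => S ((g : L →ₐ[ℚ] L).comp j) k' *
            (((g : L →ₐ[ℚ] L).comp j) γ * k' γ))
    rw [Finset.sum_congr rfl fun j _ => h1 j]
    exact (hbij g).sum_comp (fun j' : K →ₐ[ℚ] L =>
      ∑ k : K →ₐ[ℚ] L, S j' k * (j' γ * k γ))
  obtain ⟨q, hq⟩ := hQr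
  refine ⟨t, q, ?_, ?_, ?_⟩
  · rintro rfl
    rw [map_zero] at ht
    exact hγ ht.symm
  · rintro rfl
    rw [map_zero] at hq
    rw [← hq, mul_zero] at hT2
    exact hγ (pow_eq_zero_iff (two_ne_zero) |>.1 hT2)
  · have hinj : Function.Injective i0 := RingHom.injective (i0 : K →+* L)
    apply hinj
    rw [map_pow, ht, hT2, ← hq, map_mul, AlgHom.commutes]
    ring

end descend

end Pool.TT.Quartic
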