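import Pool.Agent.Lib.MP_695920_nt.TT.Quartic.Defs
import Pool.Agent.Lib.MP_695920_nt.TT.Quartic.QDescend

/-! TEAM QUARTIC: not transitive on the pairings, then there is a quadratic subfield. -/

set_option autoImplicit false

namespace Pool.TTQ

open Equiv NumberField Module

variable {K L : Type} [Field K] [NumberField K] [Field L] [NumberField L]

/-- the subfield on which two embeddings agree -/
def eqF (f g : K →ₐ[ℚ] L) : IntermediateField ℚ K :=
  (AlgHom.equalizer f g).toIntermediateField fun x hx => by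
    rw [AlgHom.mem_equalizer] at hx ⊢
    rw [map_inv₀, map_inv₀, hx]

theorem mem_eqF (f g : K →ₐ[ℚ] L) (x : K) : x ∈ eqF f g ↔ f x = g x := Iff.rfl

/-- transitivity on the embeddings -/
theorem exists_perm [IsGalois ℚ L] (e : Fin 4 ≃ (K →ₐ[ℚ] L)) (i j : Fin 4) :
    ∃ σ : L ≃ₐ[ℚ] L, permHom e σ i = j := by
  obtain ⟨θ, hθ⟩ := Field.exists_primitive_element ℚ K
  have h1 : minpoly ℚ (e j θ) = minpoly ℚ (e i θ) := by
    rw [minpoly.algHom_eq _ (e j).injective, minpoly.algHom_eq _ (e i).injective]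
  obtain ⟨σ, hσ⟩ := (Normal.minpoly_eq_iff_mem_orbit L).1 h1
  refine ⟨σ, ?_⟩
  apply e.injective
  have hmem : θ ∈ eqF (e (permHom e σ i)) (e j) := by
    rw [mem_eqF, permHom_apply]
    exact hσ
  have htop : (⊤ : IntermediateField ℚ K) ≤ eqF (e (permHom e σ i)) (e j) := by
    rw [← hθ, IntermediateField.adjoin_simple_le_iff]
    exact hmem
  ext x
  exact (mem_eqF _ _ x).1 (htop IntermediateField.mem_top)

/-- a fixed pairing -/
theorem exists_fixed_pairing (e : Fin 4 ≃ (K →ₐ[ℚ] L)) (hntr : ¬ Trans e) :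
    ∃ P : Fin 3, ∀ σ : L ≃ₐ[ℚ] L, part (permHom e σ) P = P := by
  unfold Trans at hntr
  push Not at hntr
  obtain ⟨P, hP⟩ := hntr
  have hinv : ∀ (σ : L ≃ₐ[ℚ] L) (Q : Fin 3),
      part (permHom e σ⁻¹) (part (permHom e σ) Q) = Q := by
    intro σ Q
    rw [← part_mul, ← map_mul, inv_mul_cancel, map_one, part_one]
  by_cases h0 : ∀ σ : L ≃ₐ[ℚ] L, part (permHom e σ) 0 = 0
  · exact ⟨0, h0⟩
  push Not at h0
  obtain ⟨σ₀, hσ₀⟩ := h0
  refine ⟨P, fun σ => ?_⟩
  have hP0 : P ≠ 0 := by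
    intro h
    have h1 := hP 1
    rw [map_one, part_one, h] at h1
    exact h1 rfl
  have hQP := hP σ₀
  by_contra hne
  have key : ∀ a b c : Fin 3, a ≠ 0 → b ≠ 0 → b ≠ a → c ≠ a → c = 0 ∨ c = b := by decide
  rcases key P (part (permHom e σ₀) 0) (part (permHom e σ) P) hP0 hσ₀ hQP hne with h1 | h1
  · have h2 := hinv σ P
    rw [h1] at h2
    exact hP σ⁻¹ h2
  · have h2 := hinv σ P
    rw [h1, ← part_mul, ← map_mul] at h2
    exact hP (σ⁻¹ * σ₀) h2

/-- Proof: the orbits on the three pairings have sizes `2, 1` or `1, 1, 1`, so some pairing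
`P = {0 j | k l}` is fixed; the subfield `F` on which `e 0` and `e j` agree is not `K`; it is not `ℚ`,
because `e 0 y + e j y = e 0 x` with `x ∈ F` for every `y`, and `e 0 y + e j y = e k y + e l y` for all
`y` is impossible (independence of characters). -/
theorem exists_quadratic [IsGalois ℚ L] (e : Fin 4 ≃ (K →ₐ[ℚ] L)) (hK : finrank ℚ K = 4)
    (hntr : ¬ Trans e) : ∃ F : IntermediateField ℚ K, finrank ℚ F = 2 := by
  classical
  obtain ⟨P, hP⟩ := exists_fixed_pairing e hntr
  have pf0 : ∀ (P : Fin 3) (i : Fin 4), 0 ≠ i → pairIdx 0 i = P → i = pb P := by decide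
  have pf1 : ∀ (P : Fin 3) (i : Fin 4), pb P ≠ i → pairIdx (pb P) i = P → i = 0 := by decide
  have pf2 : ∀ (P : Fin 3) (i : Fin 4), pc P ≠ i → pairIdx (pc P) i = P → i = pd P := by decide
  have hpair : ∀ σ : L ≃ₐ[ℚ] L, pairIdx (permHom e σ 0) (permHom e σ (pb P)) = P := fun σ =>
    hP σ
  have hne : ∀ σ : L ≃ₐ[ℚ] L, permHom e σ 0 ≠ permHom e σ (pb P) := fun σ h =>
    pairIdx_ne P ((permHom e σ).injective h)
  have f0 : ∀ σ : L ≃ₐ[ℚ] L, permHom e σ 0 = 0 → permHom e σ (pb P) = pb P := by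
    intro σ h
    have h1 := hpair σ
    have h2 := hne σ
    rw [h] at h1 h2
    exact pf0 P _ h2 h1
  have f1 : ∀ σ : L ≃ₐ[ℚ] L, permHom e σ 0 = pb P → permHom e σ (pb P) = 0 := by
    intro σ h
    have h1 := hpair σ
    have h2 := hne σ
    rw [h] at h1 h2
    exact pf1 P _ h2 h1
  have f2 : ∀ σ : L ≃ₐ[ℚ] L, permHom e σ 0 = pc P → permHom e σ (pb P) = pd P := by
    intro σ h
    have h1 := hpair σ
    have h2 := hne σ
    rw [h] at h1 h2
    exact pf2 P _ h2 h1
  obtain ⟨σ₁, hσ₁⟩ := exists_perm e 0 (pb P)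
  obtain ⟨σ₂, hσ₂⟩ := exists_perm e 0 (pc P)
  refine ⟨eqF (e 0) (e (pb P)), ?_⟩
  -- not everything
  have htop : eqF (e 0) (e (pb P)) ≠ ⊤ := by
    intro h
    apply pairIdx_ne P
    apply e.injective
    ext x
    have hx : x ∈ eqF (e 0) (e (pb P)) := by
      rw [h]
      exact IntermediateField.mem_top
    exact hx
  -- the sums
  have hsum : ∀ y : K, ∃ x ∈ eqF (e 0) (e (pb P)), e 0 x = e 0 y + e (pb P) y := by
    intro y
    obtain ⟨x, hx⟩ := Pool.TT.Quartic.mem_range_of_fixed (e 0) (e 0 y + e (pb P) y) (by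
      intro g hg
      have hg0 : permHom e g 0 = 0 := by
        apply e.injective
        ext z
        rw [permHom_apply]
        exact congrArg (fun f : K →ₐ[ℚ] L => f z) hg
      rw [map_add, ← permHom_apply, ← permHom_apply, hg0, f0 g hg0])
    refine ⟨x, ?_, hx⟩
    rw [mem_eqF]
    have h1 : e (pb P) x = σ₁ (e 0 x) := by rw [← permHom_apply, hσ₁]
    rw [h1, hx, map_add, ← permHom_apply, ← permHom_apply, hσ₁, f1 σ₁ hσ₁, add_comm]
  have hbot : eqF (e 0) (e (pb P)) ≠ ⊥ := by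
    intro h
    have hrel : ∀ y : K, e 0 y + e (pb P) y = e (pc P) y + e (pd P) y := by
      intro y
      obtain ⟨x, hxF, hx⟩ := hsum y
      rw [h, IntermediateField.mem_bot] at hxF
      obtain ⟨q, rfl⟩ := hxF
      have h1 : σ₂ (e 0 (algebraMap ℚ K q)) = e 0 (algebraMap ℚ K q) := by
        rw [AlgHom.commutes, AlgEquiv.commutes]
      rw [← hx, ← h1, hx, map_add, ← permHom_apply, ← permHom_apply, hσ₂, f2 σ₂ hσ₂]
    have hli := linearIndependent_toLinearMap ℚ K L
    have h0 := Fintype.linearIndependent_iff.1 hli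
      (fun f => if f = e 0 ∨ f = e (pb P) then 1 else -1) (by
        ext y
        have h1 := hrel y
        rw [← Equiv.sum_comp e]
        simp only [LinearMap.sum_apply, LinearMap.smul_apply, AlgHom.toLinearMap_apply,
          smul_eq_mul, e.injective.eq_iff, LinearMap.zero_apply]
        rw [Fin.sum_univ_four]
        fin_cases P <;>
        · simp [pb, pc, pd] at h1 ⊢
          linear_combination h1)
    have h2 := h0 (e 0)
    simp at h2
  have hmul := finrank_mul_finrank ℚ (eqF (e 0) (e (pb P))) K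
  rw [hK] at hmul
  have h1 : finrank ℚ (eqF (e 0) (e (pb P))) ≠ 1 := by
    intro h
    exact hbot (IntermediateField.finrank_eq_one_iff.1 h)
  have h4 : finrank ℚ (eqF (e 0) (e (pb P))) ≠ 4 := by
    intro h
    apply htop
    apply IntermediateField.eq_of_le_of_finrank_eq le_top
    rw [IntermediateField.finrank_top', hK, h]
  have hdvd : finrank ℚ (eqF (e 0) (e (pb P))) ∣ 4 := ⟨_, hmul.symm⟩
  have hle := Nat.le_of_dvd (by norm_num) hdvd
  interval_cases h : finrank ℚ (eqF (e 0) (e (pb P)))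
  · omega
  · exact absurd rfl h1
  · rfl
  · omega
  · exact absurd rfl h4

end Pool.TTQ
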