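import Pool.Agent.Lib.MP_695920_nt.TT.Quartic.Count
import Pool.Agent.Lib.MP_695920_nt.TT.Quartic.Disc
import Pool.Agent.Lib.MP_695920_nt.TT.Quartic.Sub
import Pool.Agent.Lib.MP_695920_nt.TT.Quartic.Quad

/-! TEAM QUARTIC: quartic fields from cubic fields. -/

set_option autoImplicit false

namespace Pool.TTQ

open NumberField Module

/-- a bound for 2-torsion in degree `n` -/
def Bd (n : ℕ) (θ : ℝ) : Prop := ∀ ε : ℝ, 0 < ε → ∃ C : ℝ, 0 < C ∧
  ∀ (K : Type) [Field K] [NumberField K], finrank ℚ K = n →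
    (Nat.card {x : ClassGroup (𝓞 K) // x ^ 2 = 1} : ℝ) ≤ C * |(discr K : ℝ)| ^ (θ + ε)

/-- the exponent for cubic fields holds for quartic fields -/
theorem quartic_of_cubic {θ : ℝ} (hθ : 0 ≤ θ) (h : Bd 3 θ) : Bd 4 θ := by
  intro ε hε
  obtain ⟨C₁, hC₁, h₁⟩ := case_one (ε := ε / 2) (by linarith)
  obtain ⟨C₂, hC₂, h₂⟩ := case_two (ε := ε) hε
  obtain ⟨C₃, hC₃, h₃⟩ := h (ε / 2) (by linarith)
  refine ⟨max (C₁ * C₃) C₂, lt_max_of_lt_right hC₂, fun K _ _ hK => ?_⟩
  have hD : (1 : ℝ) ≤ |(discr K : ℝ)| := by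
    have : (1 : ℤ) ≤ |discr K| := Int.one_le_abs (NumberField.discr_ne_zero K)
    exact_mod_cast this
  have hD0 : (0 : ℝ) < |(discr K : ℝ)| := by linarith
  obtain ⟨L, _, _, _, ⟨e⟩⟩ := exists_data K hK
  by_cases htr : Trans e
  · have hR : finrank ℚ (Res e) = 3 := finrank_Res e htr
    have h3 := h₃ (Res e) hR
    have h1 := h₁ K L e hK htr
    have hdvd : |(discr (Res e) : ℝ)| ≤ |(discr K : ℝ)| := by
      have h4 := Int.le_of_dvd (abs_pos.2 (NumberField.discr_ne_zero K))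
        ((abs_dvd_abs _ _).2 (discr_Res_dvd e hK htr))
      exact_mod_cast h4
    calc (Nat.card {x : ClassGroup (𝓞 K) // x ^ 2 = 1} : ℝ)
        ≤ C₁ * |(discr K : ℝ)| ^ (ε / 2) *
          (Nat.card {c : ClassGroup (𝓞 (Res e)) // c ^ 2 = 1} : ℝ) := h1
      _ ≤ C₁ * |(discr K : ℝ)| ^ (ε / 2) * (C₃ * |(discr (Res e) : ℝ)| ^ (θ + ε / 2)) := by
          apply mul_le_mul_of_nonneg_left h3
          positivity
      _ ≤ C₁ * |(discr K : ℝ)| ^ (ε / 2) * (C₃ * |(discr K : ℝ)| ^ (θ + ε / 2)) := by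
          apply mul_le_mul_of_nonneg_left _ (by positivity)
          apply mul_le_mul_of_nonneg_left _ hC₃.le
          exact Real.rpow_le_rpow (abs_nonneg _) hdvd (by linarith)
      _ = C₁ * C₃ * |(discr K : ℝ)| ^ (θ + ε) := by
          have h5 : |(discr K : ℝ)| ^ (θ + ε) =
              |(discr K : ℝ)| ^ (ε / 2) * |(discr K : ℝ)| ^ (θ + ε / 2) := by
            rw [← Real.rpow_add hD0]
            congr 1
            ring
          rw [h5]
          ring
      _ ≤ max (C₁ * C₃) C₂ * |(discr K : ℝ)| ^ (θ + ε) := by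
          apply mul_le_mul_of_nonneg_right (le_max_left _ _) (by positivity)
  · calc (Nat.card {x : ClassGroup (𝓞 K) // x ^ 2 = 1} : ℝ)
        ≤ C₂ * |(discr K : ℝ)| ^ ε := h₂ K hK (exists_quadratic e hK htr)
      _ ≤ max (C₁ * C₃) C₂ * |(discr K : ℝ)| ^ (θ + ε) := by
          apply mul_le_mul (le_max_right _ _) _ (by positivity) (by positivity)
          exact Real.rpow_le_rpow_of_exponent_le hD (by linarith)

end Pool.TTQ
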