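import Mathlib

set_option autoImplicit false

/-!
TEAM QUARTIC, (i) and (ii): the elementary identities of `A = u + v + 2 m`, `u v = m ^ 2`
(`u = b_i b_j`, `v = b_k b_l`).
-/

namespace Pool.TT.Quartic

/-- (ii): cocycle identity -/
theorem a_mul {L : Type*} [CommRing L] {u v m u' v' m' : L} (h : u * v = m ^ 2)
    (h' : u' * v' = m' ^ 2) :
    (u + v + 2 * m) * (u' + v' + 2 * m') * (u * u' + v * v' + 2 * (m * m')) =
      (u * u' + v * v' + 2 * m * m' + (u + v) * m' + (u' + v') * m) ^ 2 := by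
  linear_combination (u' ^ 2 + v' ^ 2 - 2 * m' ^ 2) * h + (u ^ 2 + v ^ 2 - 2 * m ^ 2) * h'

/-- (ii): a square factor -/
theorem a_sq {L : Type*} [CommRing L] {u v m p q : L} (h : u * v = m ^ 2) :
    (p ^ 2 * u + q ^ 2 * v + 2 * (p * q * m)) * (u + v + 2 * m) =
      (p * u + q * v + (p + q) * m) ^ 2 := by
  linear_combination (p - q) ^ 2 * h

/-- `(A_m) (A_{-m}) = (u - v) ^ 2` -/
theorem a_neg {L : Type*} [CommRing L] {u v m : L} (h : u * v = m ^ 2) :
    (u + v + 2 * m) * (u + v + 2 * (-m)) = (u - v) ^ 2 := by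
  linear_combination 4 * h

/-- `A * u = (u + m) ^ 2` -/
theorem a_u {L : Type*} [CommRing L] {u v m : L} (h : u * v = m ^ 2) :
    (u + v + 2 * m) * u = (u + m) ^ 2 := by
  linear_combination h

/-- `A = 0` forces `u = v = -m` -/
theorem a_zero {L : Type*} [CommRing L] [IsDomain L] {u v m : L} (h : u * v = m ^ 2)
    (h0 : u + v + 2 * m = 0) : u = -m ∧ v = -m := by
  have h1 : (u + m) ^ 2 = 0 := by rw [← a_u h, h0, zero_mul]
  have h2 : u + m = 0 := pow_eq_zero_iff (two_ne_zero) |>.mp h1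
  constructor
  · linear_combination h2
  · linear_combination h0 - h2

end Pool.TT.Quartic
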