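import Pool.Agent.Lib.MP_695920_nt.TT.Quartic.Indep0

set_option autoImplicit false

/-!
TEAM QUARTIC (MP_695920_nt): for every prime `p` there are algebraic integers `x, y` in a quartic
field such that `1, x, y, x y` are linearly independent modulo `p` (helper90).
-/

open NumberField Module Ideal

namespace Pool.TT.Quartic

variable {K : Type} [Field K] [NumberField K]

/-- a prime of norm `p` and a prime power of norm `p ^ 3` -/
theorem indep_of_three_one {p : ℕ} (hp : p.Prime) {P Q : Ideal (𝓞 K)} (hP : P.IsPrime)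
    (hP0 : P ≠ ⊥) {e f : ℕ} (hQ : Q ≠ ⊤) (hfac : span {(p : 𝓞 K)} = P ^ e * Q)
    (hcop : IsCoprime (P ^ e) Q) (hN : absNorm P = p ^ f) (hef : f * e = 3) :
    Indep K p := by
  have he0 : e ≠ 0 := by
    rintro rfl
    omega
  have hpPQ : (p : 𝓞 K) ∈ P ^ e * Q := by
    rw [← hfac]
    exact mem_span_singleton_self _
  have hle' : P ^ e * Q ≤ P ^ e := Ideal.mul_le_left
  have hle'' : P ^ e * Q ≤ Q := Ideal.mul_le_right
  have hpe : (p : 𝓞 K) ∈ P ^ e := hle' hpPQ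
  have hpQ : (p : 𝓞 K) ∈ Q := hle'' hpPQ
  have hpP : (p : 𝓞 K) ∈ P := Ideal.pow_le_self he0 hpe
  have hmax : P.IsMaximal := hP.isMaximal hP0
  have hne : P ≠ ⊤ := hP.ne_top
  have hle1 : P ^ e ≤ P := Ideal.pow_le_self he0
  have hmul : ∀ a : ℤ, (p : ℤ) ∣ a → ∀ z : 𝓞 K, (a : 𝓞 K) * z ∈ P ^ e := by
    rintro a ⟨a', rfl⟩ z
    push_cast
    rw [mul_assoc]
    exact (P ^ e).mul_mem_right _ hpe
  obtain ⟨s, hsP, hs⟩ := exists_unit_gen hp hP hP0 hpe hN hef
  obtain ⟨i, hi, j, hj, hij⟩ := Ideal.isCoprime_iff_exists.1 hcop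
  -- `j` is `1` modulo `P ^ e` and `0` modulo `Q`
  refine ⟨j * s, j * s ^ 2, fun a b c d h => ?_⟩
  have hle : ∀ z : 𝓞 K, (p : 𝓞 K) ∣ z → z ∈ P ^ e ∧ z ∈ Q := by
    rintro z ⟨w, rfl⟩
    exact ⟨(P ^ e).mul_mem_right _ hpe, Q.mul_mem_right _ hpQ⟩
  obtain ⟨h1, h2⟩ := hle _ h
  have ha : (p : ℤ) ∣ a := by
    refine int_dvd hp hQ hpQ ?_
    have : (a : 𝓞 K) = ((a : 𝓞 K) + b * (j * s) + c * (j * s ^ 2) + d * (j * s * (j * s ^ 2))) -
        (b * s + c * s ^ 2 + d * s * (j * s ^ 2)) * j := by ring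
    rw [this]
    exact Q.sub_mem h2 (Q.mul_mem_left _ hj)
  -- modulo `P ^ e`: `s (b + c s + d s ^ 2)`
  have h3 : s * ((b : 𝓞 K) + c * s + d * s ^ 2) ∈ P ^ e := by
    have hj' : j = 1 - i := by rw [← hij]; ring
    have : s * ((b : 𝓞 K) + c * s + d * s ^ 2) =
        ((a : 𝓞 K) + b * (j * s) + c * (j * s ^ 2) + d * (j * s * (j * s ^ 2))) - a * 1 +
        (b * s + c * s ^ 2 + d * s ^ 3 * (1 + j)) * i := by
      rw [hj']
      ring
    rw [this]
    exact (P ^ e).add_mem ((P ^ e).sub_mem h1 (hmul a ha 1)) ((P ^ e).mul_mem_left _ hi)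
  have h4 : (b : 𝓞 K) + c * s + d * s ^ 2 ∈ P ^ e := by
    rw [mul_comm] at h3
    have hprime : Prime P := Ideal.prime_of_isPrime hP0 hP
    have h5 : P ^ e ∣ span {(b : 𝓞 K) + c * s + d * s ^ 2} * span {s} := by
      rw [span_singleton_mul_span_singleton]
      exact Ideal.dvd_span_singleton.2 h3
    have h6 : ¬ P ∣ span {s} := fun h7 => hsP (Ideal.dvd_span_singleton.1 h7)
    exact Ideal.dvd_span_singleton.1 (hprime.pow_dvd_of_dvd_mul_right e h6 h5)
  obtain ⟨hb, hc, hd⟩ := hs b c d h4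
  exact ⟨ha, hb, hc, hd⟩

/-- splitting off a prime -/
theorem exists_split {I : Ideal (𝓞 K)} (hI : I ≠ ⊥) {P : Ideal (𝓞 K)} (hP : P.IsPrime)
    (hP0 : P ≠ ⊥) (hIP : I ≤ P) : ∃ (e : ℕ) (J : Ideal (𝓞 K)), e ≠ 0 ∧ I = P ^ e * J ∧
      IsCoprime (P ^ e) J := by
  have hprime : Prime P := Ideal.prime_of_isPrime hP0 hP
  have hfm : FiniteMultiplicity P I := FiniteMultiplicity.of_prime_left hprime hI
  obtain ⟨J, hJ1, hJ2⟩ := hfm.exists_eq_pow_mul_and_not_dvd
  refine ⟨multiplicity P I, J, ?_, hJ1, ?_⟩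
  · intro h0
    rw [h0, pow_zero, one_mul] at hJ1
    rw [← hJ1] at hJ2
    exact hJ2 (Ideal.dvd_iff_le.2 hIP)
  · apply IsCoprime.pow_left
    rw [Ideal.isCoprime_iff_sup_eq]
    have hmax : P.IsMaximal := hP.isMaximal hP0
    by_contra hcon
    have h1 : P = P ⊔ J := hmax.eq_of_le hcon le_sup_left
    have h2 : J ≤ P := by
      rw [h1]
      exact le_sup_right
    exact hJ2 (Ideal.dvd_iff_le.2 h2)

/-- the norms -/
theorem norm_split {p : ℕ} (hp : p.Prime) {P J : Ideal (𝓞 K)} (hP : P.IsPrime) {e k : ℕ}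
    (he : e ≠ 0) (h : absNorm (P ^ e * J) = p ^ k) :
    ∃ f g : ℕ, 1 ≤ f ∧ absNorm P = p ^ f ∧ absNorm J = p ^ g ∧ f * e + g = k := by
  rw [map_mul, map_pow] at h
  have h1 : absNorm P ∣ p ^ k := by
    rw [← h]
    exact (dvd_pow_self _ he).mul_right _
  have h2 : absNorm J ∣ p ^ k := by
    rw [← h]
    exact dvd_mul_left _ _
  obtain ⟨f, -, hf⟩ := (Nat.dvd_prime_pow hp).1 h1
  obtain ⟨g, -, hg⟩ := (Nat.dvd_prime_pow hp).1 h2
  refine ⟨f, g, ?_, hf, hg, ?_⟩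
  · rw [Nat.one_le_iff_ne_zero]
    rintro rfl
    rw [pow_zero, absNorm_eq_one_iff] at hf
    exact hP.ne_top hf
  · rw [hf, hg, ← pow_mul, ← pow_add] at h
    exact Nat.pow_right_injective hp.two_le h

/-- **Independence modulo `p`.** -/
theorem exists_indep (K : Type) [Field K] [NumberField K] (h4 : finrank ℚ K = 4) (p : ℕ)
    (hp : p.Prime) : ∃ x y : 𝓞 K, ∀ a b c d : ℤ,
      (p : 𝓞 K) ∣ (a : 𝓞 K) + b * x + c * y + d * (x * y) →
      (p : ℤ) ∣ a ∧ (p : ℤ) ∣ b ∧ (p : ℤ) ∣ c ∧ (p : ℤ) ∣ d := by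
  show Indep K p
  have hNp : absNorm (span {(p : 𝓞 K)}) = p ^ 4 := by
    rw [Ideal.absNorm_span_natCast, RingOfIntegers.rank, h4]
  have hp0 : (p : 𝓞 K) ≠ 0 := by exact_mod_cast hp.ne_zero
  have hspan0 : span {(p : 𝓞 K)} ≠ ⊥ := by
    rw [Ne, span_singleton_eq_bot]
    exact hp0
  have hne1 : ∀ k : ℕ, 1 ≤ k → p ^ k ≠ 1 := fun k hk =>
    (Nat.one_lt_pow (by omega) hp.one_lt).ne'
  have hspan1 : span {(p : 𝓞 K)} ≠ ⊤ := by
    intro h
    rw [← absNorm_eq_one_iff, hNp] at h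
    exact hne1 4 (by norm_num) h
  have hsq : p < p ^ 2 := by
    calc p = p ^ 1 := (pow_one p).symm
      _ < p ^ 2 := Nat.pow_lt_pow_right hp.one_lt (by norm_num)
  obtain ⟨P, hPmax, hPle⟩ := Ideal.exists_le_maximal _ hspan1
  have hP : P.IsPrime := hPmax.isPrime
  have hpP : (p : 𝓞 K) ∈ P := hPle (mem_span_singleton_self _)
  have hP0 : P ≠ ⊥ := by
    rintro rfl
    exact hp0 ((Submodule.mem_bot _).1 hpP)
  obtain ⟨e, J, he, hfac, hcop⟩ := exists_split hspan0 hP hP0 hPle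
  have hJ0 : J ≠ ⊥ := by
    rintro rfl
    rw [Ideal.mul_bot] at hfac
    exact hspan0 hfac
  obtain ⟨f, g, hf1, hNP, hNJ, hsum⟩ := norm_split hp hP he (by rw [← hfac]; exact hNp)
  have hmem : (p : 𝓞 K) ∈ P ^ e * J := by
    rw [← hfac]
    exact mem_span_singleton_self _
  have hle1 : P ^ e * J ≤ P ^ e := Ideal.mul_le_left
  have hle2 : P ^ e * J ≤ J := Ideal.mul_le_right
  have hg : g ≤ 3 := by
    have : 1 ≤ f * e := Nat.mul_pos hf1 (Nat.pos_of_ne_zero he)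
    omega
  have hg' : g = 0 ∨ g = 1 ∨ g = 2 ∨ g = 3 := by omega
  rcases hg' with h | h | h | h
  · subst h
    rw [pow_zero, absNorm_eq_one_iff] at hNJ
    rw [hNJ, Ideal.mul_top] at hfac
    exact indep_of_pow hp hP hP0 hfac hNP (by omega)
  · subst h
    refine indep_of_three_one hp hP hP0 (fun h => ?_) hfac hcop hNP (by omega)
    rw [← absNorm_eq_one_iff, hNJ] at h
    exact hne1 1 le_rfl h
  · subst h
    refine indep_of_coprime hp hcop (hle1 hmem) (hle2 hmem) ?_ ?_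
    · rw [map_pow, hNP, ← pow_mul, show f * e = 2 by omega]
      exact hsq
    · rw [hNJ]
      exact hsq
  · subst h
    have hfe : f * e = 1 := by omega
    have hfe' : f = 1 ∧ e = 1 := ⟨Nat.eq_one_of_mul_eq_one_right hfe, Nat.eq_one_of_mul_eq_one_left hfe⟩
    obtain ⟨rfl, rfl⟩ := hfe'
    rw [pow_one] at hfac hcop hle1 hle2 hmem
    rw [pow_one] at hNP
    have hJ1 : J ≠ ⊤ := by
      intro h
      rw [← absNorm_eq_one_iff, hNJ] at h
      exact hne1 3 (by norm_num) h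
    obtain ⟨Q, hQmax, hQle⟩ := Ideal.exists_le_maximal _ hJ1
    have hQ : Q.IsPrime := hQmax.isPrime
    have hpJ : (p : 𝓞 K) ∈ J := hle2 hmem
    have hQ0 : Q ≠ ⊥ := by
      rintro rfl
      exact hp0 ((Submodule.mem_bot _).1 (hQle hpJ))
    obtain ⟨e', J', he', hfac', hcop'⟩ := exists_split hJ0 hQ hQ0 hQle
    obtain ⟨f', g', hf1', hNQ, hNJ', hsum'⟩ :=
      norm_split hp hQ he' (by rw [← hfac']; exact hNJ)
    have hcPQ : IsCoprime P (Q ^ e') := by
      rw [hfac'] at hcop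
      exact hcop.of_mul_right_left
    have hcPJ' : IsCoprime P J' := by
      rw [hfac'] at hcop
      exact hcop.of_mul_right_right
    have hmem' : (p : 𝓞 K) ∈ P * (Q ^ e' * J') := by
      rw [← hfac', ← hfac]
      exact mem_span_singleton_self _
    have hg'' : g' = 0 ∨ g' = 1 ∨ g' = 2 := by
      have : 1 ≤ f' * e' := Nat.mul_pos hf1' (Nat.pos_of_ne_zero he')
      omega
    rcases hg'' with h | h | h
    · subst h
      rw [pow_zero, absNorm_eq_one_iff] at hNJ'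
      rw [hNJ', Ideal.mul_top] at hfac'
      rw [hfac', mul_comm] at hfac
      exact indep_of_three_one hp hQ hQ0 hP.ne_top hfac hcPQ.symm hNQ (by omega)
    · subst h
      have hI : (p : 𝓞 K) ∈ Q ^ e' := by
        have h1 : P * (Q ^ e' * J') ≤ Q ^ e' * J' := Ideal.mul_le_right
        have h2 : Q ^ e' * J' ≤ Q ^ e' := Ideal.mul_le_left
        exact h2 (h1 hmem')
      have hJ : (p : 𝓞 K) ∈ P * J' := by
        have h1 : P * (Q ^ e' * J') = Q ^ e' * (P * J') := by ring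
        rw [h1] at hmem'
        have h2 : Q ^ e' * (P * J') ≤ P * J' := Ideal.mul_le_right
        exact h2 hmem'
      refine indep_of_coprime hp (IsCoprime.mul_right hcPQ.symm hcop') hI hJ ?_ ?_
      · rw [map_pow, hNQ, ← pow_mul, show f' * e' = 2 by omega]
        exact hsq
      · rw [map_mul, hNP, hNJ', pow_one, ← pow_two]
        exact hsq
    · subst h
      have hI : (p : 𝓞 K) ∈ P * Q ^ e' := by
        have h1 : P * (Q ^ e' * J') = (P * Q ^ e') * J' := by ring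
        rw [h1] at hmem'
        have h2 : (P * Q ^ e') * J' ≤ P * Q ^ e' := Ideal.mul_le_left
        exact h2 hmem'
      have hJ : (p : 𝓞 K) ∈ J' := by
        have h1 : P * (Q ^ e' * J') = (P * Q ^ e') * J' := by ring
        rw [h1] at hmem'
        have h2 : (P * Q ^ e') * J' ≤ J' := Ideal.mul_le_right
        exact h2 hmem'
      refine indep_of_coprime hp (IsCoprime.mul_left hcPJ' hcop') hI hJ ?_ ?_
      · rw [map_mul, map_pow, hNP, hNQ, ← pow_mul, show f' * e' = 1 by omega, pow_one, ← pow_two]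
        exact hsq
      · rw [hNJ']
        exact hsq

end Pool.TT.Quartic
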