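import Mathlib

set_option autoImplicit false

/-!
TEAM QUARTIC (MP_695920_nt): for every prime `p` (auxiliary lemmas) there are algebraic integers `x, y` in a quartic
field such that `1, x, y, x y` are linearly independent modulo `p` (helper90).
-/

open NumberField Module Ideal

namespace Pool.TT.Quartic

variable {K : Type} [Field K] [NumberField K]

/-- the conclusion -/
def Indep (K : Type) [Field K] (p : ℕ) : Prop :=
  ∃ x y : 𝓞 K, ∀ a b c d : ℤ, (p : 𝓞 K) ∣ (a : 𝓞 K) + b * x + c * y + d * (x * y) →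
    (p : ℤ) ∣ a ∧ (p : ℤ) ∣ b ∧ (p : ℤ) ∣ c ∧ (p : ℤ) ∣ d

/-- integers in a proper ideal which contains `p` -/
theorem int_dvd {p : ℕ} (hp : p.Prime) {I : Ideal (𝓞 K)} (hI : I ≠ ⊤) (hpI : (p : 𝓞 K) ∈ I)
    {a : ℤ} (ha : (a : 𝓞 K) ∈ I) : (p : ℤ) ∣ a := by
  by_contra hcon
  have h1 : IsCoprime (p : ℤ) a :=
    (Int.prime_iff_natAbs_prime.2 (by simpa using hp)).coprime_iff_not_dvd.2 hcon
  obtain ⟨u, v, huv⟩ := h1
  apply hI
  rw [Ideal.eq_top_iff_one]
  have h2 : (1 : 𝓞 K) = (u : 𝓞 K) * (p : 𝓞 K) + (v : 𝓞 K) * (a : 𝓞 K) := by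
    have := congrArg (Int.cast : ℤ → 𝓞 K) huv
    push_cast at this
    exact this.symm
  rw [h2]
  exact I.add_mem (I.mul_mem_left _ hpI) (I.mul_mem_left _ ha)

/-- an integer times an element -/
theorem int_mul_dvd {p : ℕ} (hp : p.Prime) {I : Ideal (𝓞 K)} (hpI : (p : 𝓞 K) ∈ I)
    {c : ℤ} {u : 𝓞 K} (hu : u ∉ I) (ha : (c : 𝓞 K) * u ∈ I) : (p : ℤ) ∣ c := by
  by_contra hcon
  have h1 : IsCoprime (p : ℤ) c :=
    (Int.prime_iff_natAbs_prime.2 (by simpa using hp)).coprime_iff_not_dvd.2 hcon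
  obtain ⟨s, v, huv⟩ := h1
  apply hu
  have h2 : u = (s : 𝓞 K) * u * (p : 𝓞 K) + (v : 𝓞 K) * ((c : 𝓞 K) * u) := by
    have := congrArg (Int.cast : ℤ → 𝓞 K) huv
    push_cast at this
    linear_combination (-u) * this
  rw [h2]
  exact I.add_mem (I.mul_mem_left _ hpI) (I.mul_mem_left _ ha)

/-- an element outside of `ℤ + I` -/
theorem exists_notMem {p : ℕ} (hp : p.Prime) {I : Ideal (𝓞 K)} (hpI : (p : 𝓞 K) ∈ I)
    (hN : p < absNorm I) : ∃ u : 𝓞 K, ∀ n : ℤ, u - n ∉ I := by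
  by_contra hcon
  push Not at hcon
  have : NeZero p := ⟨hp.ne_zero⟩
  have h1 : Function.Surjective (fun n : Fin p => Ideal.Quotient.mk I ((n : ℕ) : 𝓞 K)) := by
    intro q
    obtain ⟨u, rfl⟩ := Ideal.Quotient.mk_surjective q
    obtain ⟨n, hn⟩ := hcon u
    have hp0 : (0 : ℤ) < p := by exact_mod_cast hp.pos
    have hr0 : 0 ≤ n % p := Int.emod_nonneg _ hp0.ne'
    have hr1 : n % p < p := Int.emod_lt_of_pos _ hp0
    refine ⟨⟨(n % p).toNat, by omega⟩, ?_⟩
    show Ideal.Quotient.mk I (((n % p).toNat : ℕ) : 𝓞 K) = Ideal.Quotient.mk I u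
    rw [Ideal.Quotient.eq]
    have h2 : (((n % p).toNat : ℕ) : 𝓞 K) = ((n % p : ℤ) : 𝓞 K) := by
      have h3 : (((n % p).toNat : ℕ) : ℤ) = n % p := Int.toNat_of_nonneg hr0
      have h4 := congrArg (Int.cast : ℤ → 𝓞 K) h3
      push_cast at h4 ⊢
      exact_mod_cast h4
    have h5 : (n : 𝓞 K) = ((n % p : ℤ) : 𝓞 K) + (p : 𝓞 K) * ((n / p : ℤ) : 𝓞 K) := by
      have h6 := congrArg (Int.cast : ℤ → 𝓞 K) (Int.emod_add_mul_ediv n p)
      push_cast at h6 ⊢
      exact h6.symm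
    rw [h2]
    have h7 : ((n % p : ℤ) : 𝓞 K) - u = -(u - n) - (p : 𝓞 K) * ((n / p : ℤ) : 𝓞 K) := by
      rw [h5]
      ring
    rw [h7]
    exact I.sub_mem (I.neg_mem hn) (I.mul_mem_right _ hpI)
  have h2 := Nat.card_le_card_of_surjective _ h1
  rw [Nat.card_fin] at h2
  have h3 : Nat.card (𝓞 K ⧸ I) = absNorm I := rfl
  omega

/-- the case of two coprime ideals with large norms -/
theorem indep_of_coprime {p : ℕ} (hp : p.Prime) {I J : Ideal (𝓞 K)} (hIJ : IsCoprime I J)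
    (hpI : (p : 𝓞 K) ∈ I) (hpJ : (p : 𝓞 K) ∈ J) (hI : p < absNorm I) (hJ : p < absNorm J) :
    Indep K p := by
  obtain ⟨u, hu⟩ := exists_notMem hp hpI hI
  obtain ⟨v, hv⟩ := exists_notMem hp hpJ hJ
  obtain ⟨i, hi, j, hj, hij⟩ := Ideal.isCoprime_iff_exists.1 hIJ
  -- `x = i`: `0` modulo `I`, `1` modulo `J`
  refine ⟨i, j * u + i * v, fun a b c d h => ?_⟩
  obtain ⟨w, hw⟩ := h
  have hI1 : (1 : 𝓞 K) ∉ I := by
    intro h1
    have := (Ideal.eq_top_iff_one I).2 h1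
    rw [this, absNorm_top] at hI
    have := hp.one_lt
    omega
  have hJ1 : (1 : 𝓞 K) ∉ J := by
    intro h1
    have := (Ideal.eq_top_iff_one J).2 h1
    rw [this, absNorm_top] at hJ
    have := hp.one_lt
    omega
  -- modulo `I`: `a + c u`
  have e1 : (a : 𝓞 K) + c * u ∈ I := by
    have h2 : (a : 𝓞 K) + c * u = (p : 𝓞 K) * w - i * (b + d * (j * u + i * v) + c * v - c * u) := by
      rw [← hw]
      linear_combination (-(c : 𝓞 K) * u) * hij
    rw [h2]
    exact I.sub_mem (I.mul_mem_right _ hpI) (I.mul_mem_right _ hi)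
  have key : ∀ (I : Ideal (𝓞 K)) (_ : (p : 𝓞 K) ∈ I) (_ : (1 : 𝓞 K) ∉ I) (u : 𝓞 K)
      (_ : ∀ n : ℤ, u - n ∉ I) (a c : ℤ) (_ : (a : 𝓞 K) + c * u ∈ I),
      (p : ℤ) ∣ a ∧ (p : ℤ) ∣ c := by
    intro I hpI hI1 u hu a c h
    have hc : (p : ℤ) ∣ c := by
      by_contra hcon
      have h1 : IsCoprime (p : ℤ) c :=
        (Int.prime_iff_natAbs_prime.2 (by simpa using hp)).coprime_iff_not_dvd.2 hcon
      obtain ⟨s, t, hst⟩ := h1
      apply hu (-(t * a))
      have h2 : u - ((-(t * a) : ℤ) : 𝓞 K) = (t : 𝓞 K) * ((a : 𝓞 K) + c * u) +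
          (p : 𝓞 K) * ((s : 𝓞 K) * u) := by
        have := congrArg (Int.cast : ℤ → 𝓞 K) hst
        push_cast at this ⊢
        linear_combination (-u) * this
      rw [h2]
      exact I.add_mem (I.mul_mem_left _ h) (I.mul_mem_right _ hpI)
    refine ⟨?_, hc⟩
    refine int_dvd hp (fun h1 => hI1 ((Ideal.eq_top_iff_one I).1 h1)) hpI ?_
    obtain ⟨c', hc'⟩ := hc
    have h2 : (a : 𝓞 K) = ((a : 𝓞 K) + c * u) - (p : 𝓞 K) * (c' * u) := by
      rw [hc']
      push_cast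
      ring
    rw [h2]
    exact I.sub_mem h (I.mul_mem_right _ hpI)
  obtain ⟨ha, hc⟩ := key I hpI hI1 u hu a c e1
  -- modulo `J`: `(a + b) + (c + d) v`
  have e2 : ((a + b : ℤ) : 𝓞 K) + ((c + d : ℤ) : 𝓞 K) * v ∈ J := by
    have h2 : ((a + b : ℤ) : 𝓞 K) + ((c + d : ℤ) : 𝓞 K) * v =
        (p : 𝓞 K) * w + j * (b + c * v - c * u + d * v + d * i * v - d * i * u) := by
      rw [← hw]
      push_cast
      have hi' : i = 1 - j := by rw [← hij]; ring
      rw [hi']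
      ring
    rw [h2]
    exact J.add_mem (J.mul_mem_right _ hpJ) (J.mul_mem_right _ hj)
  obtain ⟨hab, hcd⟩ := key J hpJ hJ1 v hv (a + b) (c + d) e2
  exact ⟨ha, (dvd_add_right ha).1 hab, hc, (dvd_add_right hc).1 hcd⟩

/-- a generator of the residue field -/
theorem exists_gen {p : ℕ} (hp : p.Prime) {P : Ideal (𝓞 K)} (hP : P.IsMaximal)
    (hpP : (p : 𝓞 K) ∈ P) {d : ℕ} (hN : absNorm P = p ^ d) :
    ∃ α : 𝓞 K, ∀ c : Fin d → ℤ, ∑ i, (c i : 𝓞 K) * α ^ (i : ℕ) ∈ P → ∀ i, (p : ℤ) ∣ c i := by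
  have : Fact p.Prime := ⟨hp⟩
  let k := 𝓞 K ⧸ P
  letI : Field k := Ideal.Quotient.field P
  have hfin : Finite k := by
    have h1 : absNorm P ≠ 0 := by
      rw [hN]
      exact pow_ne_zero _ hp.ne_zero
    exact (absNorm_ne_zero_iff P).1 h1
  have := Fintype.ofFinite k
  have hpk : (p : k) = 0 := by
    have : (Ideal.Quotient.mk P (p : 𝓞 K)) = 0 := Ideal.Quotient.eq_zero_iff_mem.2 hpP
    rw [map_natCast] at this
    exact this
  have hchar : CharP k p := by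
    obtain ⟨q, hq⟩ := CharP.exists k
    have hqp : q ∣ p := (CharP.cast_eq_zero_iff k q p).1 hpk
    have hq1 : q ≠ 1 := CharP.char_ne_one k q
    have : q = p := ((Nat.dvd_prime hp).1 hqp).resolve_left hq1
    rwa [← this]
  letI : Algebra (ZMod p) k := ZMod.algebra k p
  obtain ⟨β, hβ⟩ := Field.exists_primitive_element_of_finite_top (ZMod p) k
  have hcard : Fintype.card k = p ^ d := by
    rw [← hN, ← Nat.card_eq_fintype_card]
    rfl
  have hrank : finrank (ZMod p) k = d := by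
    have h1 := Module.card_eq_pow_finrank (K := ZMod p) (V := k)
    rw [hcard, ZMod.card] at h1
    exact (Nat.pow_right_injective hp.two_le h1).symm
  have hint : IsIntegral (ZMod p) β := Algebra.IsIntegral.isIntegral β
  have hdeg : (minpoly (ZMod p) β).natDegree = d := by
    rw [← IntermediateField.adjoin.finrank hint, hβ, ← hrank]
    exact IntermediateField.finrank_top'
  obtain ⟨α, hα⟩ := Ideal.Quotient.mk_surjective β
  refine ⟨α, fun c hc i => ?_⟩
  have hlin := linearIndependent_pow (K := ZMod p) β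
  rw [Fintype.linearIndependent_iff] at hlin
  have h1 : ∑ i : Fin (minpoly (ZMod p) β).natDegree,
      ((c (Fin.cast hdeg i) : ZMod p)) • β ^ (i : ℕ) = 0 := by
    have h2 : (Ideal.Quotient.mk P) (∑ i, (c i : 𝓞 K) * α ^ (i : ℕ)) = 0 :=
      Ideal.Quotient.eq_zero_iff_mem.2 hc
    rw [map_sum] at h2
    rw [← h2]
    refine Fintype.sum_equiv (finCongr hdeg) _ _ fun j => ?_
    rw [Algebra.smul_def, map_intCast, map_mul, map_intCast, map_pow, hα]
    rfl
  have h2 := hlin _ h1 (Fin.cast hdeg.symm i)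
  rw [ZMod.intCast_zmod_eq_zero_iff_dvd] at h2
  simpa using h2

/-- powers of a uniformizer -/
theorem pow_notMem {P : Ideal (𝓞 K)} (hP : P.IsPrime) (hP0 : P ≠ ⊥) {t : 𝓞 K} (htP : t ∈ P)
    (ht : t ∉ P ^ 2) : ∀ n : ℕ, t ^ n ∉ P ^ (n + 1) := by
  intro n
  induction n with
  | zero =>
    rw [pow_zero, zero_add, pow_one]
    exact fun h => hP.ne_top ((Ideal.eq_top_iff_one P).2 h)
  | succ n ih =>
    intro h
    rw [pow_succ' t n] at h
    have hprime : Prime P := Ideal.prime_of_isPrime hP0 hP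
    have h2 : ¬ P ^ (n + 1) ∣ span {t ^ n} := fun h3 => ih (Ideal.dvd_span_singleton.1 h3)
    have h3 : ¬ P ^ (1 + 1) ∣ span {t} := fun h3 => ht (Ideal.dvd_span_singleton.1 h3)
    have h4 : P ^ (1 + n + 1) ∣ span {t} * span {t ^ n} := by
      rw [span_singleton_mul_span_singleton, show 1 + n + 1 = n + 1 + 1 by ring]
      exact Ideal.dvd_span_singleton.2 h
    have h6 : P ^ 1 ∣ span {t} := by
      rw [pow_one]
      exact Ideal.dvd_span_singleton.2 htP
    have h7 : P ^ n ∣ span {t ^ n} := Ideal.dvd_span_singleton.2 (Ideal.pow_mem_pow htP n)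
    rcases succ_dvd_or_succ_dvd_of_succ_sum_dvd_mul hprime h6 h7 h4 with h5 | h5
    · exact h3 h5
    · exact h2 h5

/-- one prime above `p` -/
theorem indep_of_pow {p : ℕ} (hp : p.Prime) {P : Ideal (𝓞 K)} (hP : P.IsPrime) (hP0 : P ≠ ⊥)
    {e f : ℕ} (hfac : span {(p : 𝓞 K)} = P ^ e) (hN : absNorm P = p ^ f) (hef : f * e = 4) :
    Indep K p := by
  have he0 : e ≠ 0 := by
    rintro rfl
    omega
  have hpe : (p : 𝓞 K) ∈ P ^ e := by
    rw [← hfac]
    exact mem_span_singleton_self _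
  have hpP : (p : 𝓞 K) ∈ P := Ideal.pow_le_self he0 hpe
  have hdvd : ∀ z : 𝓞 K, (p : 𝓞 K) ∣ z ↔ z ∈ P ^ e := by
    intro z
    rw [← hfac, mem_span_singleton]
  have hmax : P.IsMaximal := hP.isMaximal hP0
  have hne : P ≠ ⊤ := hP.ne_top
  -- multiples of `p`
  have hmul : ∀ a : ℤ, (p : ℤ) ∣ a → ∀ z : 𝓞 K, (a : 𝓞 K) * z ∈ P ^ e := by
    rintro a ⟨a', rfl⟩ z
    push_cast
    rw [mul_assoc]
    exact (P ^ e).mul_mem_right _ hpe
  by_cases he1 : e = 1
  · -- `O / p` is a field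
    subst he1
    have hf : f = 4 := by omega
    subst hf
    obtain ⟨α, hα⟩ := exists_gen hp hmax hpP hN
    refine ⟨α, α ^ 2, fun a b c d h => ?_⟩
    rw [hdvd, pow_one] at h
    have h1 := hα ![a, b, c, d] (by
      simp only [Fin.sum_univ_four]
      have e1 : (((![a, b, c, d] : Fin 4 → ℤ) 0 : ℤ) : 𝓞 K) * α ^ ((0 : Fin 4) : ℕ) +
          ((![a, b, c, d] : Fin 4 → ℤ) 1 : ℤ) * α ^ ((1 : Fin 4) : ℕ) +
          ((![a, b, c, d] : Fin 4 → ℤ) 2 : ℤ) * α ^ ((2 : Fin 4) : ℕ) +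
          ((![a, b, c, d] : Fin 4 → ℤ) 3 : ℤ) * α ^ ((3 : Fin 4) : ℕ) =
          (a : 𝓞 K) + b * α + c * α ^ 2 + d * (α * α ^ 2) := by
        show (a : 𝓞 K) * α ^ 0 + b * α ^ 1 + c * α ^ 2 + d * α ^ 3 = _
        ring
      rw [e1]
      exact h)
    exact ⟨h1 0, h1 1, h1 2, h1 3⟩
  have he2 : 2 ≤ e := by omega
  -- a uniformizer
  obtain ⟨t, htP, ht⟩ : ∃ t ∈ P, t ∉ P ^ 2 := by
    have h1 := Ideal.pow_succ_lt_pow hP0 1
    obtain ⟨t, ht1, ht2⟩ := SetLike.exists_of_lt h1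
    exact ⟨t, by rwa [pow_one] at ht1, ht2⟩
  have hpow := pow_notMem hP hP0 htP ht
  have hle2 : P ^ e ≤ P ^ 2 := Ideal.pow_le_pow_right he2
  have hle1 : P ^ e ≤ P := Ideal.pow_le_self he0
  by_cases hf1 : f = 1
  · -- totally ramified
    subst hf1
    have he4 : e = 4 := by omega
    subst he4
    refine ⟨t, t ^ 2, fun a b c d h => ?_⟩
    rw [hdvd] at h
    have hu : ∀ (n : ℤ) (z : 𝓞 K), ¬ (p : ℤ) ∣ n → z ∈ P → (n : 𝓞 K) + z ∉ P := by
      intro n z hn hz h1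
      exact hn (int_dvd hp hne hpP (by
        have : (n : 𝓞 K) = (n : 𝓞 K) + z - z := by ring
        rw [this]
        exact P.sub_mem h1 hz))
    have ha : (p : ℤ) ∣ a := by
      by_contra hcon
      refine hu a (b * t + c * t ^ 2 + d * (t * t ^ 2)) hcon ?_ ?_
      · have : (b : 𝓞 K) * t + c * t ^ 2 + d * (t * t ^ 2) = (b + c * t + d * t ^ 2) * t := by ring
        rw [this]
        exact P.mul_mem_left _ htP
      · have h1 := hle1 h
        have : (a : 𝓞 K) + (b * t + c * t ^ 2 + d * (t * t ^ 2)) =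
            (a : 𝓞 K) + b * t + c * t ^ 2 + d * (t * t ^ 2) := by ring
        rw [this]
        exact h1
    have h1 : t * ((b : 𝓞 K) + (c * t + d * t ^ 2)) ∈ P ^ 4 := by
      have : t * ((b : 𝓞 K) + (c * t + d * t ^ 2)) =
          ((a : 𝓞 K) + b * t + c * t ^ 2 + d * (t * t ^ 2)) - a * 1 := by ring
      rw [this]
      exact (P ^ 4).sub_mem h (hmul a ha 1)
    have hb : (p : ℤ) ∣ b := by
      by_contra hcon
      refine hu b (c * t + d * t ^ 2) hcon ?_ ?_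
      · have : (c : 𝓞 K) * t + d * t ^ 2 = (c + d * t) * t := by ring
        rw [this]
        exact P.mul_mem_left _ htP
      · exact Ideal.mem_prime_of_mul_mem_pow hP0 (i := 1) ht
          (Ideal.pow_le_pow_right (by norm_num) h1)
    have h2 : t ^ 2 * ((c : 𝓞 K) + d * t) ∈ P ^ 4 := by
      have : t ^ 2 * ((c : 𝓞 K) + d * t) = t * ((b : 𝓞 K) + (c * t + d * t ^ 2)) - b * t := by
        ring
      rw [this]
      exact (P ^ 4).sub_mem h1 (hmul b hb t)
    have hc : (p : ℤ) ∣ c := by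
      by_contra hcon
      refine hu c (d * t) hcon (P.mul_mem_left _ htP) ?_
      exact Ideal.mem_prime_of_mul_mem_pow hP0 (i := 2) (hpow 2)
        (Ideal.pow_le_pow_right (by norm_num) h2)
    have h3 : t ^ 3 * (d : 𝓞 K) ∈ P ^ 4 := by
      have : t ^ 3 * (d : 𝓞 K) = t ^ 2 * ((c : 𝓞 K) + d * t) - c * t ^ 2 := by ring
      rw [this]
      exact (P ^ 4).sub_mem h2 (hmul c hc (t ^ 2))
    exact ⟨ha, hb, hc, int_dvd hp hne hpP
      (Ideal.mem_prime_of_mul_mem_pow hP0 (i := 3) (hpow 3) h3)⟩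
  · -- ramified, with a larger residue field
    have hf2 : 2 ≤ f := by
      rcases Nat.eq_zero_or_pos f with h | h
      · subst h
        omega
      · omega
    have hN2 : p < absNorm P := by
      rw [hN]
      calc p = p ^ 1 := (pow_one p).symm
        _ < p ^ f := Nat.pow_lt_pow_right hp.one_lt (by omega)
    obtain ⟨α, hα⟩ := exists_notMem hp hpP hN2
    have key : ∀ a c : ℤ, (a : 𝓞 K) + c * α ∈ P → (p : ℤ) ∣ a ∧ (p : ℤ) ∣ c := by
      intro a c h
      have hc : (p : ℤ) ∣ c := by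
        by_contra hcon
        have h1 : IsCoprime (p : ℤ) c :=
          (Int.prime_iff_natAbs_prime.2 (by simpa using hp)).coprime_iff_not_dvd.2 hcon
        obtain ⟨s, r, hst⟩ := h1
        apply hα (-(r * a))
        have h2 : α - ((-(r * a) : ℤ) : 𝓞 K) = (r : 𝓞 K) * ((a : 𝓞 K) + c * α) +
            (p : 𝓞 K) * ((s : 𝓞 K) * α) := by
          have := congrArg (Int.cast : ℤ → 𝓞 K) hst
          push_cast at this ⊢
          linear_combination (-α) * this
        rw [h2]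
        exact P.add_mem (P.mul_mem_left _ h) (P.mul_mem_right _ hpP)
      refine ⟨int_dvd hp hne hpP ?_, hc⟩
      obtain ⟨c', hc'⟩ := hc
      have h2 : (a : 𝓞 K) = ((a : 𝓞 K) + c * α) - (p : 𝓞 K) * (c' * α) := by
        rw [hc']
        push_cast
        ring
      rw [h2]
      exact P.sub_mem h (P.mul_mem_right _ hpP)
    refine ⟨t, α, fun a b c d h => ?_⟩
    rw [hdvd] at h
    obtain ⟨ha, hc⟩ := key a c (by
      have : (a : 𝓞 K) + c * α = ((a : 𝓞 K) + b * t + c * α + d * (t * α)) - (b + d * α) * t := by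
        ring
      rw [this]
      exact P.sub_mem (hle1 h) (P.mul_mem_left _ htP))
    have h1 : t * ((b : 𝓞 K) + d * α) ∈ P ^ e := by
      have : t * ((b : 𝓞 K) + d * α) =
          ((a : 𝓞 K) + b * t + c * α + d * (t * α)) - a * 1 - c * α := by ring
      rw [this]
      exact (P ^ e).sub_mem ((P ^ e).sub_mem h (hmul a ha 1)) (hmul c hc α)
    obtain ⟨hb, hd⟩ := key b d (Ideal.mem_prime_of_mul_mem_pow hP0 (i := 1) ht (hle2 h1))
    exact ⟨ha, hb, hc, hd⟩

/-- a unit modulo `P ^ e` whose powers are independent -/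
theorem exists_unit_gen {p : ℕ} (hp : p.Prime) {P : Ideal (𝓞 K)} (hP : P.IsPrime)
    (hP0 : P ≠ ⊥) {e f : ℕ} (hpe : (p : 𝓞 K) ∈ P ^ e) (hN : absNorm P = p ^ f)
    (hef : f * e = 3) : ∃ s : 𝓞 K, s ∉ P ∧ ∀ a b c : ℤ,
      (a : 𝓞 K) + b * s + c * s ^ 2 ∈ P ^ e → (p : ℤ) ∣ a ∧ (p : ℤ) ∣ b ∧ (p : ℤ) ∣ c := by
  have he0 : e ≠ 0 := by
    rintro rfl
    omega
  have hpP : (p : 𝓞 K) ∈ P := Ideal.pow_le_self he0 hpe
  have hmax : P.IsMaximal := hP.isMaximal hP0
  have hne : P ≠ ⊤ := hP.ne_top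
  have hle1 : P ^ e ≤ P := Ideal.pow_le_self he0
  have hmul : ∀ a : ℤ, (p : ℤ) ∣ a → ∀ z : 𝓞 K, (a : 𝓞 K) * z ∈ P ^ e := by
    rintro a ⟨a', rfl⟩ z
    push_cast
    rw [mul_assoc]
    exact (P ^ e).mul_mem_right _ hpe
  by_cases he1 : e = 1
  · subst he1
    have hf : f = 3 := by omega
    subst hf
    obtain ⟨α, hα⟩ := exists_gen hp hmax hpP hN
    have h2 : ∀ a b c : ℤ, (a : 𝓞 K) + b * α + c * α ^ 2 ∈ P →
        (p : ℤ) ∣ a ∧ (p : ℤ) ∣ b ∧ (p : ℤ) ∣ c := by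
      intro a b c h
      have h1 := hα ![a, b, c] (by
        simp only [Fin.sum_univ_three]
        have e1 : (((![a, b, c] : Fin 3 → ℤ) 0 : ℤ) : 𝓞 K) * α ^ ((0 : Fin 3) : ℕ) +
            ((![a, b, c] : Fin 3 → ℤ) 1 : ℤ) * α ^ ((1 : Fin 3) : ℕ) +
            ((![a, b, c] : Fin 3 → ℤ) 2 : ℤ) * α ^ ((2 : Fin 3) : ℕ) =
            (a : 𝓞 K) + b * α + c * α ^ 2 := by
          show (a : 𝓞 K) * α ^ 0 + b * α ^ 1 + c * α ^ 2 = _
          ring
        rw [e1]
        exact h)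
      exact ⟨h1 0, h1 1, h1 2⟩
    refine ⟨α, fun h => ?_, fun a b c h => h2 a b c (by rwa [pow_one] at h)⟩
    have h3 := (h2 0 1 0 (by simpa using h)).2.1
    exact hp.one_lt.ne' (by
      have := Int.le_of_dvd one_pos h3
      have := hp.one_lt
      omega)
  · have hf1 : f = 1 := by
      have : f ∣ 3 := ⟨e, hef.symm⟩
      rcases (Nat.dvd_prime Nat.prime_three).1 this with h | h
      · exact h
      · subst h
        omega
    subst hf1
    have he3 : e = 3 := by omega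
    subst he3
    obtain ⟨t, htP, ht⟩ : ∃ t ∈ P, t ∉ P ^ 2 := by
      have h1 := Ideal.pow_succ_lt_pow hP0 1
      obtain ⟨t, ht1, ht2⟩ := SetLike.exists_of_lt h1
      exact ⟨t, by rwa [pow_one] at ht1, ht2⟩
    have hpow := pow_notMem hP hP0 htP ht
    refine ⟨1 + t, fun h => ?_, fun a b c h => ?_⟩
    · refine hne ((Ideal.eq_top_iff_one P).2 ?_)
      have : (1 : 𝓞 K) = 1 + t - t := by ring
      rw [this]
      exact P.sub_mem h htP
    · -- `(a + b + c) + (b + 2 c) t + c t ^ 2`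
      have h0 : ((a + b + c : ℤ) : 𝓞 K) + ((b + 2 * c : ℤ) : 𝓞 K) * t + c * t ^ 2 ∈ P ^ 3 := by
        have : ((a + b + c : ℤ) : 𝓞 K) + ((b + 2 * c : ℤ) : 𝓞 K) * t + c * t ^ 2 =
            (a : 𝓞 K) + b * (1 + t) + c * (1 + t) ^ 2 := by
          push_cast
          ring
        rw [this]
        exact h
      have hA : (p : ℤ) ∣ a + b + c := by
        refine int_dvd hp hne hpP ?_
        have : ((a + b + c : ℤ) : 𝓞 K) = (((a + b + c : ℤ) : 𝓞 K) +
            ((b + 2 * c : ℤ) : 𝓞 K) * t + c * t ^ 2) - (((b + 2 * c : ℤ) : 𝓞 K) + c * t) * t := by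
          ring
        rw [this]
        exact P.sub_mem (hle1 h0) (P.mul_mem_left _ htP)
      have h1 : t * (((b + 2 * c : ℤ) : 𝓞 K) + c * t) ∈ P ^ 3 := by
        have : t * (((b + 2 * c : ℤ) : 𝓞 K) + c * t) = (((a + b + c : ℤ) : 𝓞 K) +
            ((b + 2 * c : ℤ) : 𝓞 K) * t + c * t ^ 2) - ((a + b + c : ℤ) : 𝓞 K) * 1 := by
          ring
        rw [this]
        exact (P ^ 3).sub_mem h0 (hmul _ hA 1)
      have hB : (p : ℤ) ∣ b + 2 * c := by
        refine int_dvd hp hne hpP ?_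
        have h2 := Ideal.mem_prime_of_mul_mem_pow hP0 (i := 1) ht
          (Ideal.pow_le_pow_right (by norm_num) h1)
        have : ((b + 2 * c : ℤ) : 𝓞 K) = (((b + 2 * c : ℤ) : 𝓞 K) + c * t) - c * t := by ring
        rw [this]
        exact P.sub_mem h2 (P.mul_mem_left _ htP)
      have h2 : t ^ 2 * (c : 𝓞 K) ∈ P ^ 3 := by
        have : t ^ 2 * (c : 𝓞 K) = t * (((b + 2 * c : ℤ) : 𝓞 K) + c * t) -
            ((b + 2 * c : ℤ) : 𝓞 K) * t := by ring
        rw [this]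
        exact (P ^ 3).sub_mem h1 (hmul _ hB t)
      have hC : (p : ℤ) ∣ c := int_dvd hp hne hpP
        (Ideal.mem_prime_of_mul_mem_pow hP0 (i := 2) (hpow 2) h2)
      have hb : (p : ℤ) ∣ b := by
        have := dvd_sub hB (hC.mul_left 2)
        rwa [add_sub_cancel_right] at this
      have ha : (p : ℤ) ∣ a := by
        have := dvd_sub (dvd_sub hA hC) hb
        rwa [add_sub_cancel_right, add_sub_cancel_right] at this
      exact ⟨ha, hb, hC⟩

end Pool.TT.Quartic
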