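import Mathlib

/-!
TEAM QUARTIC, the three pairings of four letters.

`P = 0 : {01|23}`, `P = 1 : {02|13}`, `P = 2 : {03|12}`.
-/

set_option autoImplicit false

namespace Pool.TTQ

open Equiv

/-- the first letter of the first pair: always `0`; the second letter of the first pair -/
def pb (P : Fin 3) : Fin 4 := ![1, 2, 3] P

/-- first letter of the second pair -/
def pc (P : Fin 3) : Fin 4 := ![2, 1, 1] P

/-- second letter of the second pair -/
def pd (P : Fin 3) : Fin 4 := ![3, 3, 2] P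

/-- the pairing which contains the pair `{i, j}` -/
def pairIdx (i j : Fin 4) : Fin 3 :=
  ![![0, 0, 1, 2], ![0, 0, 2, 1], ![1, 2, 0, 0], ![2, 1, 0, 0]] i j

/-- the action on pairings -/
def part (π : Perm (Fin 4)) (P : Fin 3) : Fin 3 := pairIdx (π 0) (π (pb P))

theorem pairIdx_compl : ∀ a b c d : Fin 4,
    (a ≠ b ∧ a ≠ c ∧ a ≠ d ∧ b ≠ c ∧ b ≠ d ∧ c ≠ d) → pairIdx a b = pairIdx c d := by
  decide

theorem pairIdx_comm : ∀ a b : Fin 4, pairIdx a b = pairIdx b a := by decide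

theorem part_pairIdx (π : Perm (Fin 4)) (i j : Fin 4) (hij : i ≠ j) :
    part π (pairIdx i j) = pairIdx (π i) (π j) := by
  have hne : ∀ a b : Fin 4, a ≠ b → π a ≠ π b := fun a b h h' => h (π.injective h')
  have hc : ∀ a b c d : Fin 4, a ≠ b → a ≠ c → a ≠ d → b ≠ c → b ≠ d → c ≠ d →
      pairIdx (π a) (π b) = pairIdx (π c) (π d) := fun a b c d h1 h2 h3 h4 h5 h6 =>
    pairIdx_compl _ _ _ _ ⟨hne _ _ h1, hne _ _ h2, hne _ _ h3, hne _ _ h4, hne _ _ h5,
      hne _ _ h6⟩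
  have h01 := hc 0 1 2 3 (by decide) (by decide) (by decide) (by decide) (by decide) (by decide)
  have h02 := hc 0 2 1 3 (by decide) (by decide) (by decide) (by decide) (by decide) (by decide)
  have h03 := hc 0 3 1 2 (by decide) (by decide) (by decide) (by decide) (by decide) (by decide)
  fin_cases i <;> fin_cases j <;>
    first
    | exact absurd rfl hij
    | rfl
    | exact pairIdx_comm _ _
    | exact h01
    | exact h02
    | exact h03
    | exact h01.trans (pairIdx_comm _ _)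
    | exact h02.trans (pairIdx_comm _ _)
    | exact h03.trans (pairIdx_comm _ _)

theorem pairIdx_surj : ∀ P : Fin 3, pairIdx 0 (pb P) = P := by decide

theorem pairIdx_ne : ∀ P : Fin 3, (0 : Fin 4) ≠ pb P := by decide

theorem part_one (P : Fin 3) : part 1 P = P := by
  simp [part, pairIdx_surj]

theorem part_mul (π π' : Perm (Fin 4)) (P : Fin 3) : part (π * π') P = part π (part π' P) := by
  have h0 : (0 : Fin 4) ≠ pb P := by revert P; decide
  have h1 : π' 0 ≠ π' (pb P) := fun h => h0 (π'.injective h)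
  unfold part
  rw [Perm.mul_apply, Perm.mul_apply]
  have := part_pairIdx π (π' 0) (π' (pb P)) h1
  unfold part at this
  exact this.symm

variable {A : Type*} [CommRing A]

/-- `x_i x_j + x_k x_l + 2 m` for the pairing `P = {ij|kl}` -/
def al (x : Fin 4 → A) (m : A) (P : Fin 3) : A :=
  x 0 * x (pb P) + x (pc P) * x (pd P) + 2 * m

theorem al_perm (x : Fin 4 → A) (m : A) (π : Perm (Fin 4)) (P : Fin 3) :
    al (fun i => x (π i)) m P = al x m (part π P) := by
  have key : ∀ (a b c d : Fin 4) (Q : Fin 3),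
      (a ≠ b ∧ a ≠ c ∧ a ≠ d ∧ b ≠ c ∧ b ≠ d ∧ c ≠ d ∧ pairIdx a b = Q) →
      (((a = 0 ∧ b = pb Q) ∨ (a = pb Q ∧ b = 0)) ∧
        ((c = pc Q ∧ d = pd Q) ∨ (c = pd Q ∧ d = pc Q))) ∨
      (((c = 0 ∧ d = pb Q) ∨ (c = pb Q ∧ d = 0)) ∧
        ((a = pc Q ∧ b = pd Q) ∨ (a = pd Q ∧ b = pc Q))) := by
    decide
  have hne : ∀ a b : Fin 4, a ≠ b → π a ≠ π b := fun a b h h' => h (π.injective h')
  have h0 : (0 : Fin 4) ≠ pb P ∧ (0 : Fin 4) ≠ pc P ∧ (0 : Fin 4) ≠ pd P ∧ pb P ≠ pc P ∧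
      pb P ≠ pd P ∧ pc P ≠ pd P := by
    revert P; decide
  obtain ⟨h1, h2, h3, h4, h5, h6⟩ := h0
  unfold al
  rcases key (π 0) (π (pb P)) (π (pc P)) (π (pd P)) (part π P) ⟨hne _ _ h1, hne _ _ h2,
    hne _ _ h3, hne _ _ h4, hne _ _ h5, hne _ _ h6, rfl⟩ with
    ⟨⟨ha, hb⟩ | ⟨ha, hb⟩, ⟨hc, hd⟩ | ⟨hc, hd⟩⟩ | ⟨⟨ha, hb⟩ | ⟨ha, hb⟩, ⟨hc, hd⟩ | ⟨hc, hd⟩⟩ <;>
  · beta_reduce
    rw [ha, hb, hc, hd]
    try ring

theorem prod_four (x : Fin 4 → A) (P : Fin 3) :
    x 0 * x (pb P) * (x (pc P) * x (pd P)) = ∏ i, x i := by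
  rw [Fin.prod_univ_four]
  fin_cases P <;> simp [pb, pc, pd] <;> ring

/-- the conjugate value -/
theorem al_mul_al_neg (x : Fin 4 → A) (m : A) (hm : ∏ i, x i = m ^ 2) (P : Fin 3) :
    al x m P * al x (-m) P = (x 0 * x (pb P) - x (pc P) * x (pd P)) ^ 2 := by
  have h := prod_four x P
  rw [hm] at h
  unfold al
  linear_combination (4 : A) * h

/-- scaling by a square -/
theorem al_scale (x z : Fin 4 → A) (m : A) (hm : ∏ i, x i = m ^ 2) (P : Fin 3) :
    al (fun i => z i ^ 2 * x i) ((∏ i, z i) * m) P * al x m P =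
      (z 0 * z (pb P) * (x 0 * x (pb P) + m) + z (pc P) * z (pd P) *
        (x (pc P) * x (pd P) + m)) ^ 2 := by
  have h := prod_four x P
  have hz := prod_four z P
  rw [hm] at h
  rw [← hz]
  unfold al
  linear_combination ((z 0 * z (pb P)) ^ 2 + (z (pc P) * z (pd P)) ^ 2 -
    2 * (z 0 * z (pb P)) * (z (pc P) * z (pd P))) * h

/-- multiplicativity modulo squares -/
theorem al_mul (x y : Fin 4 → A) (m n : A) (hm : ∏ i, x i = m ^ 2) (hn : ∏ i, y i = n ^ 2)
    (P : Fin 3) :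
    al x m P * al y n P * al (fun i => x i * y i) (m * n) P =
      (x 0 * x (pb P) * (y 0 * y (pb P)) + x (pc P) * x (pd P) * (y (pc P) * y (pd P)) +
        2 * m * n + n * (x 0 * x (pb P) + x (pc P) * x (pd P)) +
        m * (y 0 * y (pb P) + y (pc P) * y (pd P))) ^ 2 := by
  have h := prod_four x P
  have h' := prod_four y P
  rw [hm] at h
  rw [hn] at h'
  unfold al
  linear_combination ((y 0 * y (pb P) + y (pc P) * y (pd P)) ^ 2 -
    4 * (y 0 * y (pb P) * (y (pc P) * y (pd P)))) * h +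
    ((x 0 * x (pb P) + x (pc P) * x (pd P)) ^ 2 - 4 * m ^ 2) * h'

/-- the determinant identity -/
theorem det_three_four (x y : Fin 4 → A) :
    Matrix.det (Matrix.of fun P : Fin 3 =>
      ![1, x 0 * x (pb P) + x (pc P) * x (pd P), y 0 * y (pb P) + y (pc P) * y (pd P)]) =
    - Matrix.det (Matrix.of fun i : Fin 4 => ![1, x i, y i, x i * y i]) := by
  simp [Matrix.det_succ_row_zero, Fin.sum_univ_succ, pb, pc, pd, Fin.succAbove]
  ring

end Pool.TTQ
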